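import Pool.Agent.LKT.Defs
import Pool.Agent.ACB.ExS

/-!
# LKT/ExJ (C6): existence of the surgered manifold, any finite family of thick circles, any model   (helper89)

`exists_surgF`: finite families in 4-manifolds with the model `𝓡 4` (one circle after the other).
`exists_surgJ_gen`: any model `J` on `H`, `e : H ≃ₜ E4` linear: the charts are composed with `e`.
`exists_surgJ`: `S³ × S¹`.
-/

open scoped ContDiff Manifold Topology unitInterval
open Set Filter
open Pool.Agent.ACB (E3 E4 S2 Thick Tubes Off Surg)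

namespace Pool.Agent.LKT

section fam
variable {N : Type} [TopologicalSpace N] [ChartedSpace E4 N]

/-- one more circle -/
theorem surg_opt {ι : Type} {κ : Option ι → ℝ × E3 → N} {ε : ℝ} (hT : Tubes κ ε)
    {V : Type*} [TopologicalSpace V] [ChartedSpace E4 V] (SV : Surg (fun i : ι => κ (some i)) ε V)
    {X : Type*} [TopologicalSpace X] [ChartedSpace E4 X]
    (S : Surg (fun _ : Unit => fun x => SV.A (κ none x)) ε X) :
    Nonempty (Surg κ ε X) := by
  have hd : ∀ (i : ι) (l : ℝ) (v : E3) (l' : ℝ) (v' : E3), ‖v‖ < ε → ‖v'‖ < ε →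
      κ none (l, v) ≠ κ (some i) (l', v') :=
    fun i l v l' v' hv hv' => hT.disj none (some i) (by simp) l v l' v' hv hv'
  have hpos : 0 < ε := (hT.thick none).pos
  have h0 : ‖(0 : E3)‖ < ε := by rw [norm_zero]; exact hpos
  have hk1 : ∀ l, Off (fun i : ι => κ (some i)) (κ none (l, 0)) := fun l i l' => hd i l 0 l' 0 h0 h0
  have hoff2 : ∀ p, Off κ p → Off (fun i : ι => κ (some i)) p := fun p hp i l => hp (some i) l
  have ha : ∀ p, Off κ p → Off (fun _ : Unit => fun x => SV.A (κ none x)) (SV.A p) := by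
    intro p hp _ l he
    exact hp none l (SV.A_inj p (κ none (l, 0)) (hoff2 p hp) (hk1 l) he)
  have hb : ∀ (i : ι) (z : ℂ) (w : S2), ‖z‖ < ε →
      Off (fun _ : Unit => fun x => SV.A (κ none x)) (SV.Q i (z, w)) := by
    intro i z w hz _ l' he
    by_cases hz0 : z = 0
    · subst hz0
      exact SV.disj i w (κ none (l', 0)) (hk1 l') he
    · obtain ⟨l, hl⟩ := ACB.ex_polar z
      have hr : 0 < ‖z‖ := norm_pos_iff.2 hz0
      have hg : SV.Q i (z, w) = SV.A (κ (some i) (l, ‖z‖ • w.1)) := by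
        have := SV.glue i l ‖z‖ w hr hz
        rw [← hl] at this
        exact this
      have hw : ‖‖z‖ • w.1‖ < ε := by
        rw [norm_smul, norm_norm, norm_eq_of_mem_sphere w, mul_one]
        exact hz
      have hoff : Off (fun i : ι => κ (some i)) (κ (some i) (l, ‖z‖ • w.1)) := by
        intro i' l'' he2
        by_cases hii : i = i'
        · subst hii
          have h3 := ((hT.thick (some i)).inj l (‖z‖ • w.1) l'' 0 hw h0 he2).1
          have h4 : ‖‖z‖ • w.1‖ = 0 := by rw [h3, norm_zero]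
          rw [norm_smul, norm_norm, norm_eq_of_mem_sphere w, mul_one] at h4
          exact hz0 (norm_eq_zero.1 h4)
        · exact hT.disj (some i) (some i') (by simpa using hii) _ _ _ _ hw h0 he2
      rw [hg] at he
      have h5 := SV.A_inj _ _ hoff (hk1 l') he
      exact hd i l' 0 l (‖z‖ • w.1) h0 hw h5.symm
  have hb0 : ∀ (i : ι) (w : S2), Off (fun _ : Unit => fun x => SV.A (κ none x)) (SV.Q i (0, w)) :=
    fun i w => hb i 0 w (by rw [norm_zero]; exact hpos)
  refine ⟨{ A := fun p => S.A (SV.A p)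
            Q := fun o => match o with
              | none => S.Q ()
              | some i => fun x => S.A (SV.Q i x)
            A_loc := ?_
            A_inj := ?_
            Q_loc := ?_
            glue := ?_
            Q_inj := ?_
            disj := ?_
            cover := ?_ }⟩
  · intro p hp
    exact IsLocalDiffeomorphAt.comp (hf := SV.A_loc p (hoff2 p hp)) (hg := S.A_loc _ (ha p hp)) ..
  · intro p p' hp hp' he
    exact SV.A_inj p p' (hoff2 p hp) (hoff2 p' hp') (S.A_inj _ _ (ha p hp) (ha p' hp') he)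
  · intro o z v hz
    cases o with
    | none => exact S.Q_loc () z v hz
    | some i => exact IsLocalDiffeomorphAt.comp (hf := SV.Q_loc i z v hz) (hg := S.A_loc _ (hb i z v hz)) ..
  · intro o l r v hr hr'
    cases o with
    | none => exact S.glue () l r v hr hr'
    | some i =>
      show S.A (SV.Q i (r * ACB.ex l, v)) = S.A (SV.A (κ (some i) (l, r • v.1)))
      rw [SV.glue i l r v hr hr']
  · intro o o' v v' he
    cases o with
    | none =>
      cases o' with
      | none => exact ⟨rfl, (S.Q_inj () () v v' he).2⟩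
      | some i => exact absurd he (S.disj () v _ (hb0 i v'))
    | some i =>
      cases o' with
      | none => exact absurd he.symm (S.disj () v' _ (hb0 i v))
      | some i' =>
        have h1 : S.A (SV.Q i (0, v)) = S.A (SV.Q i' (0, v')) := he
        obtain ⟨e1, e2⟩ := SV.Q_inj i i' v v' (S.A_inj _ _ (hb0 i v) (hb0 i' v') h1)
        exact ⟨congrArg some e1, e2⟩
  · intro o v p hp
    cases o with
    | none => exact S.disj () v _ (ha p hp)
    | some i =>
      intro he
      have h1 : S.A (SV.Q i (0, v)) = S.A (SV.A p) := he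
      exact SV.disj i v p (hoff2 p hp) (S.A_inj _ _ (hb0 i v) (ha p hp) h1)
  · intro q
    rcases S.cover q with ⟨x, hx, hq⟩ | ⟨_, v, hq⟩
    · rcases SV.cover x with ⟨p, hp, hxp⟩ | ⟨i, w, hxw⟩
      · refine Or.inl ⟨p, ?_, by rw [hq, hxp]⟩
        intro o l
        cases o with
        | none =>
          intro he
          refine hx () l ?_
          show x = SV.A (κ none (l, 0))
          rw [hxp, he]
        | some i => exact hp i l
      · exact Or.inr ⟨some i, w, by rw [hq, hxw]⟩
    · exact Or.inr ⟨none, v, hq⟩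

/-- the statement for all manifolds -/
def ExF (ι : Type) : Prop :=
  ∀ (N : Type) [TopologicalSpace N] [ChartedSpace E4 N] [T2Space N] [IsManifold (𝓡 4) ∞ N]
    (κ : ι → ℝ × E3 → N) (ε : ℝ), Tubes κ ε →
    ∃ (V : Type) (_ : TopologicalSpace V) (_ : ChartedSpace E4 V), IsManifold (𝓡 4) ∞ V ∧ T2Space V ∧
      Nonempty (Surg κ ε V)

theorem exF_all (ι : Type) [Finite ι] : ExF ι := by
  refine Finite.induction_empty_option (P := ExF) ?_ ?_ ?_ ι
  · intro α β e h N _ _ _ _ κ ε hT
    have hT' : Tubes (fun i => κ (e i)) ε := ⟨fun i => hT.thick (e i), fun i j hij =>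
      hT.disj (e i) (e j) (fun h => hij (e.injective h))⟩
    obtain ⟨V, _, _, h1, h2, ⟨S⟩⟩ := h N (fun i => κ (e i)) ε hT'
    have hoff : ∀ p, Off κ p ↔ Off (fun i => κ (e i)) p := by
      intro p
      constructor
      · intro hp i l
        exact hp (e i) l
      · intro hp i l
        have := hp (e.symm i) l
        simpa using this
    refine ⟨V, inferInstance, inferInstance, h1, h2, ⟨{ A := S.A, Q := fun i => S.Q (e.symm i), A_loc := ?_, A_inj := ?_, Q_loc := ?_, glue := ?_, Q_inj := ?_, disj := ?_, cover := ?_ }⟩⟩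
    · intro p hp
      exact S.A_loc p ((hoff p).1 hp)
    · intro p p' hp hp' he
      exact S.A_inj p p' ((hoff p).1 hp) ((hoff p').1 hp') he
    · intro i z v hz
      exact S.Q_loc (e.symm i) z v hz
    · intro i l r v hr hr'
      have := S.glue (e.symm i) l r v hr hr'
      rw [e.apply_symm_apply] at this
      exact this
    · intro i j v v' he
      obtain ⟨e1, e2⟩ := S.Q_inj _ _ v v' he
      exact ⟨e.symm.injective e1, e2⟩
    · intro i v p hp
      exact S.disj _ v p ((hoff p).1 hp)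
    · intro q
      rcases S.cover q with ⟨p, hp, h3⟩ | ⟨i, v, h3⟩
      · exact Or.inl ⟨p, (hoff p).2 hp, h3⟩
      · exact Or.inr ⟨e i, v, by rw [e.symm_apply_apply]; exact h3⟩
  · intro N _ _ _ _ κ ε _
    refine ⟨N, inferInstance, inferInstance, inferInstance, inferInstance, ⟨{ A := id, Q := fun i => i.elim, A_loc := ?_, A_inj := ?_, Q_loc := ?_, glue := ?_, Q_inj := ?_, disj := ?_, cover := ?_ }⟩⟩
    · intro p _
      exact (Diffeomorph.refl (𝓡 4) N ∞).isLocalDiffeomorph p
    · intro p p' _ _ h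
      exact h
    · intro i
      exact i.elim
    · intro i
      exact i.elim
    · intro i
      exact i.elim
    · intro i
      exact i.elim
    · intro q
      exact Or.inl ⟨q, fun i => i.elim, rfl⟩
  · intro α _ h N _ _ _ _ κ ε hT
    have hT' : Tubes (fun i => κ (some i)) ε := ⟨fun i => hT.thick (some i), fun i j hij =>
      hT.disj (some i) (some j) (fun h => hij (Option.some.inj h))⟩
    obtain ⟨V, _, _, h1, h2, ⟨SV⟩⟩ := h N (fun i => κ (some i)) ε hT'
    have hoff : ∀ (l : ℝ) (v : E3), ‖v‖ < ε → Off (fun i : α => κ (some i)) (κ none (l, v)) := by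
      intro l v hv i l'
      exact hT.disj none (some i) (by simp) l v l' 0 hv (by rw [norm_zero]; exact (hT.thick none).pos)
    have hth : Thick (fun x => SV.A (κ none x)) ε := ACB.thick_comp (hT.thick none)
      (U := {p | Off (fun i : α => κ (some i)) p}) hoff (fun x hx => SV.A_loc x hx)
      (fun x hx y hy he => SV.A_inj x y hx hy he)
    obtain ⟨X, _, _, h3, h4, ⟨S⟩⟩ := ACB.exists_surg hth
    exact ⟨X, inferInstance, inferInstance, h3, h4, surg_opt hT SV S⟩

theorem exists_surgF {ι : Type} [Finite ι] [T2Space N] [IsManifold (𝓡 4) ∞ N] {κ : ι → ℝ × E3 → N} {ε : ℝ}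
    (h : Tubes κ ε) :
    ∃ (V : Type) (_ : TopologicalSpace V) (_ : ChartedSpace E4 V), IsManifold (𝓡 4) ∞ V ∧ T2Space V ∧
      Nonempty (Surg κ ε V) := exF_all ι N κ ε h

end fam

/-! ## change of the model -/

section model
variable {E : Type*} [NormedAddCommGroup E] [NormedSpace ℝ E] {H : Type*} [TopologicalSpace H]
  {J : ModelWithCorners ℝ E H} {P : Type} [TopologicalSpace P] [ChartedSpace H P]

/-- the charts composed with `e` -/
@[reducible] def chE (e : H ≃ₜ E4) (P : Type) [TopologicalSpace P] [ChartedSpace H P] : ChartedSpace E4 P where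
  atlas := {φ | ∃ ψ ∈ atlas H P, φ = ψ.trans e.toOpenPartialHomeomorph}
  chartAt x := (chartAt H x).trans e.toOpenPartialHomeomorph
  mem_chart_source x := by simp
  chart_mem_atlas x := ⟨_, chart_mem_atlas H x, rfl⟩

/-- `e` is the model map followed by a linear isomorphism -/
structure MLin (J : ModelWithCorners ℝ E H) (e : H ≃ₜ E4) (L : E ≃L[ℝ] E4) : Prop where
  eq : ∀ x, e x = L (J x)

variable {e : H ≃ₜ E4} {L : E ≃L[ℝ] E4}

theorem MLin.symm (h : MLin J e L) (y : E4) : e.symm y = J.symm (L.symm y) := by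
  have h1 := h.eq (e.symm y)
  rw [e.apply_symm_apply] at h1
  have h2 : L.symm y = J (e.symm y) := by
    rw [h1, L.symm_apply_apply]
    rw [← h1]
  rw [h2, J.left_inv]

theorem MLin.range (h : MLin J e L) : range J = univ := by
  rw [eq_univ_iff_forall]
  intro x
  refine ⟨e.symm (L x), ?_⟩
  apply L.injective
  rw [← h.eq, e.apply_symm_apply]

theorem isManifold_chE (h : MLin J e L) [IsManifold J ∞ P] :
    @IsManifold ℝ _ E4 _ _ E4 _ (𝓡 4) ∞ P _ (chE e P) := by
  let _ : ChartedSpace E4 P := chE e P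
  refine isManifold_of_contDiffOn (𝓡 4) ∞ P ?_
  rintro φ φ' ⟨ψ, hψ, rfl⟩ ⟨ψ', hψ', rfl⟩
  have h1 : ψ.symm.trans ψ' ∈ contDiffGroupoid ∞ J := HasGroupoid.compatible hψ hψ'
  have h2 : ContDiffOn ℝ ∞ (J ∘ (ψ.symm.trans ψ') ∘ J.symm)
      (J.symm ⁻¹' (ψ.symm.trans ψ').source ∩ Set.range J) := by
    rw [contDiffGroupoid, mem_groupoid_of_pregroupoid] at h1
    exact h1.1
  have h3 : ContDiffOn ℝ ∞ (fun y => L ((J ∘ (ψ.symm.trans ψ') ∘ J.symm) (L.symm y)))
      (L.symm ⁻¹' (J.symm ⁻¹' (ψ.symm.trans ψ').source ∩ Set.range J)) :=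
    L.contDiff.comp_contDiffOn (h2.comp L.symm.contDiff.contDiffOn (fun y hy => hy))
  refine (h3.congr ?_).mono ?_
  · intro y _
    show e (ψ' (ψ.symm (e.symm y))) = _
    rw [h.symm, h.eq]
    rfl
  · rintro y ⟨hy, -⟩
    refine ⟨?_, by rw [h.range]; trivial⟩
    have h4 : e.symm y ∈ (ψ.symm.trans ψ').source := by
      simpa using hy
    rw [h.symm] at h4
    exact h4

theorem id_smooth (h : MLin J e L) [IsManifold J ∞ P] :
    @ContMDiff ℝ _ E _ _ H _ J P _ _ E4 _ _ E4 _ (𝓡 4) P _ (chE e P) ∞ (id : P → P) := by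
  let _ : ChartedSpace E4 P := chE e P
  have hI := isManifold_chE (P := P) h
  intro x
  rw [contMDiffAt_iff]
  refine ⟨continuousAt_id, ?_⟩
  have h1 : (extChartAt (𝓡 4) x ∘ id ∘ (extChartAt J x).symm) =ᶠ[𝓝[Set.range J] (extChartAt J x x)] L := by
    filter_upwards [extChartAt_target_mem_nhdsWithin (H := H) x] with y hy
    have h2 := (extChartAt J x).right_inv hy
    show e (chartAt H x ((extChartAt J x).symm y)) = L y
    rw [h.eq]
    congr 1
  refine L.contDiff.contDiffAt.contDiffWithinAt.congr_of_eventuallyEq h1 ?_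
  show e (chartAt H x ((extChartAt J x).symm (extChartAt J x x))) = _
  rw [extChartAt_to_inv, h.eq]
  rfl

theorem id_smooth' (h : MLin J e L) [IsManifold J ∞ P] :
    @ContMDiff ℝ _ E4 _ _ E4 _ (𝓡 4) P _ (chE e P) E _ _ H _ J P _ _ ∞ (id : P → P) := by
  let _ : ChartedSpace E4 P := chE e P
  have hI := isManifold_chE (P := P) h
  intro x
  rw [contMDiffAt_iff]
  refine ⟨continuousAt_id, ?_⟩
  have h1 : (extChartAt J x ∘ id ∘ (extChartAt (𝓡 4) x).symm) =ᶠ[𝓝[Set.range (𝓡 4)] (extChartAt (𝓡 4) x x)]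
      L.symm := by
    filter_upwards [extChartAt_target_mem_nhdsWithin (H := E4) x] with y hy
    have h2 : e (chartAt H x ((extChartAt (𝓡 4) x).symm y)) = y := (extChartAt (𝓡 4) x).right_inv hy
    rw [h.eq] at h2
    show J (chartAt H x ((extChartAt (𝓡 4) x).symm y)) = L.symm y
    rw [← h2, L.symm_apply_apply]
    rw [h2]
  refine L.symm.contDiff.contDiffAt.contDiffWithinAt.congr_of_eventuallyEq h1 ?_
  show J (chartAt H x ((extChartAt (𝓡 4) x).symm (extChartAt (𝓡 4) x x))) = L.symm (e (chartAt H x x))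
  rw [extChartAt_to_inv, h.eq, L.symm_apply_apply]

/-- the identity as a diffeomorphism -/
def idD (h : MLin J e L) [IsManifold J ∞ P] :
    @Diffeomorph ℝ _ E _ _ E4 _ _ H _ E4 _ J (𝓡 4) P _ _ P _ (chE e P) ∞ :=
  @Diffeomorph.mk ℝ _ E _ _ E4 _ _ H _ E4 _ J (𝓡 4) P _ _ P _ (chE e P) ∞ (Equiv.refl P) (id_smooth h)
    (id_smooth' h)

theorem exists_surgJ_gen (h : MLin J e L) [T2Space P] [IsManifold J ∞ P] {ι : Type} [Finite ι]
    {γ : ι → ℝ × E3 → P} {ε : ℝ} (hT : TubesC J γ ε) :
    ∃ (X : Type) (_ : TopologicalSpace X) (_ : ChartedSpace E4 X), IsManifold (𝓡 4) ∞ X ∧ T2Space X ∧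
      Nonempty (SurgJ J γ ε X) := by
  let _ : ChartedSpace E4 P := chE e P
  have hI := isManifold_chE (P := P) h
  have hid : ∀ p : P, IsLocalDiffeomorphAt J (𝓡 4) ∞ (id : P → P) p := fun p => (idD h).isLocalDiffeomorph p
  have hT' : Tubes γ ε := by
    refine ⟨fun i => ⟨(hT.thick i).pos, (hT.thick i).per, fun l v hv => ?_, (hT.thick i).inj⟩, hT.disj⟩
    exact IsLocalDiffeomorphAt.comp (hf := (hT.thick i).loc l v hv) (g := (id : P → P)) (hg := hid _) ..
  obtain ⟨X, _, _, h1, h2, ⟨S⟩⟩ := exists_surgF (N := P) hT'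
  refine ⟨X, inferInstance, inferInstance, h1, h2, ⟨?_⟩⟩
  refine
    { A := S.A
      Q := S.Q
      A_loc := ?_
      A_inj := S.A_inj
      Q_loc := S.Q_loc
      glue := S.glue
      Q_inj := S.Q_inj
      disj := S.disj
      cover := S.cover }
  intro p hp
  exact IsLocalDiffeomorphAt.comp (hf := hid p) (g := S.A) (hg := S.A_loc p hp) ..

end model

/-! ## `S³ × S¹` -/

noncomputable def LSP : (EuclideanSpace ℝ (Fin 3) × EuclideanSpace ℝ (Fin 1)) ≃L[ℝ] E4 :=
  ContinuousLinearEquiv.ofFinrankEq (by simp)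

noncomputable def eSP : ModelProd (EuclideanSpace ℝ (Fin 3)) (EuclideanSpace ℝ (Fin 1)) ≃ₜ E4 :=
  LSP.toHomeomorph

theorem mlin_SP : MLin PTH.ISP eSP LSP := ⟨fun _ => rfl⟩

theorem exists_surgJ {ι : Type} [Finite ι] {γ : ι → ℝ × E3 → PTH.SP} {ε : ℝ} (hT : TubesC PTH.ISP γ ε) :
    ∃ (X : Type) (_ : TopologicalSpace X) (_ : ChartedSpace E4 X), IsManifold (𝓡 4) ∞ X ∧ T2Space X ∧
      Nonempty (SurgJ PTH.ISP γ ε X) := exists_surgJ_gen mlin_SP hT

end Pool.Agent.LKT
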