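import Pool.Agent.LKT.Defs
import Pool.Agent.KNH.DicM
import Pool.Agent.RSG.StdM
import Pool.Agent.RSG.BaQ

/-!
# LKT/UnA: tools for `S3 × S1`: `s1`, `s2`, `dir`, `RR`, `ΘU`, `ΘH`, the standard tori   (helper33)
-/

open scoped Manifold ContDiff Topology
open Set Filter
open Complex (I)
open Pool.Agent.RSG (E3 E4 S2 S3 S4 ex cj c1 c2 ht fh pS3 pS4)
open Pool.Agent.RBM (ThickT OnT)
open Pool.Agent.RBH (Tube)
open Pool.Agent.PTH (SP ISP)
open Pool.Agent.KNH (circ prd)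
open Pool.Agent.LKF (LinkT OnF TubF TwinF)

namespace Pool.Agent.LKT

/-! ## coordinates of `S3` -/

theorem s_sq (x : S3) : ‖s1 x‖ ^ 2 + ‖s2 x‖ ^ 2 = 1 := RSG.S3_sq x

theorem s_self (x : S3) : pS3 (s1 x) (s2 x) = x := RSG.pS3_self x

theorem s_mk {a b : ℂ} (h : ‖a‖ ^ 2 + ‖b‖ ^ 2 = 1) : s1 (pS3 a b) = a ∧ s2 (pS3 a b) = b := RSG.pS3_c h

theorem s_ext {x y : S3} (h1 : s1 x = s1 y) (h2 : s2 x = s2 y) : x = y := by
  rw [← s_self x, ← s_self y, h1, h2]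

theorem s1_smooth : ContMDiff (𝓡 3) 𝓘(ℝ, ℂ) ∞ s1 := RSG.S3c_smooth.1
theorem s2_smooth : ContMDiff (𝓡 3) 𝓘(ℝ, ℂ) ∞ s2 := RSG.S3c_smooth.2

theorem s_lt (x : S3) : ‖s1 x‖ ≤ 1 ∧ ‖s2 x‖ ≤ 1 := by
  have h := s_sq x
  constructor <;> nlinarith [norm_nonneg (s1 x), norm_nonneg (s2 x), sq_nonneg ‖s1 x‖, sq_nonneg ‖s2 x‖]

/-! ## the circle -/

theorem coe_circ (t : ℝ) : ((circ t : Circle) : ℂ) = ex t := KNH.CirM_coe t

theorem dir_coe {w : ℂ} (hw : w ≠ 0) : ((dir w : Circle) : ℂ) = w / ‖w‖ := by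
  have h : (‖w‖ : ℂ) ≠ 0 := Complex.ofReal_ne_zero.2 (norm_ne_zero_iff.2 hw)
  unfold dir
  rw [Circle.coe_exp, eq_div_iff h, mul_comm]
  exact Complex.norm_mul_exp_arg_mul_I w

theorem dir_mul_ex {r x : ℝ} (hr : 0 < r) : dir ((r : ℂ) * ex x) = circ x := by
  have h0 : (r : ℂ) * ex x ≠ 0 := mul_ne_zero (Complex.ofReal_ne_zero.2 hr.ne') (RSG.ex_ne x)
  apply Circle.ext
  rw [dir_coe h0, coe_circ, norm_mul, RSG.ex_norm, mul_one, Complex.norm_real, Real.norm_of_nonneg hr.le,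
    mul_div_cancel_left₀ _ (Complex.ofReal_ne_zero.2 hr.ne')]

theorem dir_smooth {w : ℂ} (hw : w ≠ 0) : ContMDiffAt 𝓘(ℝ, ℂ) (𝓡 1) ∞ dir w := by
  have h1 : ContDiffAt ℝ ∞ (fun y : ℂ => Complex.arg w + (Complex.log (y / w)).im) w := by
    have h2 : ContDiffAt ℝ ∞ (fun y : ℂ => Complex.log (y / w)) w := by
      have h3 : ContDiffAt ℂ ∞ (fun y : ℂ => Complex.log (y / w)) w := by
        have h4 : ContDiffAt ℂ ∞ Complex.log (w / w) := by
          rw [div_self hw]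
          exact Complex.contDiffAt_log Complex.one_mem_slitPlane
        exact h4.comp w (f := fun y : ℂ => y / w) (contDiffAt_id.div_const _)
      exact h3.restrict_scalars ℝ
    exact contDiffAt_const.add (Complex.imCLM.contDiff.contDiffAt.comp _ h2)
  have h5 : ContMDiffAt 𝓘(ℝ, ℂ) (𝓡 1) ∞ (fun y : ℂ => Circle.exp (Complex.arg w + (Complex.log (y / w)).im)) w :=
    (contMDiff_circleExp (m := ∞)).contMDiffAt.comp w h1.contMDiffAt
  refine h5.congr_of_eventuallyEq ?_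
  have h6 : ∀ᶠ y : ℂ in 𝓝 w, y ≠ 0 := isOpen_ne.mem_nhds hw
  filter_upwards [h6] with y hy
  have hny : (‖y‖ : ℂ) ≠ 0 := Complex.ofReal_ne_zero.2 (norm_ne_zero_iff.2 hy)
  have hnw : (‖w‖ : ℂ) ≠ 0 := Complex.ofReal_ne_zero.2 (norm_ne_zero_iff.2 hw)
  apply Circle.ext
  rw [dir_coe hy, Circle.exp_add, Circle.coe_mul, Circle.coe_exp, Circle.coe_exp, Complex.log_im]
  have e1 : Complex.exp ((Complex.arg w : ℂ) * I) = w / ‖w‖ := by
    rw [eq_div_iff hnw, mul_comm]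
    exact Complex.norm_mul_exp_arg_mul_I w
  have e2 : Complex.exp ((Complex.arg (y / w) : ℂ) * I) = (y / w) / (‖y / w‖ : ℂ) := by
    have h7 : (‖y / w‖ : ℂ) ≠ 0 := Complex.ofReal_ne_zero.2 (norm_ne_zero_iff.2 (div_ne_zero hy hw))
    rw [eq_div_iff h7, mul_comm]
    exact Complex.norm_mul_exp_arg_mul_I _
  rw [e1, e2, norm_div, Complex.ofReal_div]
  field_simp

theorem inv_smooth {x : Circle} : ContMDiffAt (𝓡 1) (𝓡 1) ∞ (fun z : Circle => z⁻¹) x := by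
  exact (contMDiff_inv (𝓡 1) (∞ : WithTop ℕ∞)).contMDiffAt

theorem zp_smooth (n : ℤ) : ContMDiff (𝓡 1) 𝓘(ℝ, ℂ) ∞ (fun z : Circle => ((z ^ n : Circle) : ℂ)) := by
  intro z
  have h1 : ContDiffAt ℝ ∞ (fun w : ℂ => w ^ n) (z : ℂ) := by
    have h2 : ContDiffAt ℂ ∞ (fun w : ℂ => w ^ n) (z : ℂ) := by
      cases n with
      | ofNat n =>
        simp only [Int.ofNat_eq_natCast, zpow_natCast]
        exact contDiffAt_id.pow n
      | negSucc n =>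
        simp only [zpow_negSucc]
        exact (contDiffAt_id.pow (n + 1)).inv (pow_ne_zero _ (Circle.coe_ne_zero z))
    exact h2.restrict_scalars ℝ
  have h3 : ContMDiffAt (𝓡 1) 𝓘(ℝ, ℂ) ∞ (fun z : Circle => (z : ℂ) ^ n) z :=
    h1.contMDiffAt.comp z (KNH.CirM_coe_smooth z)
  exact h3.congr_of_eventuallyEq (Eventually.of_forall fun y => Circle.coe_zpow y n)

theorem circ_zpow (t : ℝ) (n : ℤ) : ((circ t ^ n : Circle) : ℂ) = ex (n * t) := by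
  rw [Circle.coe_zpow, coe_circ]
  unfold ex
  rw [← Complex.exp_int_mul]
  congr 1
  push_cast
  ring

theorem mulC_smooth {V : Type*} [NormedAddCommGroup V] [NormedSpace ℝ V] {H : Type*}
    [TopologicalSpace H] {J : ModelWithCorners ℝ V H} {M : Type*} [TopologicalSpace M]
    [ChartedSpace H M] {f g : M → ℂ} {x : M} (hf : ContMDiffAt J 𝓘(ℝ, ℂ) ∞ f x)
    (hg : ContMDiffAt J 𝓘(ℝ, ℂ) ∞ g x) : ContMDiffAt J 𝓘(ℝ, ℂ) ∞ (fun x => f x * g x) x := by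
  have h : ContDiff ℝ ∞ fun p : ℂ × ℂ => p.1 * p.2 := contDiff_fst.mul contDiff_snd
  exact h.contMDiff.contMDiffAt.comp x (hf.prodMk_space hg)

/-! ## the map `RR` -/

theorem RR_s (n j : ℤ) (p : SP) : s1 (RR n j p).1 = s1 p.1 * ((p.2 ^ (-n) : Circle) : ℂ) ∧
    s2 (RR n j p).1 = s2 p.1 * ((p.2 ^ (-j) : Circle) : ℂ) ∧ (RR n j p).2 = p.2 := by
  have h := s_mk (a := s1 p.1 * ((p.2 ^ (-n) : Circle) : ℂ)) (b := s2 p.1 * ((p.2 ^ (-j) : Circle) : ℂ)) (by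
    rw [norm_mul, norm_mul, Circle.norm_coe, Circle.norm_coe, mul_one, mul_one]
    exact s_sq _)
  exact ⟨h.1, h.2, rfl⟩

theorem RR_norm (n j : ℤ) (p : SP) : ‖s1 (RR n j p).1‖ = ‖s1 p.1‖ ∧ ‖s2 (RR n j p).1‖ = ‖s2 p.1‖ := by
  obtain ⟨h1, h2, -⟩ := RR_s n j p
  rw [h1, h2, norm_mul, norm_mul, Circle.norm_coe, Circle.norm_coe, mul_one, mul_one]
  exact ⟨rfl, rfl⟩

theorem RR_inv (n j : ℤ) (p : SP) : RR (-n) (-j) (RR n j p) = p := by
  obtain ⟨h1, h2, h3⟩ := RR_s n j p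
  obtain ⟨h4, h5, h6⟩ := RR_s (-n) (-j) (RR n j p)
  refine Prod.ext (s_ext ?_ ?_) ?_
  · rw [h4, h1, h3, mul_assoc, ← Circle.coe_mul, neg_neg, zpow_neg, inv_mul_cancel, Circle.coe_one, mul_one]
  · rw [h5, h2, h3, mul_assoc, ← Circle.coe_mul, neg_neg, zpow_neg, inv_mul_cancel, Circle.coe_one, mul_one]
  · rw [h6, h3]

theorem RR_inv' (n j : ℤ) (p : SP) : RR n j (RR (-n) (-j) p) = p := by
  have h := RR_inv (-n) (-j) p
  rwa [neg_neg, neg_neg] at h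

theorem RR_smooth (n j : ℤ) (p : SP) : ContMDiffAt ISP ISP ∞ (RR n j) p := by
  have h1 : ContMDiffAt ISP (𝓡 3) ∞ (fun p : SP => p.1) p := contMDiffAt_fst
  have h2 : ContMDiffAt ISP (𝓡 1) ∞ (fun p : SP => p.2) p := contMDiffAt_snd
  have h3 : ContMDiffAt ISP 𝓘(ℝ, ℂ) ∞ (fun p : SP => s1 p.1 * ((p.2 ^ (-n) : Circle) : ℂ)) p :=
    mulC_smooth (s1_smooth.contMDiffAt.comp p h1) ((zp_smooth (-n)).contMDiffAt.comp p h2)
  have h4 : ContMDiffAt ISP 𝓘(ℝ, ℂ) ∞ (fun p : SP => s2 p.1 * ((p.2 ^ (-j) : Circle) : ℂ)) p :=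
    mulC_smooth (s2_smooth.contMDiffAt.comp p h1) ((zp_smooth (-j)).contMDiffAt.comp p h2)
  refine ContMDiffAt.prodMk (RSG.pS3_smooth h3 h4 ?_) h2
  rw [norm_mul, norm_mul, Circle.norm_coe, Circle.norm_coe, mul_one, mul_one, s_sq]
  exact one_pos

theorem RR_ld (n j : ℤ) (p : SP) : IsLocalDiffeomorphAt ISP ISP ∞ (RR n j) p :=
  RSG.ld_two (g := RR (-n) (-j)) (Eventually.of_forall (RR_smooth n j))
    (Eventually.of_forall (RR_smooth (-n) (-j))) (Eventually.of_forall (RR_inv n j))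
    (Eventually.of_forall (RR_inv' n j))

/-! ## the maps `Θ` -/

theorem tw_ld {g : S3 → Circle} {U : Set S3} (hU : IsOpen U)
    (hg : ∀ x ∈ U, ContMDiffAt (𝓡 3) (𝓡 1) ∞ g x) {p : SP} (hp : p.1 ∈ U) :
    IsLocalDiffeomorphAt ISP ISP ∞ (fun p : SP => (p.1, p.2 * g p.1)) p := by
  have hopen : IsOpen {p : SP | p.1 ∈ U} := hU.preimage continuous_fst
  have h1 : ∀ p : SP, p.1 ∈ U → ContMDiffAt ISP ISP ∞ (fun p : SP => (p.1, p.2 * g p.1)) p := by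
    intro p hp
    have h2 : ContMDiffAt ISP (𝓡 3) ∞ (fun p : SP => p.1) p := contMDiffAt_fst
    have h3 : ContMDiffAt ISP (𝓡 1) ∞ (fun p : SP => p.2) p := contMDiffAt_snd
    exact h2.prodMk (h3.mul ((hg p.1 hp).comp p h2))
  have h4 : ∀ p : SP, p.1 ∈ U → ContMDiffAt ISP ISP ∞ (fun p : SP => (p.1, p.2 * (g p.1)⁻¹)) p := by
    intro p hp
    have h2 : ContMDiffAt ISP (𝓡 3) ∞ (fun p : SP => p.1) p := contMDiffAt_fst
    have h3 : ContMDiffAt ISP (𝓡 1) ∞ (fun p : SP => p.2) p := contMDiffAt_snd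
    exact h2.prodMk (h3.mul (inv_smooth.comp p ((hg p.1 hp).comp p h2)))
  refine RSG.ld_two (g := fun p : SP => (p.1, p.2 * (g p.1)⁻¹)) ?_ ?_ ?_ ?_
  · exact Filter.mem_of_superset (hopen.mem_nhds hp) fun y hy => h1 y hy
  · exact Filter.mem_of_superset (hopen.mem_nhds hp) fun y hy => h4 y hy
  · exact Eventually.of_forall fun y => Prod.ext rfl (mul_inv_cancel_right _ _)
  · exact Eventually.of_forall fun y => Prod.ext rfl (inv_mul_cancel_right _ _)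

theorem ΘU_ld {p : SP} (hp : s2 p.1 ≠ 0) : IsLocalDiffeomorphAt ISP ISP ∞ ΘU p := by
  refine tw_ld (g := fun x => dir (s2 x)) (U := {x | s2 x ≠ 0}) (isOpen_ne_fun s2_smooth.continuous continuous_const)
    (fun x hx => ?_) hp
  exact (dir_smooth hx).comp x s2_smooth.contMDiffAt

theorem ΘH_ld {p : SP} (h1 : s1 p.1 ≠ 0) (h2 : s2 p.1 ≠ 0) : IsLocalDiffeomorphAt ISP ISP ∞ ΘH p := by
  have h := tw_ld (g := fun x => dir (s1 x) * dir (s2 x)) (U := {x | s1 x ≠ 0} ∩ {x | s2 x ≠ 0})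
    ((isOpen_ne_fun s1_smooth.continuous continuous_const).inter (isOpen_ne_fun s2_smooth.continuous continuous_const))
    (fun x hx => ?_) (p := p) ⟨h1, h2⟩
  · refine CSG.ld_congr h (Eventually.of_forall fun y => ?_)
    exact Prod.ext rfl (mul_assoc _ _ _)
  · exact ((dir_smooth hx.1).comp x s1_smooth.contMDiffAt).mul ((dir_smooth hx.2).comp x s2_smooth.contMDiffAt)

/-! ## the standard tori -/

theorem kq_pos {v : ℂ} (hv : ‖v‖ < 2) : 0 < 1 - ‖v‖ ^ 2 / 4 := by nlinarith [norm_nonneg v]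

theorem kq_sq {v : ℂ} (hv : ‖v‖ < 2) (l : ℝ) :
    ‖((Real.sqrt (1 - ‖v‖ ^ 2 / 4) : ℝ) : ℂ) * ex l‖ ^ 2 + ‖v / 2‖ ^ 2 = 1 := by
  rw [norm_mul, RSG.ex_norm, mul_one, Complex.norm_real, Real.norm_of_nonneg (Real.sqrt_nonneg _),
    Real.sq_sqrt (kq_pos hv).le, norm_div, Complex.norm_ofNat]
  ring

theorem κa_s {v : ℂ} (hv : ‖v‖ < 2) (l t : ℝ) :
    s1 (κa (l, v, t)).1 = ((Real.sqrt (1 - ‖v‖ ^ 2 / 4) : ℝ) : ℂ) * ex l ∧ s2 (κa (l, v, t)).1 = v / 2 ∧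
      (κa (l, v, t)).2 = circ t := by
  have h := s_mk (kq_sq hv l)
  exact ⟨h.1, h.2, rfl⟩

theorem κb_s {v : ℂ} (hv : ‖v‖ < 2) (l t : ℝ) :
    s2 (κb (l, v, t)).1 = ((Real.sqrt (1 - ‖v‖ ^ 2 / 4) : ℝ) : ℂ) * ex l ∧ s1 (κb (l, v, t)).1 = v / 2 ∧
      (κb (l, v, t)).2 = circ t := by
  have h := s_mk (a := v / 2) (b := ((Real.sqrt (1 - ‖v‖ ^ 2 / 4) : ℝ) : ℂ) * ex l)
    (by rw [add_comm]; exact kq_sq hv l)
  exact ⟨h.2, h.1, rfl⟩

/-- exchange of the coordinates -/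
noncomputable def sw (x : S3) : S3 := pS3 (s2 x) (s1 x)

theorem sw_s (x : S3) : s1 (sw x) = s2 x ∧ s2 (sw x) = s1 x := s_mk (by rw [add_comm]; exact s_sq x)

theorem sw_sw (x : S3) : sw (sw x) = x := by
  obtain ⟨h1, h2⟩ := sw_s x
  obtain ⟨h3, h4⟩ := sw_s (sw x)
  exact s_ext (by rw [h3, h2]) (by rw [h4, h1])

theorem sw_smooth (x : S3) : ContMDiffAt (𝓡 3) (𝓡 3) ∞ sw x := by
  refine RSG.pS3_smooth s2_smooth.contMDiffAt s1_smooth.contMDiffAt ?_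
  rw [add_comm, s_sq]
  exact one_pos

theorem sw_ld (x : S3) : IsLocalDiffeomorphAt (𝓡 3) (𝓡 3) ∞ sw x :=
  RSG.ld_two (g := sw) (Eventually.of_forall sw_smooth) (Eventually.of_forall sw_smooth)
    (Eventually.of_forall sw_sw) (Eventually.of_forall sw_sw)

/-- thick knot of half the width -/
theorem thick_half {κ : ℝ × ℂ → S3} (h : RSG.Thick κ) : RSG.Thick fun q => κ (q.1, q.2 / 2) := by
  refine ⟨fun l v => h.per _ _, ?_, ?_⟩
  · intro l v hv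
    have h1 : IsLocalDiffeomorphAt 𝓘(ℝ, ℝ × ℂ) 𝓘(ℝ, ℝ × ℂ) ∞ (fun q : ℝ × ℂ => (q.1, q.2 / 2)) (l, v) := by
      refine CSG.ld_of_perm (f := (⟨fun q => (q.1, q.2 / 2), fun q => (q.1, q.2 * 2), fun q => by simp,
        fun q => by simp⟩ : (ℝ × ℂ) ≃ (ℝ × ℂ))) ?_ ?_ (l, v)
      · exact contDiff_fst.prodMk (contDiff_snd.div_const _)
      · exact contDiff_fst.prodMk (contDiff_snd.mul contDiff_const)
    have h2 := h.loc l (v / 2) (by rw [norm_div, Complex.norm_ofNat]; linarith)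
    exact IsLocalDiffeomorphAt.comp (hf := h1) (hg := h2) ..
  · intro l v l' v' hv hv' he
    obtain ⟨h1, h2⟩ := h.inj l (v / 2) l' (v' / 2) (by rw [norm_div, Complex.norm_ofNat]; linarith)
      (by rw [norm_div, Complex.norm_ofNat]; linarith) he
    exact ⟨by linear_combination 2 * h1, h2⟩

theorem thick_sw {κ : ℝ × ℂ → S3} (h : RSG.Thick κ) : RSG.Thick fun q => sw (κ q) := by
  refine ⟨fun l v => by rw [h.per], ?_, ?_⟩
  · intro l v hv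
    exact IsLocalDiffeomorphAt.comp (hf := h.loc l v hv) (hg := sw_ld _) ..
  · intro l v l' v' hv hv' he
    exact h.inj l v l' v' hv hv' (by rw [← sw_sw (κ (l, v)), he, sw_sw])

theorem κb_eq : κb = prd fun q => RSG.std 0 (q.1, q.2 / 2) := by
  funext q
  refine Prod.ext ?_ rfl
  change pS3 _ _ = pS3 _ _
  congr 1
  · simp [RSG.ex_zero]
  · have e : ‖q.2.1 / 2‖ ^ 2 = ‖q.2.1‖ ^ 2 / 4 := by
      rw [norm_div, Complex.norm_ofNat]; ring
    change _ = ((Real.sqrt (1 - ‖q.2.1 / 2‖ ^ 2) : ℝ) : ℂ) * ex q.1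
    rw [e]

theorem κb_thick : ThickT ISP κb := by
  rw [κb_eq]
  exact KNH.prd_thick (thick_half (RSG.std_thick 0))

theorem thick_congr {κ κ' : ℝ × ℂ → S3} (h : RSG.Thick κ) (hp : ∀ l v, κ' (l + 1, v) = κ' (l, v))
    (he : ∀ l v, ‖v‖ < 1 → κ' (l, v) = κ (l, v)) : RSG.Thick κ' := by
  refine ⟨hp, ?_, ?_⟩
  · intro l v hv
    refine CSG.ld_congr (h.loc l v hv) ?_
    have e1 : ∀ᶠ y : ℝ × ℂ in 𝓝 (l, v), ‖y.2‖ < 1 :=
      (continuous_snd.norm.continuousAt (x := (l, v))).eventually (gt_mem_nhds (by simpa using hv))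
    filter_upwards [e1] with y hy
    exact he y.1 y.2 hy
  · intro l v l' v' hv hv' e
    rw [he l v hv, he l' v' hv'] at e
    exact h.inj l v l' v' hv hv' e

theorem κa_thick : ThickT ISP κa := by
  have h1 : κa = prd fun q => pS3 ((Real.sqrt (1 - ‖q.2‖ ^ 2 / 4) : ℝ) * ex q.1) (q.2 / 2) := rfl
  rw [h1]
  refine KNH.prd_thick (thick_congr (thick_sw (thick_half (RSG.std_thick 0))) ?_ ?_)
  · intro l v
    have h1 : ex (l + 1) = ex l := by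
      have := RSG.ex_add_int l 1
      simpa using this
    simp only [h1]
  · intro l v hv
    have hv2 : ‖v‖ < 2 := by linarith
    obtain ⟨h1, h2, -⟩ := κa_s hv2 l 0
    obtain ⟨h3, h4, -⟩ := κb_s hv2 l 0
    have h5 : (κb (l, v, 0)).1 = RSG.std 0 (l, v / 2) := by rw [κb_eq]; rfl
    change (κa (l, v, 0)).1 = sw (RSG.std 0 (l, v / 2))
    rw [← h5]
    obtain ⟨h6, h7⟩ := sw_s (κb (l, v, 0)).1
    exact s_ext (by rw [h1, h6, h3]) (by rw [h2, h7, h4])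

theorem κa_on (p : SP) : OnT κa p ↔ s2 p.1 = 0 := by
  constructor
  · rintro ⟨l, t, rfl⟩
    rw [(κa_s (by simp) l t).2.1, zero_div]
  · intro h
    have h1 : ‖s1 p.1‖ = 1 := by
      have h2 := s_sq p.1
      rw [h, norm_zero] at h2
      nlinarith [norm_nonneg (s1 p.1)]
    obtain ⟨l, hl⟩ := RSG.ex_surj h1
    obtain ⟨t, ht⟩ := KNH.circ_surj p.2
    obtain ⟨h3, h4, h5⟩ := κa_s (v := 0) (by simp) l t
    refine ⟨l, t, Prod.ext (s_ext ?_ ?_) ?_⟩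
    · rw [h3, hl]; simp
    · rw [h4, h, zero_div]
    · rw [h5, ht]

theorem κb_on (p : SP) : OnT κb p ↔ s1 p.1 = 0 := by
  constructor
  · rintro ⟨l, t, rfl⟩
    rw [(κb_s (by simp) l t).2.1, zero_div]
  · intro h
    have h1 : ‖s2 p.1‖ = 1 := by
      have h2 := s_sq p.1
      rw [h, norm_zero] at h2
      nlinarith [norm_nonneg (s2 p.1)]
    obtain ⟨l, hl⟩ := RSG.ex_surj h1
    obtain ⟨t, ht⟩ := KNH.circ_surj p.2
    obtain ⟨h3, h4, h5⟩ := κb_s (v := 0) (by simp) l t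
    refine ⟨l, t, Prod.ext (s_ext ?_ ?_) ?_⟩
    · rw [h4, h, zero_div]
    · rw [h3, hl]; simp
    · rw [h5, ht]

/-- two thick tori -/
theorem link_ab : LinkT ISP ![κa, κb] := by
  refine ⟨?_, ?_⟩
  · intro i
    fin_cases i
    · exact κa_thick
    · exact κb_thick
  · have key : ∀ (l : ℝ) (v : ℂ) (t l' : ℝ) (v' : ℂ) (t' : ℝ), ‖v‖ < 1 → ‖v'‖ < 1 →
        κa (l, v, t) ≠ κb (l', v', t') := by
      intro l v t l' v' t' hv hv' he
      have h1 := (κa_s (by linarith : ‖v‖ < 2) l t).2.1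
      have h2 := (κb_s (by linarith : ‖v'‖ < 2) l' t').2.1
      rw [← he] at h2
      have h3 := s_sq (κa (l, v, t)).1
      rw [h1, h2, norm_div, norm_div, Complex.norm_ofNat] at h3
      nlinarith [norm_nonneg v, norm_nonneg v']
    intro i i' l v t l' v' t' hv hv' he
    fin_cases i <;> fin_cases i'
    · rfl
    · exact absurd he (key _ _ _ _ _ _ hv hv')
    · exact absurd he.symm (key _ _ _ _ _ _ hv' hv)
    · rfl

theorem link_a : LinkT ISP (fun _ : Unit => κa) := by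
  refine ⟨fun _ => κa_thick, ?_⟩
  intro i i' l v t l' v' t' hv hv' he
  rfl

end Pool.Agent.LKT
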