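import Pool.Agent.LKT.TwS
import Pool.Agent.LKT.UnA

/-!
# LKT/UnH (C4): the unknot and the Hopf pair are surgeries of `S3 × S1` along fibres   (helper33)

`twm_of_surg` for `κ = κa` (resp. `![κa, κb]`), then `D.A = D*.A ∘ Θ ∘ RR`, `D.Q = D*.Q ∘ bP e`, `bP e z = (c1 (fh/|fh|)^e, c2, ht)`.
-/

open scoped Manifold ContDiff Topology
open Set Filter
open Complex (I)
open Pool.Agent.RSG (E3 E4 S2 S3 S4 ex cj c1 c2 ht fh pS3 pS4)
open Pool.Agent.RBM (ThickT OnT)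
open Pool.Agent.RBH (Tube)
open Pool.Agent.PTH (SP ISP)
open Pool.Agent.KNH (circ)
open Pool.Agent.LKF (LinkT OnF TubF TwinF)

namespace Pool.Agent.LKT

/-! ## the map of the twin -/

/-- `z ↦ (c1 (fh/|fh|)^e, c2, ht)` -/
noncomputable def bP (e : ℤ) (z : S4) : S4 := pS4 (c1 z * (fh z / ‖fh z‖) ^ e) (c2 z) (ht z)

theorem fn_norm (e : ℤ) {z : S4} (h : fh z ≠ 0) : ‖(fh z / ‖fh z‖ : ℂ) ^ e‖ = 1 := by
  have h1 : ‖(fh z / ‖fh z‖ : ℂ)‖ = 1 := by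
    rw [norm_div, Complex.norm_real, norm_norm, div_self (norm_ne_zero_iff.2 h)]
  rw [norm_zpow, h1, one_zpow]

theorem bP_spec (e : ℤ) {z : S4} (h : fh z ≠ 0) : c1 (bP e z) = c1 z * (fh z / ‖fh z‖) ^ e ∧
    c2 (bP e z) = c2 z ∧ ht (bP e z) = ht z ∧ ‖c1 (bP e z)‖ = ‖c1 z‖ ∧ fh (bP e z) = fh z := by
  have hn := fn_norm e h
  obtain ⟨e1, e2, e3⟩ := RSG.pS4_c (a := c1 z * (fh z / ‖fh z‖) ^ e) (b := c2 z) (h := ht z) (by
    rw [norm_mul, hn, mul_one]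
    exact RSG.S4_sq z)
  have e1' : c1 (bP e z) = c1 z * (fh z / ‖fh z‖) ^ e := e1
  have e2' : c2 (bP e z) = c2 z := e2
  have e3' : ht (bP e z) = ht z := e3
  have n1 : ‖c1 (bP e z)‖ = ‖c1 z‖ := by rw [e1', norm_mul, hn, mul_one]
  refine ⟨e1', e2', e3', n1, ?_⟩
  show (⟨‖c1 (bP e z)‖ ^ 2 - ‖c2 (bP e z)‖ ^ 2, ht (bP e z) * Real.sqrt (2 - ht (bP e z) ^ 2)⟩ : ℂ) = _
  rw [n1, e2', e3']
  rfl

theorem bP_inv (e : ℤ) {z : S4} (h : fh z ≠ 0) : bP (-e) (bP e z) = z := by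
  obtain ⟨e1, e2, e3, -, e5⟩ := bP_spec e h
  obtain ⟨f1, f2, f3, -, f5⟩ := bP_spec (-e) (z := bP e z) (by rw [e5]; exact h)
  have hw : (fh z / ‖fh z‖ : ℂ) ≠ 0 := by
    refine div_ne_zero h (Complex.ofReal_ne_zero.2 (norm_ne_zero_iff.2 h))
  refine RSG.S4_ext ?_ (by rw [f2, e2]) (by rw [f3, e3])
  rw [f1, e1, e5, mul_assoc, ← zpow_add₀ hw, add_neg_cancel, zpow_zero, mul_one]

theorem bP_inv' (e : ℤ) {z : S4} (h : fh z ≠ 0) : bP e (bP (-e) z) = z := by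
  have h1 := bP_inv (-e) h
  rwa [neg_neg] at h1

theorem bP_smooth (e : ℤ) {z : S4} (h : fh z ≠ 0) : ContMDiffAt (𝓡 4) (𝓡 4) ∞ (bP e) z := by
  have hn := fn_norm e h
  have g1 : ContMDiffAt (𝓡 4) 𝓘(ℝ, ℂ) ∞ (fun z : S4 => c1 z * (fh z / ‖fh z‖) ^ e) z :=
    (RSG.BaQ_cd e (p := (c1 z, fh z)) h).contMDiffAt.comp z
      (RSG.c1_smooth.contMDiffAt.prodMk_space RSG.fh_smooth.contMDiffAt)
  refine RSG.pS4_smooth g1 RSG.c2_smooth.contMDiffAt RSG.ht_smooth.contMDiffAt ?_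
  rw [norm_mul, hn, mul_one, RSG.S4_sq z]
  exact one_pos

theorem bP_ld (e : ℤ) {z : S4} (h : fh z ≠ 0) : IsLocalDiffeomorphAt (𝓡 4) (𝓡 4) ∞ (bP e) z := by
  have ho : IsOpen {y : S4 | fh y ≠ 0} := isOpen_ne_fun RSG.fh_smooth.continuous continuous_const
  have h6 : fh (bP e z) ≠ 0 := by
    rw [(bP_spec e h).2.2.2.2]; exact h
  refine RSG.ld_two (g := bP (-e)) ?_ ?_ ?_ ?_
  · exact Filter.mem_of_superset (ho.mem_nhds h) fun y hy => bP_smooth e hy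
  · exact Filter.mem_of_superset (ho.mem_nhds h6) fun y hy => bP_smooth (-e) hy
  · exact Filter.mem_of_superset (ho.mem_nhds h) fun y hy => bP_inv e hy
  · exact Filter.mem_of_superset (ho.mem_nhds h6) fun y hy => bP_inv' e hy

theorem bP_zero (z : S4) : bP 0 z = z := by
  unfold bP
  rw [zpow_zero, mul_one]
  exact RSG.pS4_self z

/-! ## the general construction -/

/-- twins for the family `κ`, after a diffeomorphism `Θ` of the complement of the tori -/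
theorem twinF_of_twm {ι : Type*} {κ : ι → ℝ × ℂ × ℝ → SP} {n j : ι → ℤ} {X : Type*} [TopologicalSpace X]
    [ChartedSpace E4 X] (D : TwMF ISP κ X) (Θ : SP → SP) (e : ι → ℤ)
    (hon : ∀ p, ¬ OnF κ p → ¬ OnF κ (Θ p))
    (hld : ∀ p, ¬ OnF κ p → IsLocalDiffeomorphAt ISP ISP ∞ Θ p)
    (hinj : ∀ p p', ¬ OnF κ p → ¬ OnF κ p' → Θ p = Θ p' → p = p')
    (hsur : ∀ p, ¬ OnF κ p → ∃ p', ¬ OnF κ p' ∧ Θ p' = p)
    (hgl : ∀ (i : ι) (r l m t : ℝ), 0 < r → r < 1 →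
      Θ (κ i (l, (r : ℝ) * ex m, t)) = κ i (l - n i * t, (r : ℝ) * ex (m - j i * t), m + (1 - j i) * t + e i * (l - n i * t))) :
    ∃ D' : TwinF ISP κ n j X, ∀ p, D'.A p = D.A (Θ p) := by
  refine ⟨{ A := fun p => D.A (Θ p), Q := fun i z => D.Q i (bP (e i) z), A_loc := ?_, A_inj := ?_, Q_loc := ?_,
            Q_inj := ?_, glue := ?_, disj := ?_, cover := ?_ }, fun p => rfl⟩
  · intro p hp
    exact IsLocalDiffeomorphAt.comp (hf := hld p hp) (hg := D.A_loc _ (hon p hp)) ..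
  · intro p p' hp hp' h
    exact hinj p p' hp hp' (D.A_inj _ _ (hon p hp) (hon p' hp') h)
  · intro i z hz
    have h6 : fh (bP (e i) z) ≠ 0 := by
      rw [(bP_spec (e i) hz).2.2.2.2]; exact hz
    exact IsLocalDiffeomorphAt.comp (hf := bP_ld (e i) hz) (hg := D.Q_loc i _ h6) ..
  · intro i z i' z' hz hz' h
    have h6 : fh (bP (e i) z) ≠ 0 := by
      rw [(bP_spec (e i) hz).2.2.2.2]; exact hz
    have h6' : fh (bP (e i') z') ≠ 0 := by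
      rw [(bP_spec (e i') hz').2.2.2.2]; exact hz'
    obtain ⟨h1, h2⟩ := D.Q_inj i _ i' _ h6 h6' h
    subst h1
    exact ⟨rfl, by rw [← bP_inv (e i) hz, h2, bP_inv (e i) hz']⟩
  · intro i z l m t hf h1 h2 e1 e2 e3
    obtain ⟨b1, b2, b3, b4, b5⟩ := bP_spec (e i) hf
    have hfn : 0 < ‖fh z‖ := norm_pos_iff.2 hf
    have hw : (fh z / ‖fh z‖ : ℂ) = ex (l - n i * t) := by
      rw [div_eq_iff (Complex.ofReal_ne_zero.2 hfn.ne'), mul_comm]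
      exact e3
    have hwe : (fh z / ‖fh z‖ : ℂ) ^ (e i) = ex (e i * (l - n i * t)) := by
      rw [hw]
      unfold ex
      rw [← Complex.exp_int_mul]
      congr 1
      push_cast
      ring
    have key := D.glue i (bP (e i) z) (l - n i * t) (m - j i * t) (m + (1 - j i) * t + e i * (l - n i * t))
      (by rw [b5]; exact hf) (by rw [← norm_ne_zero_iff, b4, norm_ne_zero_iff]; exact h1) (by rw [b2]; exact h2)
      (by
        rw [b4, b1, hwe, RSG.ex_add, ← mul_assoc]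
        congr 1)
      (by rw [b2]; exact e2) (by rw [b5]; exact e3)
    rw [key, b4, b2]
    have hc1 : 0 < ‖c1 z‖ := norm_pos_iff.2 h1
    have hc2 : 0 < ‖c2 z‖ := norm_pos_iff.2 h2
    have hr : 2 * ‖c1 z‖ * ‖c2 z‖ < 1 := by
      have h7 := RSG.fh_sq z
      have h8 : 0 < ‖fh z‖ ^ 2 := by positivity
      have h9 : 0 < 2 * ‖c1 z‖ * ‖c2 z‖ := by positivity
      nlinarith
    show _ = D.A (Θ _)
    rw [hgl i _ l m t (by positivity) hr]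
  · intro i z p hf hz hp
    obtain ⟨b1, b2, b3, b4, b5⟩ := bP_spec (e i) hf
    refine D.disj i _ _ (by rw [b5]; exact hf) ?_ (hon p hp)
    rw [b1, b2]
    exact hz.imp (fun h => by rw [h, zero_mul]) (fun h => h)
  · intro q
    rcases D.cover q with ⟨p, h1, h2⟩ | ⟨i, z, h1, h2⟩
    · obtain ⟨p', h3, h4⟩ := hsur p h1
      exact Or.inl ⟨p', h3, by rw [h4]; exact h2⟩
    · refine Or.inr ⟨i, bP (-(e i)) z, ?_, ?_⟩
      · rw [(bP_spec (-(e i)) h1).2.2.2.2]; exact h1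
      · rw [bP_inv' (e i) h1]; exact h2

/-! ## the unknot -/

theorem onU (p : SP) : OnF (fun _ : Unit => κa) p ↔ s2 p.1 = 0 :=
  ⟨fun ⟨_, h⟩ => (κa_on p).1 h, fun h => ⟨(), (κa_on p).2 h⟩⟩

theorem RR_κa (n j : ℤ) {r : ℝ} (h0 : 0 < r) (h1 : r < 1) (l m t : ℝ) :
    RR n j (κa (l, (r : ℝ) * ex m, t)) = κa (l - n * t, (r : ℝ) * ex (m - j * t), t) := by
  have hn : ∀ x : ℝ, ‖((r : ℝ) : ℂ) * ex x‖ = r := by
    intro x
    rw [norm_mul, RSG.ex_norm, mul_one, Complex.norm_real, Real.norm_of_nonneg h0.le]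
  have hv : ∀ x : ℝ, ‖((r : ℝ) : ℂ) * ex x‖ < 2 := fun x => by rw [hn]; linarith
  obtain ⟨a1, a2, a3⟩ := κa_s (hv m) l t
  obtain ⟨b1, b2, b3⟩ := κa_s (hv (m - j * t)) (l - n * t) t
  obtain ⟨c1, c2, c3⟩ := RR_s n j (κa (l, (r : ℝ) * ex m, t))
  refine Prod.ext (s_ext ?_ ?_) ?_
  · rw [c1, a1, a3, circ_zpow, b1, hn, hn, mul_assoc, ← RSG.ex_add]
    congr 2
    push_cast
    ring
  · rw [c2, a2, a3, circ_zpow, b2, div_mul_eq_mul_div, mul_assoc, ← RSG.ex_add]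
    congr 3
    push_cast
    ring
  · rw [c3, a3, b3]

theorem RR_κb (n j : ℤ) {r : ℝ} (h0 : 0 < r) (h1 : r < 1) (l m t : ℝ) :
    RR n j (κb (l, (r : ℝ) * ex m, t)) = κb (l - j * t, (r : ℝ) * ex (m - n * t), t) := by
  have hn : ∀ x : ℝ, ‖((r : ℝ) : ℂ) * ex x‖ = r := by
    intro x
    rw [norm_mul, RSG.ex_norm, mul_one, Complex.norm_real, Real.norm_of_nonneg h0.le]
  have hv : ∀ x : ℝ, ‖((r : ℝ) : ℂ) * ex x‖ < 2 := fun x => by rw [hn]; linarith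
  obtain ⟨a1, a2, a3⟩ := κb_s (hv m) l t
  obtain ⟨b1, b2, b3⟩ := κb_s (hv (m - n * t)) (l - j * t) t
  obtain ⟨c1, c2, c3⟩ := RR_s n j (κb (l, (r : ℝ) * ex m, t))
  refine Prod.ext (s_ext ?_ ?_) ?_
  · rw [c1, a2, a3, circ_zpow, b2, div_mul_eq_mul_div, mul_assoc, ← RSG.ex_add]
    congr 3
    push_cast
    ring
  · rw [c2, a1, a3, circ_zpow, b1, hn, hn, mul_assoc, ← RSG.ex_add]
    congr 2
    push_cast
    ring
  · rw [c3, a3, b3]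

theorem ΘU_κa {r : ℝ} (h0 : 0 < r) (h1 : r < 1) (l m t : ℝ) :
    ΘU (κa (l, (r : ℝ) * ex m, t)) = κa (l, (r : ℝ) * ex m, t + m) := by
  have hn : ∀ x : ℝ, ‖((r : ℝ) : ℂ) * ex x‖ = r := by
    intro x
    rw [norm_mul, RSG.ex_norm, mul_one, Complex.norm_real, Real.norm_of_nonneg h0.le]
  obtain ⟨a1, a2, a3⟩ := κa_s (v := (r : ℝ) * ex m) (by rw [hn]; linarith) l t
  refine Prod.ext rfl ?_
  change (κa (l, (r : ℝ) * ex m, t)).2 * dir (s2 (κa (l, (r : ℝ) * ex m, t)).1) = circ (t + m)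
  rw [a2, a3, KNH.circ_add]
  congr 1
  rw [show ((r : ℝ) : ℂ) * ex m / 2 = ((r / 2 : ℝ) : ℂ) * ex m by push_cast; ring]
  exact dir_mul_ex (by positivity)

theorem ΘH_κa {r : ℝ} (h0 : 0 < r) (h1 : r < 1) (l m t : ℝ) :
    ΘH (κa (l, (r : ℝ) * ex m, t)) = κa (l, (r : ℝ) * ex m, t + l + m) := by
  have hn : ∀ x : ℝ, ‖((r : ℝ) : ℂ) * ex x‖ = r := by
    intro x
    rw [norm_mul, RSG.ex_norm, mul_one, Complex.norm_real, Real.norm_of_nonneg h0.le]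
  have hv : ‖((r : ℝ) : ℂ) * ex m‖ < 2 := by rw [hn]; linarith
  obtain ⟨a1, a2, a3⟩ := κa_s hv l t
  refine Prod.ext rfl ?_
  change (κa (l, (r : ℝ) * ex m, t)).2 * dir (s1 (κa (l, (r : ℝ) * ex m, t)).1) *
    dir (s2 (κa (l, (r : ℝ) * ex m, t)).1) = circ (t + l + m)
  rw [a1, a2, a3, KNH.circ_add, KNH.circ_add]
  congr 1
  · congr 1
    exact dir_mul_ex (Real.sqrt_pos.2 (kq_pos hv))
  · rw [show ((r : ℝ) : ℂ) * ex m / 2 = ((r / 2 : ℝ) : ℂ) * ex m by push_cast; ring]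
    exact dir_mul_ex (by positivity)

theorem ΘH_κb {r : ℝ} (h0 : 0 < r) (h1 : r < 1) (l m t : ℝ) :
    ΘH (κb (l, (r : ℝ) * ex m, t)) = κb (l, (r : ℝ) * ex m, t + m + l) := by
  have hn : ∀ x : ℝ, ‖((r : ℝ) : ℂ) * ex x‖ = r := by
    intro x
    rw [norm_mul, RSG.ex_norm, mul_one, Complex.norm_real, Real.norm_of_nonneg h0.le]
  have hv : ‖((r : ℝ) : ℂ) * ex m‖ < 2 := by rw [hn]; linarith
  obtain ⟨a1, a2, a3⟩ := κb_s hv l t
  refine Prod.ext rfl ?_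
  change (κb (l, (r : ℝ) * ex m, t)).2 * dir (s1 (κb (l, (r : ℝ) * ex m, t)).1) *
    dir (s2 (κb (l, (r : ℝ) * ex m, t)).1) = circ (t + m + l)
  rw [a1, a2, a3, KNH.circ_add, KNH.circ_add]
  congr 1
  · congr 1
    rw [show ((r : ℝ) : ℂ) * ex m / 2 = ((r / 2 : ℝ) : ℂ) * ex m by push_cast; ring]
    exact dir_mul_ex (by positivity)
  · exact dir_mul_ex (Real.sqrt_pos.2 (kq_pos hv))

theorem ne_RR2 {n j : ℤ} {p : SP} (h : s2 p.1 ≠ 0) : s2 (RR n j p).1 ≠ 0 := by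
  rw [← norm_ne_zero_iff, (RR_norm n j p).2, norm_ne_zero_iff]
  exact h

theorem ne_RR1 {n j : ℤ} {p : SP} (h : s1 p.1 ≠ 0) : s1 (RR n j p).1 ≠ 0 := by
  rw [← norm_ne_zero_iff, (RR_norm n j p).1, norm_ne_zero_iff]
  exact h

theorem RR_injective (n j : ℤ) : Function.Injective (RR n j) := fun p p' h => by
  rw [← RR_inv n j p, h, RR_inv n j p']

/-- the unknot, with the explicit thick circle -/
theorem unk' (n j : ℤ) : TubesC ISP (TwS_g fun _ : Unit => κa) (1 / 4) ∧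
    (∀ (i : Unit) (u : ℝ) (y : E3), ‖y‖ < 1 / 4 → ∃ (l : ℝ) (v : ℂ), ‖v‖ ≤ 1 / 2 ∧
      (TwS_g fun _ : Unit => κa) i (u, y) = κa (l, v, u)) ∧
    (∀ (i : Unit) (u : ℝ), (TwS_g fun _ : Unit => κa) i (u, 0) = κa (1 / 2, 0, u)) ∧
    ∀ (X : Type) [TopologicalSpace X] [ChartedSpace E4 X] (S : SurgJ ISP (TwS_g fun _ : Unit => κa) (1 / 4) X),
      ∃ D : TwinF ISP (fun _ : Unit => κa) (fun _ => n) (fun _ => j) X,
        ∀ p : SP, 3 / 8 ≤ ‖s2 p.1‖ → D.A p = S.A (ΘU (RR n j p)) := by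
  obtain ⟨h1, h2, h3, h4⟩ := twm_gam link_a
  refine ⟨h1, h2, h3, ?_⟩
  intro X _ _ S
  obtain ⟨D, hD⟩ := h4 X S
  have hΘon : ∀ p, ¬ OnF (fun _ : Unit => κa) p → ¬ OnF (fun _ : Unit => κa) (ΘU (RR n j p)) := by
    intro p hp
    rw [onU] at hp ⊢
    exact ne_RR2 hp
  obtain ⟨D', hD'⟩ : ∃ D' : TwinF ISP (fun _ : Unit => κa) (fun _ => n) (fun _ => j) X,
      ∀ p, D'.A p = D.A (ΘU (RR n j p)) := by
    refine twinF_of_twm D (fun p => ΘU (RR n j p)) (fun _ => 0) hΘon ?_ ?_ ?_ ?_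
    · intro p hp
      rw [onU] at hp
      exact IsLocalDiffeomorphAt.comp (hf := RR_ld n j p) (hg := ΘU_ld (ne_RR2 hp)) ..
    · intro p p' hp hp' h
      apply RR_injective n j
      have e1 : (RR n j p).1 = (RR n j p').1 := (congrArg (fun q : SP => q.1) h :
        (ΘU (RR n j p)).1 = (ΘU (RR n j p')).1)
      have e2 : (RR n j p).2 * dir (s2 (RR n j p).1) = (RR n j p').2 * dir (s2 (RR n j p').1) :=
        (congrArg (fun q : SP => q.2) h : (ΘU (RR n j p)).2 = (ΘU (RR n j p')).2)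
      rw [e1] at e2
      exact Prod.ext e1 (mul_right_cancel e2)
    · intro p hp
      rw [onU] at hp
      have h5 := RR_inv' n j (p.1, p.2 * (dir (s2 p.1))⁻¹)
      refine ⟨RR (-n) (-j) (p.1, p.2 * (dir (s2 p.1))⁻¹), ?_, ?_⟩
      · rw [onU]
        exact ne_RR2 hp
      · simp only [h5]
        exact Prod.ext rfl (inv_mul_cancel_right _ _)
    · intro i r l m t h0 h1
      rw [RR_κa n j h0 h1, ΘU_κa h0 h1]
      congr 3
      push_cast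
      ring
  refine ⟨D', fun p hp => ?_⟩
  rw [hD']
  apply hD
  intro i l v u hv he
  have e1 := congrArg (fun q : SP => ‖s2 q.1‖) he
  change ‖s2 (RR n j p).1‖ = ‖s2 (κa (l, v, u)).1‖ at e1
  rw [(RR_norm n j p).2, (κa_s (by linarith) l u).2.1, norm_div, Complex.norm_ofNat] at e1
  linarith

theorem unk (n j : ℤ) : ∃ γ : Unit → ℝ × E3 → SP, TubesC ISP γ (1 / 4) ∧
    (∀ (i : Unit) (u : ℝ) (y : E3), ‖y‖ < 1 / 4 → ‖s2 (γ i (u, y)).1‖ ≤ 1 / 4 ∧ s1 (γ i (u, 0)).1 = -1) ∧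
    (∃ β : E3 → S3, ∀ (i : Unit) (u : ℝ) (y : E3), ‖y‖ < 1 / 4 → γ i (u, y) = (β y, KNH.circ u)) ∧
    ∀ (X : Type) [TopologicalSpace X] [ChartedSpace E4 X] (S : SurgJ ISP γ (1 / 4) X),
      ∃ D : TwinF ISP (fun _ : Unit => κa) (fun _ => n) (fun _ => j) X,
        ∀ p : SP, 3 / 8 ≤ ‖s2 p.1‖ → D.A p = S.A (ΘU (RR n j p)) := by
  obtain ⟨h1, h2, h3, h4⟩ := unk' n j
  refine ⟨_, h1, ?_, ⟨fun y => (TwS_g (fun _ : Unit => κa) () (0, y)).1, fun i u y _ => rfl⟩, h4⟩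
  intro i u y hy
  obtain ⟨l, v, hv, e⟩ := h2 i u y hy
  refine ⟨?_, ?_⟩
  · rw [e, (κa_s (by linarith) l u).2.1, norm_div, Complex.norm_ofNat]
    linarith
  · rw [h3, (κa_s (by simp) (1 / 2) u).1, RSG.ex_half]
    simp

/-! ## the Hopf pair -/

theorem onH (p : SP) : OnF ![κa, κb] p ↔ s2 p.1 = 0 ∨ s1 p.1 = 0 := by
  constructor
  · rintro ⟨i, h⟩
    fin_cases i
    · exact Or.inl ((κa_on p).1 h)
    · exact Or.inr ((κb_on p).1 h)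
  · rintro (h | h)
    · exact ⟨0, (κa_on p).2 h⟩
    · exact ⟨1, (κb_on p).2 h⟩

/-- the Hopf pair, with the explicit thick circles -/
theorem hopf' (n₁ n₂ : ℤ) : TubesC ISP (TwS_g ![κa, κb]) (1 / 4) ∧
    (∀ (i : Fin 2) (u : ℝ) (y : E3), ‖y‖ < 1 / 4 → ∃ (l : ℝ) (v : ℂ), ‖v‖ ≤ 1 / 2 ∧
      TwS_g ![κa, κb] i (u, y) = (![κa, κb] : Fin 2 → ℝ × ℂ × ℝ → SP) i (l, v, u)) ∧
    (∀ (i : Fin 2) (u : ℝ), TwS_g ![κa, κb] i (u, 0) = (![κa, κb] : Fin 2 → ℝ × ℂ × ℝ → SP) i (1 / 2, 0, u)) ∧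
    ∀ (X : Type) [TopologicalSpace X] [ChartedSpace E4 X] (S : SurgJ ISP (TwS_g ![κa, κb]) (1 / 4) X),
      ∃ D : TwinF ISP ![κa, κb] ![n₁, n₂] ![n₂, n₁] X,
        ∀ p : SP, 3 / 8 ≤ ‖s1 p.1‖ → 3 / 8 ≤ ‖s2 p.1‖ → D.A p = S.A (ΘH (RR n₁ n₂ p)) := by
  obtain ⟨h1, h2, h3, h4⟩ := twm_gam link_ab
  refine ⟨h1, h2, h3, ?_⟩
  intro X _ _ S
  obtain ⟨D, hD⟩ := h4 X S
  have hoff : ∀ p, ¬ OnF ![κa, κb] p ↔ s1 p.1 ≠ 0 ∧ s2 p.1 ≠ 0 := by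
    intro p
    rw [onH]
    tauto
  obtain ⟨D', hD'⟩ : ∃ D' : TwinF ISP ![κa, κb] ![n₁, n₂] ![n₂, n₁] X,
      ∀ p, D'.A p = D.A (ΘH (RR n₁ n₂ p)) := by
    refine twinF_of_twm D (fun p => ΘH (RR n₁ n₂ p)) (fun _ => 1) ?_ ?_ ?_ ?_ ?_
    · intro p hp
      rw [hoff] at hp ⊢
      exact ⟨ne_RR1 hp.1, ne_RR2 hp.2⟩
    · intro p hp
      rw [hoff] at hp
      exact IsLocalDiffeomorphAt.comp (hf := RR_ld n₁ n₂ p) (hg := ΘH_ld (ne_RR1 hp.1) (ne_RR2 hp.2)) ..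
    · intro p p' hp hp' h
      apply RR_injective n₁ n₂
      have e1 : (RR n₁ n₂ p).1 = (RR n₁ n₂ p').1 := (congrArg (fun q : SP => q.1) h :
        (ΘH (RR n₁ n₂ p)).1 = (ΘH (RR n₁ n₂ p')).1)
      have e2 : (RR n₁ n₂ p).2 * dir (s1 (RR n₁ n₂ p).1) * dir (s2 (RR n₁ n₂ p).1) =
          (RR n₁ n₂ p').2 * dir (s1 (RR n₁ n₂ p').1) * dir (s2 (RR n₁ n₂ p').1) :=
        (congrArg (fun q : SP => q.2) h : (ΘH (RR n₁ n₂ p)).2 = (ΘH (RR n₁ n₂ p')).2)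
      rw [e1] at e2
      exact Prod.ext e1 (mul_right_cancel (mul_right_cancel e2))
    · intro p hp
      rw [hoff] at hp
      have h5 := RR_inv' n₁ n₂ (p.1, p.2 * (dir (s2 p.1))⁻¹ * (dir (s1 p.1))⁻¹)
      refine ⟨RR (-n₁) (-n₂) (p.1, p.2 * (dir (s2 p.1))⁻¹ * (dir (s1 p.1))⁻¹), ?_, ?_⟩
      · rw [hoff]
        exact ⟨ne_RR1 hp.1, ne_RR2 hp.2⟩
      · simp only [h5]
        refine Prod.ext rfl ?_
        change p.2 * (dir (s2 p.1))⁻¹ * (dir (s1 p.1))⁻¹ * dir (s1 p.1) * dir (s2 p.1) = p.2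
        rw [inv_mul_cancel_right, inv_mul_cancel_right]
    · intro i r l m t h0 h1
      fin_cases i
      · change ΘH (RR n₁ n₂ (κa (l, (r : ℝ) * ex m, t))) = κa (l - n₁ * t, (r : ℝ) * ex (m - n₂ * t), m + (1 - n₂) * t + (1 : ℤ) * (l - n₁ * t))
        rw [RR_κa n₁ n₂ h0 h1, ΘH_κa h0 h1]
        congr 3
        push_cast
        ring
      · change ΘH (RR n₁ n₂ (κb (l, (r : ℝ) * ex m, t))) = κb (l - n₂ * t, (r : ℝ) * ex (m - n₁ * t), m + (1 - n₁) * t + (1 : ℤ) * (l - n₂ * t))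
        rw [RR_κb n₁ n₂ h0 h1, ΘH_κb h0 h1]
        congr 3
        push_cast
        ring
  refine ⟨D', fun p hp1 hp2 => ?_⟩
  rw [hD']
  apply hD
  intro i l v u hv he
  fin_cases i
  · have e1 := congrArg (fun q : SP => ‖s2 q.1‖) he
    change ‖s2 (RR n₁ n₂ p).1‖ = ‖s2 (κa (l, v, u)).1‖ at e1
    rw [(RR_norm n₁ n₂ p).2, (κa_s (by linarith) l u).2.1, norm_div, Complex.norm_ofNat] at e1
    linarith
  · have e1 := congrArg (fun q : SP => ‖s1 q.1‖) he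
    change ‖s1 (RR n₁ n₂ p).1‖ = ‖s1 (κb (l, v, u)).1‖ at e1
    rw [(RR_norm n₁ n₂ p).1, (κb_s (by linarith) l u).2.1, norm_div, Complex.norm_ofNat] at e1
    linarith

theorem hopf (n₁ n₂ : ℤ) : ∃ γ : Fin 2 → ℝ × E3 → SP, TubesC ISP γ (1 / 4) ∧
    (∀ (u : ℝ) (y : E3), ‖y‖ < 1 / 4 → ‖s2 (γ 0 (u, y)).1‖ ≤ 1 / 4 ∧ s1 (γ 0 (u, 0)).1 = -1 ∧
      ‖s1 (γ 1 (u, y)).1‖ ≤ 1 / 4 ∧ s2 (γ 1 (u, 0)).1 = -1) ∧
    (∃ β : Fin 2 → E3 → S3, ∀ (i : Fin 2) (u : ℝ) (y : E3), ‖y‖ < 1 / 4 → γ i (u, y) = (β i y, KNH.circ u)) ∧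
    ∀ (X : Type) [TopologicalSpace X] [ChartedSpace E4 X] (S : SurgJ ISP γ (1 / 4) X),
      ∃ D : TwinF ISP ![κa, κb] ![n₁, n₂] ![n₂, n₁] X,
        ∀ p : SP, 3 / 8 ≤ ‖s1 p.1‖ → 3 / 8 ≤ ‖s2 p.1‖ → D.A p = S.A (ΘH (RR n₁ n₂ p)) := by
  obtain ⟨h1, h2, h3, h4⟩ := hopf' n₁ n₂
  refine ⟨_, h1, ?_, ⟨fun i y => (TwS_g ![κa, κb] i (0, y)).1, fun i u y _ => ?_⟩, h4⟩
  · intro u y hy
    obtain ⟨l, v, hv, e⟩ := h2 0 u y hy
    obtain ⟨l', v', hv', e'⟩ := h2 1 u y hy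
    have f0 := h3 0 u
    have f1 := h3 1 u
    simp only [Matrix.cons_val_zero, Matrix.cons_val_one] at e e' f0 f1
    refine ⟨?_, ?_, ?_, ?_⟩
    · rw [e, (κa_s (by linarith) l u).2.1, norm_div, Complex.norm_ofNat]
      linarith
    · rw [f0, (κa_s (by simp) (1 / 2) u).1, RSG.ex_half]
      simp
    · rw [e', (κb_s (by linarith) l' u).2.1, norm_div, Complex.norm_ofNat]
      linarith
    · rw [f1, (κb_s (by simp) (1 / 2) u).1, RSG.ex_half]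
      simp
  · fin_cases i
    · rfl
    · rfl

end Pool.Agent.LKT
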