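import Pool.Agent.LKF.Defs
import Pool.Agent.PTH.Defs
import Pool.Agent.KNH.Defs

/-!
# LKT/Defs: stage C of LINKS, definitions (helper44)

* `ThickC J γ ε`: thick circle `γ (u, y)`, `u` of period `1`, `y` in the open ball of radius `ε` of `ℝ³`, in a manifold with model `J`
  (for `J = 𝓡 4` this is `ACB.Thick`).
* `SurgJ J γ ε X`: `X` is the surgery of `P` (model `J`) along the thick circles `γ i` (for `J = 𝓡 4` this is `ACB.Surg`).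
* `TwM J κ X`: `X` is the union of `P - torus` and of a twin, the meridians of the two spheres being `u` (sphere `c1 = 0`) and the
  meridian `m` of the torus (sphere `c2 = 0`): `Q z = A (κ (arg fh, 2|c1||c2| ex (arg c2), arg c1))`.
* `GG`, `GI`: the two inverse diffeomorphisms of the open unit disc, `|GG w| = |w|`, which compare `fh z` with
  `zz z = 2|c1|² - 1 + 2 i |c1| ht`: `zz z = GG (fh z)`.
-/

open scoped Manifold ContDiff Topology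
open Set Filter
open Complex (I)
open Pool.Agent.RSG (E3 E4 S2 S3 S4 ex cj c1 c2 ht fh pS3 pS4)
open Pool.Agent.RBM (ThickT OnT)
open Pool.Agent.RBH (Tube)
open Pool.Agent.PTH (SP ISP)
open Pool.Agent.KNH (circ)
open Pool.Agent.LKF (LinkT OnF TubF TwinF)

namespace Pool.Agent.LKT

section defs
variable {E : Type*} [NormedAddCommGroup E] [NormedSpace ℝ E] {H : Type*} [TopologicalSpace H]
  (J : ModelWithCorners ℝ E H)
  {P : Type*} [TopologicalSpace P] [ChartedSpace H P]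

/-- A thick circle of radius `ε` -/
structure ThickC (γ : ℝ × E3 → P) (ε : ℝ) : Prop where
  pos : 0 < ε
  per : ∀ (l : ℝ) (v : E3), ‖v‖ < ε → γ (l + 1, v) = γ (l, v)
  loc : ∀ (l : ℝ) (v : E3), ‖v‖ < ε → IsLocalDiffeomorphAt 𝓘(ℝ, ℝ × E3) J ∞ γ (l, v)
  inj : ∀ (l : ℝ) (v : E3) (l' : ℝ) (v' : E3), ‖v‖ < ε → ‖v'‖ < ε → γ (l, v) = γ (l', v') →
    v = v' ∧ ∃ m : ℤ, l' = l + m

/-- thick circles with disjoint tubes -/
structure TubesC {ι : Type*} (γ : ι → ℝ × E3 → P) (ε : ℝ) : Prop where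
  thick : ∀ i, ThickC J (γ i) ε
  disj : ∀ i i', i ≠ i' → ∀ (l : ℝ) (v : E3) (l' : ℝ) (v' : E3), ‖v‖ < ε → ‖v'‖ < ε → γ i (l, v) ≠ γ i' (l', v')

/-- `p` is not on the core circles -/
def OffC {ι : Type*} (γ : ι → ℝ × E3 → P) (p : P) : Prop := ∀ (i : ι) (l : ℝ), p ≠ γ i (l, 0)

/-- surgery along thick circles -/
structure SurgJ {ι : Type*} (γ : ι → ℝ × E3 → P) (ε : ℝ) (X : Type*) [TopologicalSpace X]
    [ChartedSpace E4 X] where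
  A : P → X
  Q : ι → ℂ × S2 → X
  A_loc : ∀ p, OffC γ p → IsLocalDiffeomorphAt J (𝓡 4) ∞ A p
  A_inj : ∀ p p', OffC γ p → OffC γ p' → A p = A p' → p = p'
  Q_loc : ∀ (i : ι) (z : ℂ) (v : S2), ‖z‖ < ε →
    IsLocalDiffeomorphAt (𝓘(ℝ, ℂ).prod (𝓡 2)) (𝓡 4) ∞ (Q i) (z, v)
  glue : ∀ (i : ι) (l r : ℝ) (v : S2), 0 < r → r < ε → Q i (r * ex l, v) = A (γ i (l, r • v.1))
  Q_inj : ∀ (i i' : ι) (v v' : S2), Q i (0, v) = Q i' (0, v') → i = i' ∧ v = v'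
  disj : ∀ (i : ι) (v : S2) (p : P), OffC γ p → Q i (0, v) ≠ A p
  cover : ∀ q : X, (∃ p, OffC γ p ∧ q = A p) ∨ ∃ (i : ι) (v : S2), q = Q i (0, v)

/-- `X` is the union of `P - torus` and of a twin, with the sphere meridians `u` and `m`. -/
structure TwM (κ : ℝ × ℂ × ℝ → P) (X : Type*) [TopologicalSpace X] [ChartedSpace E4 X] where
  A : P → X
  Q : S4 → X
  A_loc : ∀ p, ¬ OnT κ p → IsLocalDiffeomorphAt J (𝓡 4) ∞ A p
  A_inj : ∀ p p', ¬ OnT κ p → ¬ OnT κ p' → A p = A p' → p = p'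
  Q_loc : ∀ z, fh z ≠ 0 → IsLocalDiffeomorphAt (𝓡 4) (𝓡 4) ∞ Q z
  Q_inj : ∀ z z', fh z ≠ 0 → fh z' ≠ 0 → Q z = Q z' → z = z'
  glue : ∀ (z : S4) (l m u : ℝ), fh z ≠ 0 → c1 z ≠ 0 → c2 z ≠ 0 →
    c1 z = ‖c1 z‖ * ex u → c2 z = ‖c2 z‖ * ex m → fh z = ‖fh z‖ * ex l →
    Q z = A (κ (l, (2 * ‖c1 z‖ * ‖c2 z‖ : ℝ) * ex m, u))
  disj : ∀ z p, fh z ≠ 0 → c1 z = 0 ∨ c2 z = 0 → ¬ OnT κ p → Q z ≠ A p
  cover : ∀ q, (∃ p, ¬ OnT κ p ∧ q = A p) ∨ ∃ z, fh z ≠ 0 ∧ q = Q z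

end defs

section fam
variable {E : Type*} [NormedAddCommGroup E] [NormedSpace ℝ E] {H : Type*} [TopologicalSpace H]
  (J : ModelWithCorners ℝ E H)
  {P : Type*} [TopologicalSpace P] [ChartedSpace H P] {ι : Type*}

/-- `X` is the union of `P - tori` and of twins, with the sphere meridians `u` and `m`, for a family of thick tori -/
structure TwMF (κ : ι → ℝ × ℂ × ℝ → P) (X : Type*) [TopologicalSpace X] [ChartedSpace E4 X] where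
  A : P → X
  Q : ι → S4 → X
  A_loc : ∀ p, ¬ OnF κ p → IsLocalDiffeomorphAt J (𝓡 4) ∞ A p
  A_inj : ∀ p p', ¬ OnF κ p → ¬ OnF κ p' → A p = A p' → p = p'
  Q_loc : ∀ i z, fh z ≠ 0 → IsLocalDiffeomorphAt (𝓡 4) (𝓡 4) ∞ (Q i) z
  Q_inj : ∀ i z i' z', fh z ≠ 0 → fh z' ≠ 0 → Q i z = Q i' z' → i = i' ∧ z = z'
  glue : ∀ (i : ι) (z : S4) (l m u : ℝ), fh z ≠ 0 → c1 z ≠ 0 → c2 z ≠ 0 →
    c1 z = ‖c1 z‖ * ex u → c2 z = ‖c2 z‖ * ex m → fh z = ‖fh z‖ * ex l →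
    Q i z = A (κ i (l, (2 * ‖c1 z‖ * ‖c2 z‖ : ℝ) * ex m, u))
  disj : ∀ i z p, fh z ≠ 0 → c1 z = 0 ∨ c2 z = 0 → ¬ OnF κ p → Q i z ≠ A p
  cover : ∀ q, (∃ p, ¬ OnF κ p ∧ q = A p) ∨ ∃ i z, fh z ≠ 0 ∧ q = Q i z

end fam

/-! ## the planar diffeomorphism -/

/-- `GG w = (S + E - 1) + i F √(2 (S + E) / (1 + S))`, `w = E + i F`, `S = √(1 - F²)` -/
noncomputable def GG (w : ℂ) : ℂ :=
  ⟨Real.sqrt (1 - w.im ^ 2) + w.re - 1,
    w.im * Real.sqrt (2 * (Real.sqrt (1 - w.im ^ 2) + w.re) / (1 + Real.sqrt (1 - w.im ^ 2)))⟩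

/-- the inverse: `E = x + y² / (2 (1 + x))`, `F = h √(2 - h²)`, `h = y / √(2 (1 + x))` -/
noncomputable def GI (z : ℂ) : ℂ :=
  ⟨z.re + z.im ^ 2 / (2 * (1 + z.re)),
    z.im / Real.sqrt (2 * (1 + z.re)) * Real.sqrt (2 - z.im ^ 2 / (2 * (1 + z.re)))⟩

/-- `zz z = 2|c1|² - 1 + 2 i |c1| ht` -/
noncomputable def zz (z : S4) : ℂ := ⟨2 * ‖c1 z‖ ^ 2 - 1, 2 * ‖c1 z‖ * ht z⟩

/-- radial function: `μr r = r` for `r ≥ 3/4`, constant `= 5/8 ...` for `r ≤ 1/2` -/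
noncomputable def μr (r : ℝ) : ℝ := 5 / 8 + (r - 5 / 8) * CSG.stp (1 / 4) (9 / 16) (r ^ 2)

/-- the unit vector `GG (R e) / R` -/
noncomputable def gU (R : ℝ) (e : ℂ) : ℂ := GG (R * e) / R
/-- the unit vector `GI (R e) / R` -/
noncomputable def gV (R : ℝ) (e : ℂ) : ℂ := GI (R * e) / R

/-! ## standard thick circle of `S3 × S1` -/

/-- the point of `S3` at the position `y` near `(-1, 0)`: `(2|y|² - 1 + 2 i √(1-|y|²) y₂, 2 √(1-|y|²) (y₀ + i y₁))` -/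
noncomputable def bal (y : E3) : S3 :=
  pS3 ⟨2 * ‖y‖ ^ 2 - 1, 2 * Real.sqrt (1 - ‖y‖ ^ 2) * y 2⟩
    ((2 * Real.sqrt (1 - ‖y‖ ^ 2) : ℝ) * (⟨y 0, y 1⟩ : ℂ))

/-! ## standard tori of `S3 × S1`, the maps `R`, `Θ` -/

/-- complex coordinates of `S3` -/
noncomputable def s1 (x : S3) : ℂ := ⟨x.1 0, x.1 1⟩
noncomputable def s2 (x : S3) : ℂ := ⟨x.1 2, x.1 3⟩

/-- thick torus around `(s2 = 0) × S1` (longitude `arg s1`, meridian `arg s2`) -/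
noncomputable def κa (q : ℝ × ℂ × ℝ) : SP :=
  (pS3 ((Real.sqrt (1 - ‖q.2.1‖ ^ 2 / 4) : ℝ) * ex q.1) (q.2.1 / 2), circ q.2.2)

/-- thick torus around `(s1 = 0) × S1` (longitude `arg s2`, meridian `arg s1`) -/
noncomputable def κb (q : ℝ × ℂ × ℝ) : SP :=
  (pS3 (q.2.1 / 2) ((Real.sqrt (1 - ‖q.2.1‖ ^ 2 / 4) : ℝ) * ex q.1), circ q.2.2)

/-- `(z1, z2, t) ↦ (z1 ex (-n t), z2 ex (-j t), t)`; `ex t` is the point of the circle -/
noncomputable def RR (n j : ℤ) (p : SP) : SP :=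
  (pS3 (s1 p.1 * ((p.2 ^ (-n) : Circle) : ℂ)) (s2 p.1 * ((p.2 ^ (-j) : Circle) : ℂ)), p.2)

/-- the point of the circle in the direction `w` -/
noncomputable def dir (w : ℂ) : Circle := Circle.exp (Complex.arg w)

/-- `(z1, z2, t) ↦ (z1, z2, t + arg z2)` -/
noncomputable def ΘU (p : SP) : SP := (p.1, p.2 * dir (s2 p.1))

/-- `(z1, z2, t) ↦ (z1, z2, t + arg z1 + arg z2)` -/
noncomputable def ΘH (p : SP) : SP := (p.1, p.2 * dir (s1 p.1) * dir (s2 p.1))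

end Pool.Agent.LKT
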