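import Pool.Agent.LKT.Defs
import Pool.Agent.LKF.TopF
import Pool.Agent.RSG.LDc

/-!
# LKT/TwA: definitions for block C5 (a twin with one sphere meridian `m` is a circle surgery), helper39

* `an e = arg e / 2π`, `Kc κ e v u = κ (an e, v, u)`: the thick torus with the first coordinate given by a direction `e`.
* `lf l₀ e = l₀ + an (e ex (-l₀))`: the branch of `an` near `ex l₀`.
* `R1`, `Rm`, `Hc`, `Hi`: the circle diffeomorphisms.  `hh κ`: the diffeomorphism of `P - tori`.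
* `eQ z`, `vQ z`: the coordinates of the point `z` of the twin.  `ZQ (l, v, u)`: the point of the twin (inverse map).
* `zyp y`, `vyp y`: the coordinates `zy`, `v` of the point `y` of the thick circle.  `gam κ`: the thick circle.
-/

open scoped Manifold ContDiff Topology
open Set Filter
open Complex (I)
open Pool.Agent.RSG (E3 E4 S2 S3 S4 ex cj c1 c2 ht fh pS2 pS3 pS4 hz ho)
open Pool.Agent.RBM (ThickT OnT)
open Pool.Agent.LKF (LinkT OnF)

namespace Pool.Agent.LKT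

/-- the argument, in turns -/
noncomputable def an (e : ℂ) : ℝ := Complex.arg e / (2 * Real.pi)

/-- the branch of `an` near `ex l₀` -/
noncomputable def lf (l₀ : ℝ) (e : ℂ) : ℝ := l₀ + an (e * ex (-l₀))

/-- the thick torus with the first coordinate given by a direction -/
noncomputable def Kc {P : Type*} (κ : ℝ × ℂ × ℝ → P) (e v : ℂ) (u : ℝ) : P := κ (an e, v, u)

noncomputable def R1 (r : ℝ) : ℝ := Real.sqrt (1 - r ^ 2)
noncomputable def Rm (r : ℝ) : ℝ := Real.sqrt (1 - μr r ^ 2)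

/-- the circle diffeomorphism of the map `A` at the radius `r`, and its inverse -/
noncomputable def Hc (r : ℝ) (e : ℂ) : ℂ := gV (Rm r) (gU (R1 r) e)
noncomputable def Hi (r : ℝ) (e : ℂ) : ℂ := gV (R1 r) (gU (Rm r) e)

open Classical in
/-- the diffeomorphism of `P - tori`: `κ i (l, v, u) ↦ κ i (l', v, u)`, `ex l' = Hc ‖v‖ (ex l)` -/
noncomputable def hh {P ι : Type*} (κ : ι → ℝ × ℂ × ℝ → P) (p : P) : P :=
  if h : ∃ w : ι × (ℝ × ℂ × ℝ), ‖w.2.2.1‖ < 1 ∧ p = κ w.1 w.2 then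
    Kc (κ h.choose.1) (Hc ‖h.choose.2.2.1‖ (ex h.choose.2.1)) h.choose.2.2.1 h.choose.2.2.2
  else p

/-- coordinates of a point of the twin -/
noncomputable def vQ (z : S4) : ℂ := (2 * ‖c1 z‖ : ℝ) * c2 z
noncomputable def eQ (z : S4) : ℂ := gV (Rm ‖vQ z‖) (zz z / ‖zz z‖)

/-- the point of the twin with given coordinates -/
noncomputable def zQ (q : ℝ × ℂ × ℝ) : ℂ := (R1 ‖q.2.1‖ : ℝ) * gU (Rm ‖q.2.1‖) (ex q.1)
noncomputable def ZQ (q : ℝ × ℂ × ℝ) : S4 :=
  pS4 ((Real.sqrt ((1 + (zQ q).re) / 2) : ℝ) * ex q.2.2) ((1 / Real.sqrt (2 * (1 + (zQ q).re)) : ℝ) * q.2.1)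
    ((zQ q).im / Real.sqrt (2 * (1 + (zQ q).re)))

/-- coordinates of the points of the thick circle -/
noncomputable def zyp (y : E3) : ℂ := ⟨2 * ‖y‖ ^ 2 - 1, 2 * Real.sqrt (1 - ‖y‖ ^ 2) * y 2⟩
noncomputable def vyp (y : E3) : ℂ := (2 * Real.sqrt (1 - ‖y‖ ^ 2) : ℝ) * ⟨y 0, y 1⟩

/-- the thick circle -/
noncomputable def gam {P : Type*} (κ : ℝ × ℂ × ℝ → P) (q : ℝ × E3) : P :=
  Kc κ (gV (Rm 0) (zyp q.2 / ‖zyp q.2‖)) (vyp q.2) q.1

end Pool.Agent.LKT
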