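import Pool.Agent.LKT.TwA

/-!
# LKT/TwD: the coordinates `(c1 z, (c2 z, ht z)/|..|)` near the sphere `c1 = 0`   (difficulty 2)

* `dQ_inj`: `s = √(1 - ‖c1‖²) > 0` is the norm of `(c2, ht)`; `c1` and the direction determine `z` (`RSG.S4_ext`; `hz (pS2 a h)`, `ho (pS2 a h)` for `(a, h) ≠ 0`: `RSG.toSph_coe`, the norm is `√(‖a‖² + h²)`).
* `dQ_ld`: `RSG.ld_two` with `f z = (c1 z, pS2 (c2 z) (ht z))`, `g (c, w) = pS4 c (√(1-‖c‖²) hz w) (√(1-‖c‖²) ho w)`: smooth (`RSG.pS4_smooth`, `RSG.pS2_smooth`, `RSG.c1_smooth`, .., `RSG.hz_smooth`, `RSG.ho_smooth`,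
  `1 - ‖c‖²` smooth and positive, `contDiff_norm_sq ℝ`), `RSG.pS4_c`, `RSG.S2_sq`, `RSG.pS2_self`.
-/

open scoped Manifold ContDiff Topology
open Set Filter
open Complex (I)
open Pool.Agent.RSG (E3 E4 S2 S3 S4 ex cj c1 c2 ht fh pS2 pS3 pS4 hz ho)

namespace Pool.Agent.LKT

/-- the inverse map -/
noncomputable def TwD_g (q : ℂ × S2) : S4 :=
  pS4 q.1 ((Real.sqrt (1 - ‖q.1‖ ^ 2) : ℝ) * hz q.2) (Real.sqrt (1 - ‖q.1‖ ^ 2) * ho q.2)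

theorem TwD_pS2 {a : ℂ} {h ρ : ℝ} (hρ : 0 < ρ) (H : ‖a‖ ^ 2 + h ^ 2 = ρ ^ 2) :
    hz (pS2 a h) = a / ρ ∧ ho (pS2 a h) = h / ρ := by
  have hn : ‖(WithLp.toLp 2 ![a.re, a.im, h] : E3)‖ = ρ := by
    rw [EuclideanSpace.norm_eq, Fin.sum_univ_three]
    have : (‖(WithLp.toLp 2 ![a.re, a.im, h] : E3) 0‖ ^ 2 +
        ‖(WithLp.toLp 2 ![a.re, a.im, h] : E3) 1‖ ^ 2
        + ‖(WithLp.toLp 2 ![a.re, a.im, h] : E3) 2‖ ^ 2) = ρ ^ 2 := by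
      rw [← H, Complex.sq_norm, Complex.normSq_apply]
      simp
      ring
    rw [this, Real.sqrt_sq hρ.le]
  have hv : (WithLp.toLp 2 ![a.re, a.im, h] : E3) ≠ 0 := by
    intro h0
    rw [h0, norm_zero] at hn
    exact hρ.ne hn
  have hc : ((pS2 a h : S2) : E3) = ρ⁻¹ • (WithLp.toLp 2 ![a.re, a.im, h] : E3) := by
    unfold pS2
    rw [RSG.toSph_coe _ hv, hn]
  constructor
  · unfold hz
    rw [hc]
    apply Complex.ext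
    · rw [Complex.div_ofReal_re]
      simp
      ring
    · rw [Complex.div_ofReal_im]
      simp
      ring
  · unfold ho
    rw [hc]
    simp
    ring

theorem TwD_pos {c : ℂ} (h : ‖c‖ < 1) : 0 < 1 - ‖c‖ ^ 2 := by
  nlinarith [norm_nonneg c]

theorem TwD_c {q : ℂ × S2} (h : ‖q.1‖ < 1) :
    c1 (TwD_g q) = q.1 ∧ c2 (TwD_g q) = (Real.sqrt (1 - ‖q.1‖ ^ 2) : ℝ) * hz q.2 ∧
      ht (TwD_g q) = Real.sqrt (1 - ‖q.1‖ ^ 2) * ho q.2 := by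
  have h0 := (TwD_pos h).le
  have h1 := Real.sq_sqrt h0
  have h2 := RSG.S2_sq q.2
  refine RSG.pS4_c ?_
  rw [norm_mul, Complex.norm_real, Real.norm_eq_abs, abs_of_nonneg (Real.sqrt_nonneg _), mul_pow,
    mul_pow, h1]
  linear_combination (1 - ‖q.1‖ ^ 2) * h2

theorem TwD_s {z : S4} (h : ‖c1 z‖ < 1) :
    ‖c2 z‖ ^ 2 + ht z ^ 2 = Real.sqrt (1 - ‖c1 z‖ ^ 2) ^ 2 := by
  have h2 := RSG.S4_sq z
  rw [Real.sq_sqrt (TwD_pos h).le]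
  linarith

theorem TwD_gf {z : S4} (h : ‖c1 z‖ < 1) : TwD_g (c1 z, pS2 (c2 z) (ht z)) = z := by
  have hs : 0 < Real.sqrt (1 - ‖c1 z‖ ^ 2) := Real.sqrt_pos.2 (TwD_pos h)
  obtain ⟨e1, e2⟩ := TwD_pS2 hs (TwD_s h)
  obtain ⟨a1, a2, a3⟩ := TwD_c (q := (c1 z, pS2 (c2 z) (ht z))) h
  refine RSG.S4_ext a1 ?_ ?_
  · rw [a2, e1]
    have : ((Real.sqrt (1 - ‖c1 z‖ ^ 2) : ℝ) : ℂ) ≠ 0 := by exact_mod_cast hs.ne'
    field_simp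
  · rw [a3, e2]
    field_simp

theorem TwD_fg {q : ℂ × S2} (h : ‖q.1‖ < 1) :
    ((c1 (TwD_g q), pS2 (c2 (TwD_g q)) (ht (TwD_g q))) : ℂ × S2) = q := by
  have hs : 0 < Real.sqrt (1 - ‖q.1‖ ^ 2) := Real.sqrt_pos.2 (TwD_pos h)
  obtain ⟨a1, a2, a3⟩ := TwD_c h
  have hS : ‖c2 (TwD_g q)‖ ^ 2 + ht (TwD_g q) ^ 2 = Real.sqrt (1 - ‖q.1‖ ^ 2) ^ 2 := by
    have := TwD_s (z := TwD_g q) (by rw [a1]; exact h)
    rw [a1] at this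
    exact this
  obtain ⟨e1, e2⟩ := TwD_pS2 hs hS
  refine Prod.ext a1 (RSG.S2_ext ?_ ?_)
  · change hz (pS2 (c2 (TwD_g q)) (ht (TwD_g q))) = hz q.2
    rw [e1, a2]
    have : ((Real.sqrt (1 - ‖q.1‖ ^ 2) : ℝ) : ℂ) ≠ 0 := by exact_mod_cast hs.ne'
    field_simp
  · change ho (pS2 (c2 (TwD_g q)) (ht (TwD_g q))) = ho q.2
    rw [e2, a3]
    field_simp

theorem dQ_ld {z : S4} (h : ‖c1 z‖ < 1) :
    IsLocalDiffeomorphAt (𝓡 4) (𝓘(ℝ, ℂ).prod (𝓡 2)) ∞ (fun z : S4 => (c1 z, pS2 (c2 z) (ht z))) z := by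
  have hU : ∀ᶠ y in 𝓝 z, ‖c1 y‖ < 1 :=
    (RSG.c1_smooth.continuous.norm.continuousAt.tendsto).eventually (Iio_mem_nhds h)
  have hV : ∀ᶠ q : ℂ × S2 in 𝓝 (c1 z, pS2 (c2 z) (ht z)), ‖q.1‖ < 1 :=
    ((continuous_fst.norm.continuousAt (x := ((c1 z, pS2 (c2 z) (ht z)) : ℂ × S2))).tendsto).eventually
      (Iio_mem_nhds h)
  refine RSG.ld_two (g := TwD_g) ?_ ?_ ?_ ?_
  · filter_upwards [hU] with y hy
    refine (RSG.c1_smooth y).prodMk (RSG.pS2_smooth (RSG.c2_smooth y) (RSG.ht_smooth y) ?_)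
    rw [TwD_s hy, Real.sq_sqrt (TwD_pos hy).le]
    exact TwD_pos hy
  · filter_upwards [hV] with q hq
    have hfst : ContMDiffAt (𝓘(ℝ, ℂ).prod (𝓡 2)) 𝓘(ℝ, ℂ) ∞ (fun q : ℂ × S2 => q.1) q :=
      contMDiffAt_fst
    have hsnd : ContMDiffAt (𝓘(ℝ, ℂ).prod (𝓡 2)) (𝓡 2) ∞ (fun q : ℂ × S2 => q.2) q :=
      contMDiffAt_snd
    have hsq : ContMDiffAt (𝓘(ℝ, ℂ).prod (𝓡 2)) 𝓘(ℝ, ℝ) ∞
        (fun q : ℂ × S2 => Real.sqrt (1 - ‖q.1‖ ^ 2)) q := by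
      have h3 : ContDiffAt ℝ ∞ (fun c : ℂ => Real.sqrt (1 - ‖c‖ ^ 2)) q.1 :=
        (contDiffAt_const.sub (contDiff_norm_sq ℝ).contDiffAt).sqrt (TwD_pos hq).ne'
      exact h3.contMDiffAt.comp q hfst
    have hsc : ContMDiffAt (𝓘(ℝ, ℂ).prod (𝓡 2)) 𝓘(ℝ, ℂ) ∞
        (fun q : ℂ × S2 => ((Real.sqrt (1 - ‖q.1‖ ^ 2) : ℝ) : ℂ)) q :=
      (Complex.ofRealCLM.contMDiff _).comp q hsq
    have hhz : ContMDiffAt (𝓘(ℝ, ℂ).prod (𝓡 2)) 𝓘(ℝ, ℂ) ∞ (fun q : ℂ × S2 => hz q.2) q :=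
      (RSG.hz_smooth _).comp q hsnd
    have hho : ContMDiffAt (𝓘(ℝ, ℂ).prod (𝓡 2)) 𝓘(ℝ, ℝ) ∞ (fun q : ℂ × S2 => ho q.2) q :=
      (RSG.ho_smooth _).comp q hsnd
    have hmul : ContDiff ℝ ∞ fun p : ℂ × ℂ => p.1 * p.2 := contDiff_mul
    have hmm : ContMDiffAt (𝓘(ℝ, ℂ).prod (𝓡 2)) 𝓘(ℝ, ℂ) ∞
        (fun q : ℂ × S2 => ((Real.sqrt (1 - ‖q.1‖ ^ 2) : ℝ) : ℂ) * hz q.2) q :=
      (hmul.contMDiff _).comp q (hsc.prodMk_space hhz)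
    refine RSG.pS4_smooth hfst hmm (hsq.mul hho) ?_
    have h1 := Real.sq_sqrt (TwD_pos hq).le
    have h2 := RSG.S2_sq q.2
    rw [norm_mul, Complex.norm_real, Real.norm_eq_abs, abs_of_nonneg (Real.sqrt_nonneg _),
      mul_pow, mul_pow, h1]
    have : ‖q.1‖ ^ 2 + (1 - ‖q.1‖ ^ 2) * ‖hz q.2‖ ^ 2 + (1 - ‖q.1‖ ^ 2) * ho q.2 ^ 2 = 1 := by
      linear_combination (1 - ‖q.1‖ ^ 2) * h2
    rw [this]
    exact one_pos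
  · filter_upwards [hU] with y hy
    exact TwD_gf hy
  · filter_upwards [hV] with q hq
    exact TwD_fg hq

theorem dQ_inj {z z' : S4} (h : ‖c1 z‖ < 1) (h' : ‖c1 z'‖ < 1) (h1 : c1 z = c1 z')
    (h2 : pS2 (c2 z) (ht z) = pS2 (c2 z') (ht z')) : z = z' := by
  rw [← TwD_gf h, ← TwD_gf h', h1, h2]

/-- every point of the sphere `c1 = 0` -/
theorem dQ_surj (w : S2) : ∃ z : S4, c1 z = 0 ∧ pS2 (c2 z) (ht z) = w := by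
  have h : ‖((0, w) : ℂ × S2).1‖ < 1 := by
    change ‖(0 : ℂ)‖ < 1
    rw [norm_zero]
    exact one_pos
  exact ⟨TwD_g (0, w), (TwD_c h).1, congrArg Prod.snd (TwD_fg h)⟩

end Pool.Agent.LKT
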