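import Pool.Agent.LKT.TwA

/-!
# LKT/TwG: the planar maps `GG`, `GI`   (difficulty 2)

All statements are elementary algebra with square roots.
* `GI z = E + i F`, `x = z.re`, `y = z.im`, `h² = y²/(2(1+x))`, `E = x + h²`, `F² = h²(2 - h²)` (`|z| < 1` gives `-1 < x`, `h² ≤ (1 - x)/2 < 1`): `E² + F² = x² + 2h²(1+x) = x² + y²`.
* `GG_GI`: with `w = GI z`: `√(1 - F²) = 1 - h²`, so `S + E - 1 = x`, `2(S+E)/(1+S) = 2(1+x)/(2-h²)`.
* `GG w`, `w = E + i F`, `S = √(1-F²)`, `|w| < 1`: `E² < S²`, so `0 < S + E`; `x = S + E - 1`, `y = F √(2(S+E)/(1+S))`: `y² = F²·2(S+E)/(1+S) = 2(1-S)(S+E)`, `x² + y² = E² + 1 - S² = E² + F²`.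
* `GI_GG`: `y²/(2(1+x)) = 1 - S`, `E' = x + 1 - S = E`; `y/√(2(1+x)) · √(1 + S) = F` (`√(2(S+E)/(1+S)) = √(2(S+E))/√(1+S)`).
* smoothness: `fun_prop` / `ContDiffAt.sqrt`, the arguments of the roots are positive, the denominators too (`re`, `im`: `Complex.reCLM.contDiff`, build the complex number as `↑a + ↑b * I` or with
  `RSG.SphA_mk`-like lemma: `contDiffAt` of `fun z => (⟨f z, g z⟩ : ℂ)`: it is `f z + g z * I`, `Complex.mk_eq_add_mul_I`).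
* `GG_fh`: `F = ht √(2 - ht²)`, `1 - F² = (1 - ht²)²`, `S = 1 - ht²` (`RSG.S4_sq`), `S + E - 1 = 2|c1|² - 1`, `2(S+E)/(1+S) = 4|c1|²/(2 - ht²)`.
* `zz_sq`: `(2a² - 1)² + 4a² ht² = 1 - 4a²|c2|²`.
-/

open scoped Manifold ContDiff Topology
open Set Filter
open Complex (I)
open Pool.Agent.RSG (E3 E4 S2 S3 S4 ex cj c1 c2 ht fh pS2 pS3 pS4 hz ho)

namespace Pool.Agent.LKT

theorem TwG_sq {z : ℂ} (h : ‖z‖ < 1) : z.re ^ 2 + z.im ^ 2 < 1 := by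
  have h1 : ‖z‖ ^ 2 < 1 := by nlinarith [norm_nonneg z]
  rw [Complex.sq_norm, Complex.normSq_apply] at h1
  nlinarith

theorem TwG_norm {a b : ℂ} (h : a.re ^ 2 + a.im ^ 2 = b.re ^ 2 + b.im ^ 2) : ‖a‖ = ‖b‖ := by
  rw [Complex.norm_def, Complex.norm_def, Complex.normSq_apply, Complex.normSq_apply]
  congr 1
  nlinarith

theorem TwG_x {z : ℂ} (h : ‖z‖ < 1) : 0 < 1 + z.re := by
  have h1 := TwG_sq h
  have h2 : z.re ^ 2 < 1 ^ 2 := by nlinarith [sq_nonneg z.im]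
  have h3 := abs_lt_of_sq_lt_sq' h2 (by norm_num)
  linarith [h3.1]

/-- the number `h²` -/
theorem TwG_t {z : ℂ} (h : ‖z‖ < 1) : 0 ≤ z.im ^ 2 / (2 * (1 + z.re)) ∧
    z.im ^ 2 / (2 * (1 + z.re)) < 1 ∧
    z.im ^ 2 / (2 * (1 + z.re)) * (2 * (1 + z.re)) = z.im ^ 2 ∧
    (z.im / Real.sqrt (2 * (1 + z.re))) ^ 2 = z.im ^ 2 / (2 * (1 + z.re)) := by
  have h1 := TwG_sq h
  have h2 := TwG_x h
  have h3 : 0 < 2 * (1 + z.re) := by linarith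
  refine ⟨div_nonneg (sq_nonneg _) h3.le, ?_, div_mul_cancel₀ _ h3.ne', ?_⟩
  · rw [div_lt_one h3]
    nlinarith
  · rw [div_pow, Real.sq_sqrt h3.le]

theorem TwG_GI_im {z : ℂ} (h : ‖z‖ < 1) : (GI z).im ^ 2 =
    z.im ^ 2 / (2 * (1 + z.re)) * (2 - z.im ^ 2 / (2 * (1 + z.re))) := by
  obtain ⟨h0, h1, h2, h3⟩ := TwG_t h
  show (z.im / Real.sqrt (2 * (1 + z.re)) * Real.sqrt (2 - z.im ^ 2 / (2 * (1 + z.re)))) ^ 2 = _
  rw [mul_pow, h3, Real.sq_sqrt (by linarith)]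

theorem GI_norm {z : ℂ} (h : ‖z‖ < 1) : ‖GI z‖ = ‖z‖ := by
  apply TwG_norm
  rw [TwG_GI_im h]
  obtain ⟨h0, h1, h2, h3⟩ := TwG_t h
  show (z.re + z.im ^ 2 / (2 * (1 + z.re))) ^ 2 + _ = _
  generalize z.im ^ 2 / (2 * (1 + z.re)) = t at *
  rw [← h2]
  ring

/-- the number `S` -/
theorem TwG_S {w : ℂ} (h : ‖w‖ < 1) : 0 < Real.sqrt (1 - w.im ^ 2) ∧
    Real.sqrt (1 - w.im ^ 2) ^ 2 = 1 - w.im ^ 2 ∧ 0 < Real.sqrt (1 - w.im ^ 2) + w.re := by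
  have h1 := TwG_sq h
  have h2 : 0 < 1 - w.im ^ 2 := by nlinarith [sq_nonneg w.re]
  have h3 := Real.sq_sqrt h2.le
  have h4 := Real.sqrt_pos.2 h2
  refine ⟨h4, h3, ?_⟩
  have h5 : w.re ^ 2 < Real.sqrt (1 - w.im ^ 2) ^ 2 := by rw [h3]; linarith
  have h6 := abs_lt_of_sq_lt_sq' h5 h4.le
  linarith [h6.1]

theorem TwG_GG_im {w : ℂ} (h : ‖w‖ < 1) : (GG w).im ^ 2 =
    2 * (1 - Real.sqrt (1 - w.im ^ 2)) * (Real.sqrt (1 - w.im ^ 2) + w.re) := by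
  obtain ⟨h0, h1, h2⟩ := TwG_S h
  show (w.im * Real.sqrt (2 * (Real.sqrt (1 - w.im ^ 2) + w.re) /
    (1 + Real.sqrt (1 - w.im ^ 2)))) ^ 2 = _
  rw [mul_pow, Real.sq_sqrt (by positivity)]
  have h3 : w.im ^ 2 = 1 - Real.sqrt (1 - w.im ^ 2) ^ 2 := by linarith
  generalize Real.sqrt (1 - w.im ^ 2) = S at *
  rw [h3]
  field_simp
  ring

theorem GG_norm {w : ℂ} (h : ‖w‖ < 1) : ‖GG w‖ = ‖w‖ := by
  apply TwG_norm
  rw [TwG_GG_im h]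
  obtain ⟨h0, h1, h2⟩ := TwG_S h
  show (Real.sqrt (1 - w.im ^ 2) + w.re - 1) ^ 2 + _ = _
  generalize Real.sqrt (1 - w.im ^ 2) = S at *
  linear_combination h1 * (-1)

theorem GG_GI {z : ℂ} (h : ‖z‖ < 1) : GG (GI z) = z := by
  obtain ⟨h0, h1, h2, h3⟩ := TwG_t h
  have h4 := TwG_x h
  have hS : Real.sqrt (1 - (GI z).im ^ 2) = 1 - z.im ^ 2 / (2 * (1 + z.re)) := by
    rw [TwG_GI_im h]
    have h5 : 1 - z.im ^ 2 / (2 * (1 + z.re)) * (2 - z.im ^ 2 / (2 * (1 + z.re))) =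
        (1 - z.im ^ 2 / (2 * (1 + z.re))) ^ 2 := by ring
    rw [h5, Real.sqrt_sq (by linarith)]
  have hE : (GI z).re = z.re + z.im ^ 2 / (2 * (1 + z.re)) := rfl
  apply Complex.ext
  · show Real.sqrt (1 - (GI z).im ^ 2) + (GI z).re - 1 = z.re
    rw [hS, hE]
    ring
  · show (GI z).im * Real.sqrt (2 * (Real.sqrt (1 - (GI z).im ^ 2) + (GI z).re) /
      (1 + Real.sqrt (1 - (GI z).im ^ 2))) = z.im
    rw [hS, hE]
    show (z.im / Real.sqrt (2 * (1 + z.re)) *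
      Real.sqrt (2 - z.im ^ 2 / (2 * (1 + z.re)))) * _ = _
    have e1 : 2 * (1 - z.im ^ 2 / (2 * (1 + z.re)) + (z.re + z.im ^ 2 / (2 * (1 + z.re)))) =
        2 * (1 + z.re) := by ring
    have e2 : 1 + (1 - z.im ^ 2 / (2 * (1 + z.re))) = 2 - z.im ^ 2 / (2 * (1 + z.re)) := by ring
    rw [e1, e2, Real.sqrt_div (by linarith)]
    have h5 : 0 < Real.sqrt (2 * (1 + z.re)) := Real.sqrt_pos.2 (by linarith)
    have h6 : 0 < Real.sqrt (2 - z.im ^ 2 / (2 * (1 + z.re))) := Real.sqrt_pos.2 (by linarith)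
    generalize Real.sqrt (2 * (1 + z.re)) = a at *
    generalize Real.sqrt (2 - z.im ^ 2 / (2 * (1 + z.re))) = b at *
    field_simp

theorem GI_GG {w : ℂ} (h : ‖w‖ < 1) : GI (GG w) = w := by
  obtain ⟨h0, h1, h2⟩ := TwG_S h
  have hE : (GG w).re = Real.sqrt (1 - w.im ^ 2) + w.re - 1 := rfl
  have ht : (GG w).im ^ 2 / (2 * (1 + (GG w).re)) = 1 - Real.sqrt (1 - w.im ^ 2) := by
    rw [TwG_GG_im h, hE]
    have e1 : 1 + (Real.sqrt (1 - w.im ^ 2) + w.re - 1) = Real.sqrt (1 - w.im ^ 2) + w.re := by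
      ring
    rw [e1]
    field_simp
  apply Complex.ext
  · show (GG w).re + (GG w).im ^ 2 / (2 * (1 + (GG w).re)) = w.re
    rw [ht, hE]
    ring
  · show (GG w).im / Real.sqrt (2 * (1 + (GG w).re)) *
      Real.sqrt (2 - (GG w).im ^ 2 / (2 * (1 + (GG w).re))) = w.im
    rw [ht, hE]
    show (w.im * Real.sqrt (2 * (Real.sqrt (1 - w.im ^ 2) + w.re) /
      (1 + Real.sqrt (1 - w.im ^ 2)))) / _ * _ = _
    have e1 : 2 * (1 + (Real.sqrt (1 - w.im ^ 2) + w.re - 1)) =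
      2 * (Real.sqrt (1 - w.im ^ 2) + w.re) := by ring
    have e2 : 2 - (1 - Real.sqrt (1 - w.im ^ 2)) = 1 + Real.sqrt (1 - w.im ^ 2) := by ring
    rw [e1, e2, Real.sqrt_div (by linarith)]
    have h5 : 0 < Real.sqrt (2 * (Real.sqrt (1 - w.im ^ 2) + w.re)) :=
      Real.sqrt_pos.2 (by linarith)
    have h6 : 0 < Real.sqrt (1 + Real.sqrt (1 - w.im ^ 2)) := Real.sqrt_pos.2 (by linarith)
    field_simp

theorem TwG_mk {E : Type*} [NormedAddCommGroup E] [NormedSpace ℝ E] {f g : E → ℝ} {x : E}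
    (hf : ContDiffAt ℝ ∞ f x) (hg : ContDiffAt ℝ ∞ g x) :
    ContDiffAt ℝ ∞ (fun z => (⟨f z, g z⟩ : ℂ)) x := by
  have h1 : (fun z => (⟨f z, g z⟩ : ℂ)) = fun z => ((f z : ℝ) : ℂ) + ((g z : ℝ) : ℂ) * I := by
    funext z
    exact Complex.mk_eq_add_mul_I _ _
  rw [h1]
  have h2 : ContDiff ℝ ∞ (fun t : ℝ => (t : ℂ)) := Complex.ofRealCLM.contDiff
  exact (h2.contDiffAt.comp x hf).add ((h2.contDiffAt.comp x hg).mul contDiffAt_const)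

theorem GG_smooth {w : ℂ} (h : ‖w‖ < 1) : ContDiffAt ℝ ∞ GG w := by
  obtain ⟨h0, h1, h2⟩ := TwG_S h
  have hre : ContDiffAt ℝ ∞ (fun z : ℂ => z.re) w := Complex.reCLM.contDiff.contDiffAt
  have him : ContDiffAt ℝ ∞ (fun z : ℂ => z.im) w := Complex.imCLM.contDiff.contDiffAt
  have hS : ContDiffAt ℝ ∞ (fun z : ℂ => Real.sqrt (1 - z.im ^ 2)) w := by
    apply ContDiffAt.sqrt
    · exact contDiffAt_const.sub (him.pow 2)
    · have := Real.sqrt_pos.1 h0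
      exact this.ne'
  apply TwG_mk
  · exact (hS.add hre).sub contDiffAt_const
  · apply him.mul
    apply ContDiffAt.sqrt
    · apply ContDiffAt.div
      · exact contDiffAt_const.mul (hS.add hre)
      · exact contDiffAt_const.add hS
      · positivity
    · positivity

theorem GI_smooth {z : ℂ} (h : ‖z‖ < 1) : ContDiffAt ℝ ∞ GI z := by
  obtain ⟨h0, h1, h2, h3⟩ := TwG_t h
  have h4 := TwG_x h
  have hre : ContDiffAt ℝ ∞ (fun z : ℂ => z.re) z := Complex.reCLM.contDiff.contDiffAt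
  have him : ContDiffAt ℝ ∞ (fun z : ℂ => z.im) z := Complex.imCLM.contDiff.contDiffAt
  have hd : ContDiffAt ℝ ∞ (fun z : ℂ => 2 * (1 + z.re)) z :=
    contDiffAt_const.mul (contDiffAt_const.add hre)
  have hd0 : 0 < 2 * (1 + z.re) := by linarith
  have ht : ContDiffAt ℝ ∞ (fun z : ℂ => z.im ^ 2 / (2 * (1 + z.re))) z :=
    (him.pow 2).div hd hd0.ne'
  apply TwG_mk
  · exact hre.add ht
  · apply ContDiffAt.mul
    · exact him.div (hd.sqrt hd0.ne') (Real.sqrt_pos.2 hd0).ne'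
    · apply ContDiffAt.sqrt
      · exact contDiffAt_const.sub ht
      · exact (by linarith : (0 : ℝ) < 2 - z.im ^ 2 / (2 * (1 + z.re))).ne'

theorem GG_real (x : ℝ) : GG x = x := by
  apply Complex.ext
  · show Real.sqrt (1 - (x : ℂ).im ^ 2) + (x : ℂ).re - 1 = (x : ℂ).re
    simp
  · show (x : ℂ).im * _ = (x : ℂ).im
    simp

theorem GI_real (x : ℝ) : GI x = x := by
  apply Complex.ext
  · show (x : ℂ).re + (x : ℂ).im ^ 2 / _ = (x : ℂ).re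
    simp
  · show (x : ℂ).im / _ * _ = (x : ℂ).im
    simp

theorem GG_fh (z : S4) : GG (fh z) = zz z := by
  have h0 := Pool.Agent.RSG.S4_sq z
  have h1 : 0 ≤ ‖c1 z‖ := norm_nonneg _
  have h2 : 0 ≤ ‖c2 z‖ := norm_nonneg _
  have h3 : ht z ^ 2 ≤ 1 := by nlinarith
  have hF : (fh z).im = ht z * Real.sqrt (2 - ht z ^ 2) := rfl
  have hE : (fh z).re = ‖c1 z‖ ^ 2 - ‖c2 z‖ ^ 2 := rfl
  have hF2 : (fh z).im ^ 2 = ht z ^ 2 * (2 - ht z ^ 2) := by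
    rw [hF, mul_pow, Real.sq_sqrt (by linarith)]
  have hS : Real.sqrt (1 - (fh z).im ^ 2) = 1 - ht z ^ 2 := by
    rw [hF2]
    have h5 : 1 - ht z ^ 2 * (2 - ht z ^ 2) = (1 - ht z ^ 2) ^ 2 := by ring
    rw [h5, Real.sqrt_sq (by linarith)]
  apply Complex.ext
  · show Real.sqrt (1 - (fh z).im ^ 2) + (fh z).re - 1 = 2 * ‖c1 z‖ ^ 2 - 1
    rw [hS, hE]
    linarith
  · show (fh z).im * Real.sqrt (2 * (Real.sqrt (1 - (fh z).im ^ 2) + (fh z).re) /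
      (1 + Real.sqrt (1 - (fh z).im ^ 2))) = 2 * ‖c1 z‖ * ht z
    rw [hS, hE, hF]
    have e1 : 2 * (1 - ht z ^ 2 + (‖c1 z‖ ^ 2 - ‖c2 z‖ ^ 2)) = (2 * ‖c1 z‖) ^ 2 := by
      linarith
    have e2 : 1 + (1 - ht z ^ 2) = 2 - ht z ^ 2 := by ring
    rw [e1, e2, Real.sqrt_div (by positivity), Real.sqrt_sq (by positivity)]
    have h6 : 0 < Real.sqrt (2 - ht z ^ 2) := Real.sqrt_pos.2 (by linarith)
    field_simp

theorem zz_sq (z : S4) : ‖zz z‖ ^ 2 = 1 - (2 * ‖c1 z‖ * ‖c2 z‖) ^ 2 := by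
  have h0 := Pool.Agent.RSG.S4_sq z
  rw [Complex.sq_norm, Complex.normSq_apply]
  show (2 * ‖c1 z‖ ^ 2 - 1) * (2 * ‖c1 z‖ ^ 2 - 1) + 2 * ‖c1 z‖ * ht z * (2 * ‖c1 z‖ * ht z) = _
  linear_combination 4 * ‖c1 z‖ ^ 2 * h0

end Pool.Agent.LKT
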