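import Pool.Agent.LKT.TwA

/-!
# LKT/TwK: directions and periodic maps   (difficulty 2)

* `ex_an`: `RSG.ex_arg`.  `an_ex`: `ex (an (ex l)) = ex l`, `RSG.ex_eq_iff`.  `Kc_ex`: `an_ex`, `RBM.kap_int` (or `perl`).
* `Kc_u`: `ex (an c) = ex u`, so `an c = u + m`, `RBM.kap_int`.
* `Kc_inj`: `thick.inj`, `ex_an`, `RSG.ex_add_int`.
* `ex_lf`: `ex (l₀ + an (e ex (-l₀))) = ex l₀ · e ex (-l₀) / ‖e‖`.  `lf_ex`: `|l - l₀| < 1/2`: `an (ex (l - l₀)) = l - l₀` (`Complex.arg_exp_mul_I`/`Complex.arg_cos_add_sin_mul_I`, or `RSG.ex_log`).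
* `lf_smooth`: `Complex.arg = im ∘ log`, `log` is smooth on the slit plane (see how `RSG/ExM`, `RSG/LDc` or `RSG/FiA` treat `(log ..).im`: `(Complex.contDiffAt_log h).restrict_scalars ℝ`).
* `Kc_lf`: `ex (lf l₀ e) = ex (an e)`.
-/

open scoped Manifold ContDiff Topology
open Set Filter
open Complex (I)
open Pool.Agent.RSG (E3 E4 S2 S3 S4 ex cj c1 c2 ht fh pS2 pS3 pS4 hz ho)
open Pool.Agent.RBM (ThickT OnT)

namespace Pool.Agent.LKT

theorem ex_an {e : ℂ} (h : e ≠ 0) : ex (an e) = e / ‖e‖ := by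
  have h1 := RSG.ex_arg (p := e)
  have h2 : (‖e‖ : ℂ) ≠ 0 := by
    rw [Ne, Complex.ofReal_eq_zero]
    exact norm_ne_zero_iff.2 h
  rw [eq_div_iff h2, mul_comm]
  exact h1

theorem ex_an1 {e : ℂ} (h : ‖e‖ = 1) : ex (an e) = e := by
  have h0 : e ≠ 0 := by
    rintro rfl
    simp at h
  rw [ex_an h0, h, Complex.ofReal_one, div_one]

theorem an_ex (l : ℝ) : ∃ m : ℤ, an (ex l) = l + m := by
  have h1 : ex (an (ex l)) = ex l := ex_an1 (RSG.ex_norm l)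
  exact RSG.ex_eq_iff.1 h1.symm

/-- the same direction -/
theorem an_of {c : ℂ} {u : ℝ} (hc : c ≠ 0) (h : c = (‖c‖ : ℂ) * ex u) : ∃ m : ℤ, an c = u + m := by
  have h2 : (‖c‖ : ℂ) ≠ 0 := by
    rw [Ne, Complex.ofReal_eq_zero]
    exact norm_ne_zero_iff.2 hc
  have h1 : ex (an c) = ex u := by
    rw [ex_an hc, div_eq_iff h2, mul_comm]
    exact h
  exact RSG.ex_eq_iff.1 h1.symm

theorem ex_lf {l₀ : ℝ} {e : ℂ} (h : e ≠ 0) : ex (lf l₀ e) = e / ‖e‖ := by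
  have h2 : (‖e‖ : ℂ) ≠ 0 := by
    rw [Ne, Complex.ofReal_eq_zero]
    exact norm_ne_zero_iff.2 h
  have h3 : ex l₀ * ex (-l₀) = 1 := by rw [← RSG.ex_add, add_neg_cancel, RSG.ex_zero]
  rw [lf, RSG.ex_add, ex_an (mul_ne_zero h (RSG.ex_ne _)), norm_mul, RSG.ex_norm, mul_one]
  rw [mul_div_assoc', show ex l₀ * (e * ex (-l₀)) = (ex l₀ * ex (-l₀)) * e by ring, h3, one_mul]

theorem lf_ex {l₀ l : ℝ} (h : |l - l₀| < 1 / 2) : lf l₀ (ex l) = l := by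
  have hpi := Real.pi_pos
  rw [lf, an, ← RSG.ex_add]
  have h1 := RSG.ex_log (r := 1) (x := l + -l₀) one_pos (by rw [abs_lt] at h; linarith) (by rw [abs_lt] at h; linarith)
  rw [Complex.ofReal_one, one_mul, Complex.log_im] at h1
  rw [h1]
  field_simp
  ring

/-- a multiple by a positive number does not change `lf` -/
theorem lf_mul {l₀ r : ℝ} (h : 0 < r) (e : ℂ) : lf l₀ ((r : ℂ) * e) = lf l₀ e := by
  rw [lf, lf, an, an, mul_assoc, Complex.arg_real_mul _ h]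

theorem lf_smooth {l₀ : ℝ} {e : ℂ} (h : e * ex (-l₀) ∈ Complex.slitPlane) : ContDiffAt ℝ ∞ (lf l₀) e := by
  have h1 : ContDiffAt ℝ ∞ (fun e' : ℂ => Complex.log (e' * ex (-l₀))) e := by
    have h2 : ContDiffAt ℝ ∞ Complex.log (e * ex (-l₀)) := (Complex.contDiffAt_log h).restrict_scalars ℝ
    exact h2.comp e (contDiffAt_id.mul contDiffAt_const)
  have h3 : ContDiffAt ℝ ∞ (fun e' : ℂ => (Complex.log (e' * ex (-l₀))).im) e :=
    Complex.imCLM.contDiff.contDiffAt.comp e h1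
  have h4 : lf l₀ = fun e' : ℂ => l₀ + (Complex.log (e' * ex (-l₀))).im / (2 * Real.pi) := by
    funext e'
    rw [lf, an, Complex.log_im]
  rw [h4]
  exact contDiffAt_const.add (h3.div_const _)

/-- near the direction `ex l₀` the hypothesis of `lf_smooth` holds -/
theorem lf_near {l₀ : ℝ} {e : ℂ} (he : e ≠ 0) (h : e = (‖e‖ : ℂ) * ex l₀) :
    ∀ᶠ e' in 𝓝 e, e' * ex (-l₀) ∈ Complex.slitPlane := by
  have h1 : e * ex (-l₀) ∈ Complex.slitPlane := by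
    rw [h, mul_assoc, ← RSG.ex_add, add_neg_cancel, RSG.ex_zero, mul_one, Complex.ofReal_mem_slitPlane]
    exact norm_pos_iff.2 he
  have h2 : ContinuousAt (fun e' : ℂ => e' * ex (-l₀)) e := by fun_prop
  exact h2.eventually (Complex.isOpen_slitPlane.mem_nhds h1)

section
variable {E : Type*} [NormedAddCommGroup E] [NormedSpace ℝ E] {H : Type*} [TopologicalSpace H]
  {J : ModelWithCorners ℝ E H} {P : Type*} [TopologicalSpace P] [ChartedSpace H P] {κ : ℝ × ℂ × ℝ → P}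

theorem Kc_ex (h : ThickT J κ) (l : ℝ) (v : ℂ) (u : ℝ) : Kc κ (ex l) v u = κ (l, v, u) := by
  obtain ⟨m, hm⟩ := an_ex l
  have h1 := RBM.kap_int h l v u m 0
  rw [Int.cast_zero, add_zero] at h1
  rw [Kc, hm]
  exact h1

theorem Kc_u (h : ThickT J κ) (e v : ℂ) {c : ℂ} {u : ℝ} (hc : c ≠ 0) (hu : c = (‖c‖ : ℂ) * ex u) :
    Kc κ e v (an c) = Kc κ e v u := by
  obtain ⟨m, hm⟩ := an_of hc hu
  have h1 := RBM.kap_int h (an e) v u 0 m
  rw [Int.cast_zero, add_zero] at h1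
  rw [hm]
  exact h1

theorem Kc_per (h : ThickT J κ) (e v : ℂ) (u : ℝ) (m : ℤ) : Kc κ e v (u + m) = Kc κ e v u := by
  have h1 := RBM.kap_int h (an e) v u 0 m
  rw [Int.cast_zero, add_zero] at h1
  exact h1

theorem Kc_lf (h : ThickT J κ) (l₀ : ℝ) {e : ℂ} (he : e ≠ 0) (v : ℂ) (u : ℝ) :
    Kc κ e v u = κ (lf l₀ e, v, u) := by
  have h1 : ex (an e) = ex (lf l₀ e) := by rw [ex_an he, ex_lf he]
  obtain ⟨m, hm⟩ := RSG.ex_eq_iff.1 h1
  have h2 := RBM.kap_int h (an e) v u m 0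
  rw [Int.cast_zero, add_zero] at h2
  rw [hm, h2, Kc]

theorem Kc_inj (h : ThickT J κ) {e v e' v' : ℂ} {u u' : ℝ} (he : ‖e‖ = 1) (he' : ‖e'‖ = 1) (hv : ‖v‖ < 1)
    (hv' : ‖v'‖ < 1) (hq : Kc κ e v u = Kc κ e' v' u') : e = e' ∧ v = v' ∧ ∃ m : ℤ, u' = u + m := by
  obtain ⟨h1, ⟨m, hm⟩, m', hm'⟩ := h.inj _ _ _ _ _ _ hv hv' hq
  refine ⟨?_, h1, m', hm'⟩
  have h2 : ex (an e') = ex (an e) := by rw [hm, RSG.ex_add_int]
  rw [ex_an1 he, ex_an1 he'] at h2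
  exact h2.symm

end

end Pool.Agent.LKT
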