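import Pool.Agent.LKT.TwU
import Pool.Agent.LKT.TwK

/-!
# LKT/TwH: the diffeomorphism `hh` of `P - tori`   (difficulty 3)

* `hh_tube`: the chosen `w = (i', (l', v', u'))` has `i' = i` (`hκ.disj`), and `(hκ.thick i).inj`: `v' = v`, `l' = l + m`, `u' = u + m'`: `ex l' = ex l` (`RSG.ex_add_int`), `Kc_per`.
* `hh_far`: not in any tube: `dif_neg`; in the tube `i` with `3/4 ≤ ‖v‖`: `hh_tube`, `Hc_big`, `Kc_ex`.
* `hh_not`: in a tube with `0 < ‖v‖`: `hh κ p = κ i (_, v, u)` with the same `v ≠ 0`: `LKF.kap_notF`.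
* `hh_inj`: `p = κ i (l, v, u)`, `p' = κ i' (l', v', u')`: `hκ.disj`, `Kc_inj`: `Hc ‖v‖ (ex l) = Hc ‖v‖ (ex l')`, `Hi_Hc`, `RSG.ex_eq_iff`, `RBM.kap_int`.  One in the tubes, the other not: `hh` of a point of a tube is in the tube.
* `hh_surj`: `q = κ i (l', v, u)`, `v ≠ 0`: `p = Kc (κ i) (Hi ‖v‖ (ex l')) v u`.  Otherwise `p = q`.
* `hh_loc`: (a) `p = κ i (l, v, u)`, `0 < ‖v‖ < 1`: near `(l, v, u)`: `hh κ (κ i q) = κ i (η q)`, `η (l', v', u') = (lf l₁ (Hc ‖v'‖ (ex l')), v', u')`, `l₁ = an (Hc ‖v‖ (ex l))`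
  (`hh_tube`, `Kc_lf`).  `η` is a local diffeomorphism at `(l, v, u)`: `RSG.ld_left` with the left inverse `(l', v', u') ↦ (lf l (Hi ‖v'‖ (ex l')), v', u')` (`ex_lf`, `Hi_Hc`, `lf_ex`; `Hc_smooth`, `Hi_smooth`,
  `lf_smooth`, `lf_near`).  Then `CSG.ld_of_comp_right` (or left): `hh ∘ κ i = κ i ∘ η`, `κ i` is a local diffeomorphism at `(l, v, u)` and at `η (l, v, u)`.
  (b) `p` not in any open tube: `p` is not in the closed set `{κ i (l, v, u) : ‖v‖ ≤ 3/4}` (`LKF.tubF_closed hκ.thick`), near `p` `hh κ = id` (`hh_far`), `CSG.ld_id`, `CSG.ld_congr`.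
-/

open scoped Manifold ContDiff Topology
open Set Filter
open Complex (I)
open Pool.Agent.RSG (E3 E4 S2 S3 S4 ex cj c1 c2 ht fh pS2 pS3 pS4 hz ho)
open Pool.Agent.RBM (ThickT OnT)
open Pool.Agent.LKF (LinkT OnF)

namespace Pool.Agent.LKT

variable {E : Type*} [NormedAddCommGroup E] [NormedSpace ℝ E] {H : Type*} [TopologicalSpace H]
  {J : ModelWithCorners ℝ E H} {P : Type*} [TopologicalSpace P] [ChartedSpace H P] {ι : Type*}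
  {κ : ι → ℝ × ℂ × ℝ → P}

theorem hh_tube (hκ : LinkT J κ) (i : ι) (l : ℝ) {v : ℂ} (u : ℝ) (hv : ‖v‖ < 1) :
    hh κ (κ i (l, v, u)) = Kc (κ i) (Hc ‖v‖ (ex l)) v u := by
  have key : ∀ w : ι × (ℝ × ℂ × ℝ), ‖w.2.2.1‖ < 1 ∧ κ i (l, v, u) = κ w.1 w.2 →
      Kc (κ w.1) (Hc ‖w.2.2.1‖ (ex w.2.1)) w.2.2.1 w.2.2.2 = Kc (κ i) (Hc ‖v‖ (ex l)) v u := by
    rintro ⟨i', l', v', u'⟩ ⟨h1, h2⟩
    dsimp only at h1 h2 ⊢
    have h3 : i = i' := hκ.disj _ _ _ _ _ _ _ _ hv h1 h2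
    subst h3
    obtain ⟨h4, ⟨m, hm⟩, m', hm'⟩ := (hκ.thick i).inj _ _ _ _ _ _ hv h1 h2
    subst h4
    rw [hm, hm', RSG.ex_add_int, Kc_per (hκ.thick i)]
  have hex : ∃ w : ι × (ℝ × ℂ × ℝ), ‖w.2.2.1‖ < 1 ∧ κ i (l, v, u) = κ w.1 w.2 := ⟨(i, (l, v, u)), hv, rfl⟩
  rw [hh, dif_pos hex]
  exact key _ hex.choose_spec

theorem hh_far (hκ : LinkT J κ) {p : P}
    (hp : ∀ (i : ι) (l : ℝ) (v : ℂ) (u : ℝ), ‖v‖ < 3 / 4 → p ≠ κ i (l, v, u)) : hh κ p = p := by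
  by_cases hex : ∃ w : ι × (ℝ × ℂ × ℝ), ‖w.2.2.1‖ < 1 ∧ p = κ w.1 w.2
  · obtain ⟨⟨i, l, v, u⟩, hv, rfl⟩ := hex
    dsimp only at hv hp ⊢
    have h1 : 3 / 4 ≤ ‖v‖ := by
      by_contra h2
      exact hp i l v u (not_le.1 h2) rfl
    rw [hh_tube hκ i l u hv, Hc_big h1 hv (RSG.ex_norm l), Kc_ex (hκ.thick i)]
  · rw [hh, dif_neg hex]

omit [TopologicalSpace P] in
/-- a point which is not on the tori is in a tube or not -/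
theorem TwH_cases {p : P} (hp : ¬ OnF κ p) :
    (∃ (i : ι) (l : ℝ) (v : ℂ) (u : ℝ), v ≠ 0 ∧ ‖v‖ < 1 ∧ p = κ i (l, v, u)) ∨
      ¬ ∃ w : ι × (ℝ × ℂ × ℝ), ‖w.2.2.1‖ < 1 ∧ p = κ w.1 w.2 := by
  by_cases hex : ∃ w : ι × (ℝ × ℂ × ℝ), ‖w.2.2.1‖ < 1 ∧ p = κ w.1 w.2
  · obtain ⟨⟨i, l, v, u⟩, hv, rfl⟩ := hex
    refine Or.inl ⟨i, l, v, u, ?_, hv, rfl⟩
    rintro rfl
    exact hp ⟨i, l, u, rfl⟩
  · exact Or.inr hex

omit [TopologicalSpace P] in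
theorem TwH_out {p : P} (hex : ¬ ∃ w : ι × (ℝ × ℂ × ℝ), ‖w.2.2.1‖ < 1 ∧ p = κ w.1 w.2) : hh κ p = p := by
  rw [hh, dif_neg hex]

theorem hh_not (hκ : LinkT J κ) {p : P} (hp : ¬ OnF κ p) : ¬ OnF κ (hh κ p) := by
  rcases TwH_cases hp with ⟨i, l, v, u, h0, h1, rfl⟩ | hex
  · rw [hh_tube hκ i l u h1, Kc]
    exact LKF.kap_notF hκ u h0 h1
  · rw [TwH_out hex]
    exact hp

theorem hh_inj (hκ : LinkT J κ) {p p' : P} (hp : ¬ OnF κ p) (hp' : ¬ OnF κ p') (he : hh κ p = hh κ p') :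
    p = p' := by
  rcases TwH_cases hp with ⟨i, l, v, u, h0, h1, rfl⟩ | hex
  · rcases TwH_cases hp' with ⟨i', l', v', u', h0', h1', rfl⟩ | hex'
    · rw [hh_tube hκ i l u h1, hh_tube hκ i' l' u' h1'] at he
      have hi : i = i' := hκ.disj _ _ _ _ _ _ _ _ h1 h1' he
      subst hi
      have hn := norm_pos_iff.2 h0
      have hn' := norm_pos_iff.2 h0'
      obtain ⟨h2, h3, m, hm⟩ := Kc_inj (hκ.thick i) (Hc_norm hn h1 (RSG.ex_norm l)) (Hc_norm hn' h1' (RSG.ex_norm l'))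
        h1 h1' he
      subst h3
      have h4 : ex l = ex l' := by
        rw [← Hi_Hc hn h1 (RSG.ex_norm l), h2, Hi_Hc hn h1 (RSG.ex_norm l')]
      obtain ⟨m', hm'⟩ := RSG.ex_eq_iff.1 h4
      rw [hm, hm', RBM.kap_int (hκ.thick i)]
    · exfalso
      rw [hh_tube hκ i l u h1, TwH_out hex'] at he
      exact hex' ⟨(i, (an (Hc ‖v‖ (ex l)), v, u)), h1, he.symm⟩
  · rcases TwH_cases hp' with ⟨i', l', v', u', h0', h1', rfl⟩ | hex'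
    · exfalso
      rw [hh_tube hκ i' l' u' h1', TwH_out hex] at he
      exact hex ⟨(i', (an (Hc ‖v'‖ (ex l')), v', u')), h1', he⟩
    · rwa [TwH_out hex, TwH_out hex'] at he

theorem hh_surj (hκ : LinkT J κ) {q : P} (hq : ¬ OnF κ q) : ∃ p, ¬ OnF κ p ∧ hh κ p = q := by
  rcases TwH_cases hq with ⟨i, l, v, u, h0, h1, rfl⟩ | hex
  · have hn := norm_pos_iff.2 h0
    refine ⟨κ i (an (Hi ‖v‖ (ex l)), v, u), LKF.kap_notF hκ u h0 h1, ?_⟩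
    rw [hh_tube hκ i _ u h1, ex_an1 (Hi_norm hn h1 (RSG.ex_norm l)), Hc_Hi hn h1 (RSG.ex_norm l), Kc_ex (hκ.thick i)]
  · exact ⟨q, hq, TwH_out hex⟩

theorem TwH_near {l : ℝ} {v : ℂ} (u : ℝ) (h0 : v ≠ 0) (h1 : ‖v‖ < 1) :
    ∀ᶠ q : ℝ × ℂ × ℝ in 𝓝 (l, v, u), q.2.1 ≠ 0 ∧ ‖q.2.1‖ < 1 := by
  have h2 : ContinuousAt (fun q : ℝ × ℂ × ℝ => q.2.1) (l, v, u) := by fun_prop
  have h3 : ContinuousAt (fun q : ℝ × ℂ × ℝ => ‖q.2.1‖) (l, v, u) := by fun_prop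
  exact (h2.eventually_ne h0).and (h3.eventually_lt continuousAt_const h1)

theorem TwH_sm {l : ℝ} {v : ℂ} (u : ℝ) (h0 : v ≠ 0) (h1 : ‖v‖ < 1) :
    ContDiffAt ℝ ∞ (fun q : ℝ × ℂ × ℝ => Hc ‖q.2.1‖ (ex q.1)) (l, v, u) ∧
    ContDiffAt ℝ ∞ (fun q : ℝ × ℂ × ℝ => Hi ‖q.2.1‖ (ex q.1)) (l, v, u) := by
  have h2 : ContDiffAt ℝ ∞ (fun q : ℝ × ℂ × ℝ => (q.2.1, ex q.1)) (l, v, u) :=
    (contDiff_snd.fst.prodMk (RSG.ex_smooth.comp contDiff_fst)).contDiffAt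
  refine ⟨?_, ?_⟩
  · exact (Hc_smooth (q := (v, ex l)) h0 h1 (RSG.ex_norm l)).comp (l, v, u) h2
  · exact (Hi_smooth (q := (v, ex l)) h0 h1 (RSG.ex_norm l)).comp (l, v, u) h2

theorem TwH_eta {l l₁ : ℝ} {v : ℂ} (u : ℝ) (h0 : v ≠ 0) (h1 : ‖v‖ < 1) (hl₁ : ex l₁ = Hc ‖v‖ (ex l)) :
    IsLocalDiffeomorphAt 𝓘(ℝ, ℝ × ℂ × ℝ) 𝓘(ℝ, ℝ × ℂ × ℝ) ∞
      (fun q : ℝ × ℂ × ℝ => (lf l₁ (Hc ‖q.2.1‖ (ex q.1)), q.2.1, q.2.2)) (l, v, u) := by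
  have hn := norm_pos_iff.2 h0
  have hex : ∀ x : ℝ, ex x = ((‖ex x‖ : ℝ) : ℂ) * ex x := fun x => by
    rw [RSG.ex_norm, Complex.ofReal_one, one_mul]
  have h5 : ∀ᶠ q : ℝ × ℂ × ℝ in 𝓝 (l, v, u), Hc ‖q.2.1‖ (ex q.1) * ex (-l₁) ∈ Complex.slitPlane := by
    have h6 := lf_near (RSG.ex_ne l₁) (hex l₁)
    rw [hl₁] at h6
    exact (TwH_sm (l := l) u h0 h1).1.continuousAt.eventually h6
  refine RSG.ld_left (g := fun q : ℝ × ℂ × ℝ => (lf l (Hi ‖q.2.1‖ (ex q.1)), q.2.1, q.2.2)) ?_ rfl ?_ ?_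
  · filter_upwards [TwH_near (l := l) u h0 h1, h5] with q hq hq5
    obtain ⟨hq0, hq1⟩ := hq
    refine ContDiffAt.prodMk ?_ contDiff_snd.contDiffAt
    exact ContDiffAt.comp q (g := lf l₁) (f := fun q : ℝ × ℂ × ℝ => Hc ‖q.2.1‖ (ex q.1)) (lf_smooth hq5)
      (TwH_sm (l := q.1) q.2.2 hq0 hq1).1
  · have h7 : (lf l₁ (Hc ‖v‖ (ex l)), v, u) = (l₁, v, u) := by
      rw [← hl₁, lf_ex (by rw [sub_self, abs_zero]; norm_num)]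
    have h8 : Hi ‖v‖ (ex l₁) = ex l := by
      rw [hl₁, Hi_Hc hn h1 (RSG.ex_norm l)]
    have h9 : Hi ‖v‖ (ex l₁) * ex (-l) ∈ Complex.slitPlane := by
      rw [h8, ← RSG.ex_add, add_neg_cancel, RSG.ex_zero]
      exact Complex.one_mem_slitPlane
    have h10 : ContDiffAt ℝ ∞ (fun q : ℝ × ℂ × ℝ => (lf l (Hi ‖q.2.1‖ (ex q.1)), q.2.1, q.2.2)) (l₁, v, u) := by
      refine ContDiffAt.prodMk ?_ contDiff_snd.contDiffAt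
      exact ContDiffAt.comp (l₁, v, u) (g := lf l) (f := fun q : ℝ × ℂ × ℝ => Hi ‖q.2.1‖ (ex q.1)) (lf_smooth h9)
        (TwH_sm (l := l₁) u h0 h1).2
    have h11 := h10.differentiableAt (by simp)
    rw [← h7] at h11
    exact h11
  · have h12 : ContinuousAt (fun q : ℝ × ℂ × ℝ => |q.1 - l|) (l, v, u) := by fun_prop
    have h13 : ∀ᶠ q : ℝ × ℂ × ℝ in 𝓝 (l, v, u), |q.1 - l| < 1 / 2 := by
      refine h12.eventually_lt continuousAt_const ?_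
      simp
    filter_upwards [TwH_near (l := l) u h0 h1, h13] with q hq hq2
    obtain ⟨hq0, hq1⟩ := hq
    have hqn := norm_pos_iff.2 hq0
    have h14 : ex (lf l₁ (Hc ‖q.2.1‖ (ex q.1))) = Hc ‖q.2.1‖ (ex q.1) := by
      have h15 := Hc_norm hqn hq1 (RSG.ex_norm q.1)
      have h16 : Hc ‖q.2.1‖ (ex q.1) ≠ 0 := by
        rw [← norm_ne_zero_iff, h15]
        exact one_ne_zero
      rw [ex_lf h16, h15, Complex.ofReal_one, div_one]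
    show (lf l (Hi ‖q.2.1‖ (ex (lf l₁ (Hc ‖q.2.1‖ (ex q.1))))), q.2.1, q.2.2) = q
    rw [h14, Hi_Hc hqn hq1 (RSG.ex_norm _), lf_ex hq2]

theorem hh_loc [T2Space P] [Finite ι] (hκ : LinkT J κ) {p : P} (hp : ¬ OnF κ p) :
    IsLocalDiffeomorphAt J J ∞ (hh κ) p := by
  rcases TwH_cases hp with ⟨i, l, v, u, h0, h1, rfl⟩ | hex
  · have hn := norm_pos_iff.2 h0
    obtain ⟨l₁, hl₁⟩ : ∃ l₁ : ℝ, ex l₁ = Hc ‖v‖ (ex l) := ⟨_, ex_an1 (Hc_norm hn h1 (RSG.ex_norm l))⟩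
    have h2 : IsLocalDiffeomorphAt 𝓘(ℝ, ℝ × ℂ × ℝ) 𝓘(ℝ, ℝ × ℂ × ℝ) ∞
        (fun q : ℝ × ℂ × ℝ => (lf l₁ (Hc ‖q.2.1‖ (ex q.1)), q.2.1, q.2.2)) (l, v, u) := TwH_eta u h0 h1 hl₁
    have h3 : IsLocalDiffeomorphAt 𝓘(ℝ, ℝ × ℂ × ℝ) J ∞
        (κ i ∘ fun q : ℝ × ℂ × ℝ => (lf l₁ (Hc ‖q.2.1‖ (ex q.1)), q.2.1, q.2.2)) (l, v, u) :=
      IsLocalDiffeomorphAt.comp (hf := h2) (g := κ i) (hg := (hκ.thick i).loc _ _ _ h1)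
    have h4 : IsLocalDiffeomorphAt 𝓘(ℝ, ℝ × ℂ × ℝ) J ∞ (hh κ ∘ κ i) (l, v, u) := by
      refine CSG.ld_congr h3 ?_
      filter_upwards [TwH_near (l := l) u h0 h1] with q hq
      obtain ⟨hq0, hq1⟩ := hq
      have h5 : Hc ‖q.2.1‖ (ex q.1) ≠ 0 := by
        rw [← norm_ne_zero_iff, Hc_norm (norm_pos_iff.2 hq0) hq1 (RSG.ex_norm _)]
        exact one_ne_zero
      show hh κ (κ i (q.1, q.2.1, q.2.2)) = κ i (lf l₁ (Hc ‖q.2.1‖ (ex q.1)), q.2.1, q.2.2)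
      rw [hh_tube hκ i q.1 q.2.2 hq1, Kc_lf (hκ.thick i) l₁ h5]
    exact CSG.ld_of_comp_left h4 ((hκ.thick i).loc _ _ _ h1)
  · have h1 := LKF.tubF_closed hκ.thick (r₀ := 3 / 4) (by norm_num)
    have h2 : p ∉ {p : P | ∃ (i : ι) (l : ℝ) (v : ℂ) (t : ℝ), ‖v‖ ≤ 3 / 4 ∧ p = κ i (l, v, t)} := by
      rintro ⟨i, l, v, t, hv, rfl⟩
      exact hex ⟨(i, (l, v, t)), lt_of_le_of_lt hv (by norm_num), rfl⟩
    refine CSG.ld_congr (CSG.ld_id p) ?_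
    filter_upwards [h1.isOpen_compl.mem_nhds h2] with p' hp'
    refine hh_far hκ ?_
    rintro i l v u' hv rfl
    exact hp' ⟨i, l, v, u', hv.le, rfl⟩

end Pool.Agent.LKT
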