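import Pool.Agent.LKT.TwU
import Pool.Agent.LKT.TwK

/-!
# LKT/TwY: the thick circle `gam κ`   (difficulty 3)

`y : E3`, `‖y‖ < 1/4`, `A = 2√(1-‖y‖²)`.  `zyp y = (2‖y‖²-1) + i A y₂`, `vyp y = A (y₀ + i y₁)`.
* `vy_norm`: `‖vyp y‖² = A² (y₀² + y₁²) ≤ 4‖y‖² < 1/4`.  `zy_sq`: `‖zyp y‖² = (2‖y‖²-1)² + A² y₂² = 1 - ‖vyp y‖²` (`RSG.SphB_norm`, `Fin.sum_univ_three`).  `zy_re`: `re (zyp y) < 0`.
* `Rm ‖vyp y‖ = Rm 0` (`Rm_small`).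
* `gam_zero`: `zyp 0 = -1`, `gV_neg`, `vyp 0 = 0`, `-1 = ex (1/2)` (`RSG.ex_half`), `Kc_ex`.
* `gam_in`: `gam κ (u, y) = κ (an .., vyp y, u)` by definition.
* `gam_thick`: `per`: `Kc_per`.  `inj`: `Kc_inj`: `gV (Rm 0) (zyp y/‖zyp y‖)` equal, so `zyp y/‖zyp y‖` equal (`gU_gV`), `vyp y = vyp y'`, so `‖zyp y‖ = ‖zyp y'‖` (`zy_sq`), `zyp y = zyp y'`, `‖y‖ = ‖y'‖` (real part), `A = A'`,
  `y = y'` (coordinates).
  `loc` at `(u, y)`: near `(u, y)`: `gam κ (u', y') = κ (η (u', y'))`, `η (u', y') = (lf l₁ (gV (Rm 0) (zyp y'/‖zyp y'‖)), vyp y', u')`, `l₁ = an (gV ..)` (`Kc_lf`).  `η` is a local diffeomorphism: `RSG.ld_left` with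
  the left inverse `(l, v, u) ↦ (u, Y)`, `ζ = √(1-‖v‖²) gU (Rm 0) (ex l)` (`= zyp y'`), `B = √(2(1 - re ζ))` (`= A`, since `2(1 - re zyp) = 4(1 - ‖y‖²)`), `Y = (re v / B, im v / B, im ζ / B)`
  (`WithLp.toLp 2 ![..]`).  Then `IsLocalDiffeomorphAt` of the composition `κ ∘ η`.
* `gam_tubes`: `gam_thick` and `hκ.disj` (`Kc (κ i) .. = κ i (..)`).
* `gam_eq`: `w = pS2 (c2 z) (ht z)`; with `s = √(1 - r²)`, `r = ‖c1 z‖ > 0`: `‖c2 z‖² + ht² = s²`, so `hz w = c2 z / s`, `ho w = ht z / s` (prove it as for `RSG.pS2_c` with the scaled arguments, `RSG.toSph_coe`); `y = r • w.1`: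
  `‖y‖ = r`, `zyp y = (2r²-1) + i 2 s r (ht z/s) = zz z`, `vyp y = 2 s r c2 z / s = vQ z`, `‖vQ z‖² ≤ 1/4` (`r < 1/4`), so `Rm ‖vQ z‖ = Rm 0` and `gV (Rm 0) (zyp y/‖zyp y‖) = eQ z`.
-/

open scoped Manifold ContDiff Topology
open Set Filter
open Complex (I)
open Pool.Agent.RSG (E3 E4 S2 S3 S4 ex cj c1 c2 ht fh pS2 pS3 pS4 hz ho)
open Pool.Agent.RBM (ThickT OnT)
open Pool.Agent.LKF (LinkT OnF)

namespace Pool.Agent.LKT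

theorem TwY_sq (y : E3) : ‖y‖ ^ 2 = y 0 ^ 2 + y 1 ^ 2 + y 2 ^ 2 := by
  rw [RSG.SphB_norm, Fin.sum_univ_three]

theorem TwY_lt {y : E3} (h : ‖y‖ < 1 / 4) : ‖y‖ ^ 2 < 1 / 16 := by
  have := norm_nonneg y
  nlinarith

theorem TwY_A {y : E3} (h : ‖y‖ < 1 / 4) : Real.sqrt (1 - ‖y‖ ^ 2) ^ 2 = 1 - ‖y‖ ^ 2 := by
  have h1 := TwY_lt h
  rw [Real.sq_sqrt (by linarith)]

theorem TwY_Ap {y : E3} (h : ‖y‖ < 1 / 4) : 0 < Real.sqrt (1 - ‖y‖ ^ 2) := by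
  have h1 := TwY_lt h
  exact Real.sqrt_pos.2 (by linarith)

theorem TwY_v {y : E3} (h : ‖y‖ < 1 / 4) :
    ‖vyp y‖ ^ 2 = 4 * (1 - ‖y‖ ^ 2) * (y 0 ^ 2 + y 1 ^ 2) := by
  unfold vyp
  rw [norm_mul, mul_pow, Complex.norm_real, Real.norm_eq_abs, sq_abs, mul_pow, TwY_A h, RSG.SphB_cx]
  ring

theorem vy_norm {y : E3} (h : ‖y‖ < 1 / 4) : ‖vyp y‖ < 1 / 2 := by
  have h1 := TwY_v h
  have h2 := TwY_lt h
  have h3 := TwY_sq y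
  have h4 : y 0 ^ 2 + y 1 ^ 2 ≤ ‖y‖ ^ 2 := by nlinarith [sq_nonneg (y 2)]
  have h5 : 0 ≤ y 0 ^ 2 + y 1 ^ 2 := by positivity
  have h6 : ‖vyp y‖ ^ 2 < 1 / 4 := by
    rw [h1]
    nlinarith [sq_nonneg ‖y‖]
  have h7 := norm_nonneg (vyp y)
  nlinarith

theorem TwY_zy {y : E3} (h : ‖y‖ < 1 / 4) : ‖zyp y‖ ^ 2 = 1 - ‖vyp y‖ ^ 2 := by
  rw [TwY_v h]
  unfold zyp
  rw [RSG.SphB_cx, mul_pow, mul_pow, TwY_A h]
  have h3 := TwY_sq y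
  have h4 : y 0 ^ 2 + y 1 ^ 2 = ‖y‖ ^ 2 - y 2 ^ 2 := by linarith
  rw [h4]
  ring

theorem TwY_re {y : E3} (h : ‖y‖ < 1 / 4) : (zyp y).re < 0 := by
  have h2 := TwY_lt h
  show 2 * ‖y‖ ^ 2 - 1 < 0
  linarith

theorem TwY_ne {y : E3} (h : ‖y‖ < 1 / 4) : zyp y ≠ 0 := by
  intro h0
  have h1 := TwY_re h
  rw [h0] at h1
  simp at h1

theorem TwY_un {y : E3} (h : ‖y‖ < 1 / 4) : ‖zyp y / ‖zyp y‖‖ = 1 := by
  have h1 : ‖zyp y‖ ≠ 0 := norm_ne_zero_iff.2 (TwY_ne h)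
  rw [norm_div, Complex.norm_real, norm_norm, div_self h1]

theorem TwY_R : 0 < Rm 0 ∧ Rm 0 < 1 := Rm_bd le_rfl (by norm_num)

section
variable {E : Type*} [NormedAddCommGroup E] [NormedSpace ℝ E] {H : Type*} [TopologicalSpace H]
  {J : ModelWithCorners ℝ E H} {P : Type*} [TopologicalSpace P] [ChartedSpace H P] {ι : Type*}

theorem gam_zero {κ : ℝ × ℂ × ℝ → P} (h : ThickT J κ) (u : ℝ) : gam κ (u, 0) = κ (1 / 2, 0, u) := by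
  have e1 : zyp 0 = -1 := by
    unfold zyp
    apply Complex.ext <;> simp
  have e2 : vyp 0 = 0 := by
    unfold vyp
    have : (⟨(0 : E3) 0, (0 : E3) 1⟩ : ℂ) = 0 := by apply Complex.ext <;> simp
    rw [this, mul_zero]
  unfold gam
  show Kc κ (gV (Rm 0) (zyp 0 / ‖zyp 0‖)) (vyp 0) u = κ (1 / 2, 0, u)
  rw [e1, e2, norm_neg, norm_one, Complex.ofReal_one, div_one, gV_neg TwY_R.1, ← RSG.ex_half, Kc_ex h]

theorem gam_in (κ : ℝ × ℂ × ℝ → P) (u : ℝ) {y : E3} (hy : ‖y‖ < 1 / 4) :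
    ∃ (l : ℝ) (v : ℂ), ‖v‖ ≤ 1 / 2 ∧ gam κ (u, y) = κ (l, v, u) :=
  ⟨an (gV (Rm 0) (zyp y / ‖zyp y‖)), vyp y, (vy_norm hy).le, rfl⟩

theorem TwY_inj {y y' : E3} (h : ‖y‖ < 1 / 4) (h' : ‖y'‖ < 1 / 4)
    (he : gV (Rm 0) (zyp y / ‖zyp y‖) = gV (Rm 0) (zyp y' / ‖zyp y'‖)) (hv : vyp y = vyp y') : y = y' := by
  have h1 := congrArg (gU (Rm 0)) he
  rw [gU_gV TwY_R.1 TwY_R.2 (TwY_un h), gU_gV TwY_R.1 TwY_R.2 (TwY_un h')] at h1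
  have h2 : ‖zyp y‖ = ‖zyp y'‖ := by
    have h3 := TwY_zy h
    have h4 := TwY_zy h'
    rw [hv, ← h4] at h3
    exact (pow_left_inj₀ (norm_nonneg _) (norm_nonneg _) two_ne_zero).1 h3
  have hn : ((‖zyp y'‖ : ℝ) : ℂ) ≠ 0 := by exact_mod_cast norm_ne_zero_iff.2 (TwY_ne h')
  rw [h2] at h1
  have h5 : zyp y = zyp y' := by
    have := congrArg (fun w => w * ((‖zyp y'‖ : ℝ) : ℂ)) h1
    simpa [div_mul_cancel₀ _ hn] using this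
  have h6 : ‖y‖ ^ 2 = ‖y'‖ ^ 2 := by
    have h7 : 2 * ‖y‖ ^ 2 - 1 = 2 * ‖y'‖ ^ 2 - 1 := congrArg Complex.re h5
    linarith
  have hA := (TwY_Ap h').ne'
  have h8 : y 2 = y' 2 := by
    have h7 : 2 * Real.sqrt (1 - ‖y‖ ^ 2) * y 2 = 2 * Real.sqrt (1 - ‖y'‖ ^ 2) * y' 2 := congrArg Complex.im h5
    rw [h6] at h7
    have := mul_left_cancel₀ (mul_ne_zero two_ne_zero hA) h7
    exact this
  have h9 : (⟨y 0, y 1⟩ : ℂ) = ⟨y' 0, y' 1⟩ := by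
    unfold vyp at hv
    rw [h6] at hv
    have hA' : ((2 * Real.sqrt (1 - ‖y'‖ ^ 2) : ℝ) : ℂ) ≠ 0 := by
      exact_mod_cast mul_ne_zero two_ne_zero hA
    exact mul_left_cancel₀ hA' hv
  have h10 : y 0 = y' 0 := congrArg Complex.re h9
  have h11 : y 1 = y' 1 := congrArg Complex.im h9
  ext i
  fin_cases i
  · exact h10
  · exact h11
  · exact h8

/-! smoothness -/

theorem TwY_As {y : E3} (h : ‖y‖ < 1 / 4) : ContDiffAt ℝ ∞ (fun y : E3 => Real.sqrt (1 - ‖y‖ ^ 2)) y := by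
  have h2 := TwY_lt h
  apply ContDiffAt.sqrt
  · exact contDiffAt_const.sub (contDiff_norm_sq ℝ).contDiffAt
  · have : 0 < 1 - ‖y‖ ^ 2 := by linarith
    exact this.ne'

theorem TwY_co (i : Fin 3) : ContDiff ℝ ∞ (fun y : E3 => y i) := by
  exact (EuclideanSpace.proj (𝕜 := ℝ) i).contDiff

theorem TwY_mk {V : Type*} [NormedAddCommGroup V] [NormedSpace ℝ V] {f g : V → ℝ} {x : V}
    (hf : ContDiffAt ℝ ∞ f x) (hg : ContDiffAt ℝ ∞ g x) :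
    ContDiffAt ℝ ∞ (fun x => (⟨f x, g x⟩ : ℂ)) x := by
  have e : (fun x => (⟨f x, g x⟩ : ℂ)) = fun x => ((f x : ℝ) : ℂ) + ((g x : ℝ) : ℂ) * I := by
    funext x
    exact Complex.mk_eq_add_mul_I _ _
  rw [e]
  exact ((Complex.ofRealCLM.contDiff.contDiffAt).comp x hf).add
    (((Complex.ofRealCLM.contDiff.contDiffAt).comp x hg).mul contDiffAt_const)

theorem TwY_zs {y : E3} (h : ‖y‖ < 1 / 4) : ContDiffAt ℝ ∞ zyp y := by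
  apply TwY_mk
  · exact (contDiffAt_const.mul (contDiff_norm_sq ℝ).contDiffAt).sub contDiffAt_const
  · exact (contDiffAt_const.mul (TwY_As h)).mul (TwY_co 2).contDiffAt

theorem TwY_vs {y : E3} (h : ‖y‖ < 1 / 4) : ContDiffAt ℝ ∞ vyp y := by
  have h1 : ContDiffAt ℝ ∞ (fun y : E3 => ((2 * Real.sqrt (1 - ‖y‖ ^ 2) : ℝ) : ℂ)) y :=
    (Complex.ofRealCLM.contDiff.contDiffAt).comp y (contDiffAt_const.mul (TwY_As h))
  exact h1.mul (TwY_mk (TwY_co 0).contDiffAt (TwY_co 1).contDiffAt)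

theorem TwY_es {y : E3} (h : ‖y‖ < 1 / 4) :
    ContDiffAt ℝ ∞ (fun y : E3 => gV (Rm 0) (zyp y / ‖zyp y‖)) y := by
  have hz := TwY_ne h
  have h3 : ContDiffAt ℝ ∞ (fun w : ℂ => w / ‖w‖) (zyp y) := by
    have h4 : ContDiffAt ℝ ∞ (fun w : ℂ => ((‖w‖⁻¹ : ℝ) : ℂ) * w) (zyp y) :=
      ((Complex.ofRealCLM.contDiff.contDiffAt).comp (zyp y)
        ((contDiffAt_norm ℝ hz).inv (norm_ne_zero_iff.2 hz))).mul contDiffAt_id
    have e : (fun w : ℂ => w / ‖w‖) = fun w : ℂ => ((‖w‖⁻¹ : ℝ) : ℂ) * w := by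
      funext w
      rw [Complex.ofReal_inv, div_eq_mul_inv, mul_comm]
    rw [e]
    exact h4
  have h5 : ContDiffAt ℝ ∞ (fun y : E3 => zyp y / ‖zyp y‖) y :=
    ContDiffAt.comp y (g := fun w : ℂ => w / ‖w‖) h3 (TwY_zs h)
  exact ContDiffAt.comp y (g := fun q : ℝ × ℂ => gV q.1 q.2) (f := fun y : E3 => (Rm 0, zyp y / ‖zyp y‖))
    (gV_smooth TwY_R.1 TwY_R.2 (TwY_un h)) (contDiffAt_const.prodMk h5)

/-- the coordinates -/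
noncomputable def TwY_eta (l₁ : ℝ) (q : ℝ × E3) : ℝ × ℂ × ℝ :=
  (lf l₁ (gV (Rm 0) (zyp q.2 / ‖zyp q.2‖)), vyp q.2, q.1)

noncomputable def TwY_ze (p : ℝ × ℂ × ℝ) : ℂ := ((R1 ‖p.2.1‖ : ℝ) : ℂ) * gU (Rm 0) (ex p.1)

noncomputable def TwY_g (p : ℝ × ℂ × ℝ) : ℝ × E3 :=
  (p.2.2, WithLp.toLp 2 ![p.2.1.re / Real.sqrt (2 * (1 - (TwY_ze p).re)),
    p.2.1.im / Real.sqrt (2 * (1 - (TwY_ze p).re)), (TwY_ze p).im / Real.sqrt (2 * (1 - (TwY_ze p).re))])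

theorem TwY_gne {y : E3} (h : ‖y‖ < 1 / 4) : gV (Rm 0) (zyp y / ‖zyp y‖) ≠ 0 := by
  have h1 := gV_norm TwY_R.1 TwY_R.2 (TwY_un h)
  intro h0
  rw [h0] at h1
  simp at h1

theorem TwY_zeta (l₁ u : ℝ) {y : E3} (h : ‖y‖ < 1 / 4) : TwY_ze (TwY_eta l₁ (u, y)) = zyp y := by
  unfold TwY_ze TwY_eta
  show ((R1 ‖vyp y‖ : ℝ) : ℂ) * gU (Rm 0) (ex (lf l₁ (gV (Rm 0) (zyp y / ‖zyp y‖)))) = zyp y
  rw [ex_lf (TwY_gne h), gV_norm TwY_R.1 TwY_R.2 (TwY_un h), Complex.ofReal_one, div_one,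
    gU_gV TwY_R.1 TwY_R.2 (TwY_un h)]
  have e : R1 ‖vyp y‖ = ‖zyp y‖ := by
    unfold R1
    rw [← TwY_zy h, Real.sqrt_sq (norm_nonneg _)]
  have hn : ((‖zyp y‖ : ℝ) : ℂ) ≠ 0 := by exact_mod_cast norm_ne_zero_iff.2 (TwY_ne h)
  rw [e]
  field_simp

theorem TwY_gf (l₁ u : ℝ) {y : E3} (h : ‖y‖ < 1 / 4) : TwY_g (TwY_eta l₁ (u, y)) = (u, y) := by
  have hA := TwY_Ap h
  have e : Real.sqrt (2 * (1 - (zyp y).re)) = 2 * Real.sqrt (1 - ‖y‖ ^ 2) := by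
    have h2 := TwY_A h
    have : 2 * (1 - (zyp y).re) = (2 * Real.sqrt (1 - ‖y‖ ^ 2)) ^ 2 := by
      show 2 * (1 - (2 * ‖y‖ ^ 2 - 1)) = (2 * Real.sqrt (1 - ‖y‖ ^ 2)) ^ 2
      rw [mul_pow, h2]
      ring
    rw [this, Real.sqrt_sq (by positivity)]
  unfold TwY_g
  rw [TwY_zeta l₁ u h, e]
  refine Prod.ext rfl ?_
  have hv : vyp y = ((2 * Real.sqrt (1 - ‖y‖ ^ 2) : ℝ) : ℂ) * (⟨y 0, y 1⟩ : ℂ) := rfl
  have e0 : (vyp y).re / (2 * Real.sqrt (1 - ‖y‖ ^ 2)) = y 0 := by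
    rw [hv, Complex.re_ofReal_mul]
    field_simp
  have e1 : (vyp y).im / (2 * Real.sqrt (1 - ‖y‖ ^ 2)) = y 1 := by
    rw [hv, Complex.im_ofReal_mul]
    field_simp
  have e2 : (zyp y).im / (2 * Real.sqrt (1 - ‖y‖ ^ 2)) = y 2 := by
    show (2 * Real.sqrt (1 - ‖y‖ ^ 2) * y 2) / (2 * Real.sqrt (1 - ‖y‖ ^ 2)) = y 2
    field_simp
  show WithLp.toLp 2 ![(vyp y).re / (2 * Real.sqrt (1 - ‖y‖ ^ 2)), (vyp y).im / (2 * Real.sqrt (1 - ‖y‖ ^ 2)),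
    (zyp y).im / (2 * Real.sqrt (1 - ‖y‖ ^ 2))] = y
  rw [e0, e1, e2]
  ext i
  fin_cases i <;> rfl

theorem TwY_ld {l₁ : ℝ} {u : ℝ} {y : E3} (h : ‖y‖ < 1 / 4) (hl : l₁ = an (gV (Rm 0) (zyp y / ‖zyp y‖))) :
    IsLocalDiffeomorphAt 𝓘(ℝ, ℝ × E3) 𝓘(ℝ, ℝ × ℂ × ℝ) ∞ (TwY_eta l₁) (u, y) := by
  have hb : ∀ᶠ q : ℝ × E3 in 𝓝 (u, y), ‖q.2‖ < 1 / 4 := by
    have : ContinuousAt (fun q : ℝ × E3 => ‖q.2‖) (u, y) := by fun_prop
    exact this.eventually_lt_const h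
  have hes : ContDiffAt ℝ ∞ (fun q : ℝ × E3 => gV (Rm 0) (zyp q.2 / ‖zyp q.2‖)) (u, y) :=
    ContDiffAt.comp (u, y) (g := fun y : E3 => gV (Rm 0) (zyp y / ‖zyp y‖)) (TwY_es h) contDiffAt_snd
  have hsl : ∀ᶠ q : ℝ × E3 in 𝓝 (u, y), gV (Rm 0) (zyp q.2 / ‖zyp q.2‖) * ex (-l₁) ∈ Complex.slitPlane := by
    apply hes.continuousAt.eventually (p := fun e => e * ex (-l₁) ∈ Complex.slitPlane)
    have hn := gV_norm TwY_R.1 TwY_R.2 (TwY_un h)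
    apply lf_near (TwY_gne h)
    show gV (Rm 0) (zyp y / ‖zyp y‖) = (‖gV (Rm 0) (zyp y / ‖zyp y‖)‖ : ℂ) * ex l₁
    rw [hn, hl, ex_an1 hn, Complex.ofReal_one, one_mul]
  refine RSG.ld_left (g := TwY_g) ?_ ?_ ?_ ?_
  · filter_upwards [hb, hsl] with q h1 h2
    have k1 : ContDiffAt ℝ ∞ (fun q : ℝ × E3 => gV (Rm 0) (zyp q.2 / ‖zyp q.2‖)) q :=
      ContDiffAt.comp q (g := fun y : E3 => gV (Rm 0) (zyp y / ‖zyp y‖)) (TwY_es h1) contDiffAt_snd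
    have k2 : ContDiffAt ℝ ∞ (fun q : ℝ × E3 => lf l₁ (gV (Rm 0) (zyp q.2 / ‖zyp q.2‖))) q :=
      ContDiffAt.comp q (g := lf l₁) (lf_smooth h2) k1
    have k3 : ContDiffAt ℝ ∞ (fun q : ℝ × E3 => vyp q.2) q :=
      ContDiffAt.comp q (g := vyp) (TwY_vs h1) contDiffAt_snd
    exact k2.prodMk (k3.prodMk contDiffAt_fst)
  · simp
  · set p := TwY_eta l₁ (u, y) with hp
    have hv : ‖p.2.1‖ < 1 := by
      have := vy_norm h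
      show ‖vyp y‖ < 1
      linarith
    have hzr : (TwY_ze p).re < 0 := by
      rw [hp, TwY_zeta l₁ u h]
      exact TwY_re h
    have k1 : ContDiffAt ℝ ∞ (fun p : ℝ × ℂ × ℝ => R1 ‖p.2.1‖) p :=
      ContDiffAt.comp p (g := fun v : ℂ => R1 ‖v‖) (R1_smooth hv) (by fun_prop)
    have k2 : ContDiffAt ℝ ∞ (fun p : ℝ × ℂ × ℝ => gU (Rm 0) (ex p.1)) p :=
      ContDiffAt.comp p (g := fun q : ℝ × ℂ => gU q.1 q.2) (f := fun p : ℝ × ℂ × ℝ => (Rm 0, ex p.1))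
        (gU_smooth TwY_R.1 TwY_R.2 (RSG.ex_norm _))
        (contDiffAt_const.prodMk ((RSG.ex_smooth.contDiffAt).comp p contDiffAt_fst))
    have k3 : ContDiffAt ℝ ∞ TwY_ze p :=
      ((Complex.ofRealCLM.contDiff.contDiffAt).comp p k1).mul k2
    have kre : ContDiffAt ℝ ∞ (fun p => (TwY_ze p).re) p := (Complex.reCLM.contDiff.contDiffAt).comp p k3
    have kim : ContDiffAt ℝ ∞ (fun p => (TwY_ze p).im) p := (Complex.imCLM.contDiff.contDiffAt).comp p k3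
    have kB : ContDiffAt ℝ ∞ (fun p => Real.sqrt (2 * (1 - (TwY_ze p).re))) p := by
      apply ContDiffAt.sqrt
      · exact contDiffAt_const.mul (contDiffAt_const.sub kre)
      · have : 0 < 2 * (1 - (TwY_ze p).re) := by linarith
        exact this.ne'
    have hB : Real.sqrt (2 * (1 - (TwY_ze p).re)) ≠ 0 := by
      apply ne_of_gt
      apply Real.sqrt_pos.2
      linarith
    have kv : ContDiffAt ℝ ∞ (fun p : ℝ × ℂ × ℝ => p.2.1) p := by fun_prop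
    have kvr : ContDiffAt ℝ ∞ (fun p : ℝ × ℂ × ℝ => p.2.1.re) p := (Complex.reCLM.contDiff.contDiffAt).comp p kv
    have kvi : ContDiffAt ℝ ∞ (fun p : ℝ × ℂ × ℝ => p.2.1.im) p := (Complex.imCLM.contDiff.contDiffAt).comp p kv
    have kY : ContDiffAt ℝ ∞ (fun p : ℝ × ℂ × ℝ =>
        (WithLp.toLp 2 ![p.2.1.re / Real.sqrt (2 * (1 - (TwY_ze p).re)),
          p.2.1.im / Real.sqrt (2 * (1 - (TwY_ze p).re)),
          (TwY_ze p).im / Real.sqrt (2 * (1 - (TwY_ze p).re))] : E3)) p := by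
      rw [contDiffAt_euclidean]
      intro i
      fin_cases i
      · exact kvr.div kB hB
      · exact kvi.div kB hB
      · exact kim.div kB hB
    have kg : ContDiffAt ℝ ∞ TwY_g p :=
      ContDiffAt.prodMk (by fun_prop : ContDiffAt ℝ ∞ (fun p : ℝ × ℂ × ℝ => p.2.2) p) kY
    exact kg.differentiableAt (by simp)
  · filter_upwards [hb] with q h1
    exact TwY_gf l₁ q.1 h1

theorem gam_thick {κ : ℝ × ℂ × ℝ → P} (h : ThickT J κ) : ThickC J (gam κ) (1 / 4) where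
  pos := by norm_num
  per := by
    intro l v _
    have h1 := Kc_per h (gV (Rm 0) (zyp v / ‖zyp v‖)) (vyp v) l 1
    rw [Int.cast_one] at h1
    exact h1
  loc := by
    intro u y hy
    have h1 : IsLocalDiffeomorphAt 𝓘(ℝ, ℝ × E3) 𝓘(ℝ, ℝ × ℂ × ℝ) ∞
        (TwY_eta (an (gV (Rm 0) (zyp y / ‖zyp y‖)))) (u, y) := TwY_ld hy rfl
    have h2 : IsLocalDiffeomorphAt 𝓘(ℝ, ℝ × ℂ × ℝ) J ∞ κ
        (TwY_eta (an (gV (Rm 0) (zyp y / ‖zyp y‖))) (u, y)) := by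
      apply h.loc
      have := vy_norm hy
      show ‖vyp y‖ < 1
      linarith
    have h3 := IsLocalDiffeomorphAt.comp (hf := h1) (g := κ) (hg := h2)
    apply CSG.ld_congr h3
    have hb : ∀ᶠ q : ℝ × E3 in 𝓝 (u, y), ‖q.2‖ < 1 / 4 := by
      have : ContinuousAt (fun q : ℝ × E3 => ‖q.2‖) (u, y) := by fun_prop
      exact this.eventually_lt_const hy
    filter_upwards [hb] with q hq
    exact Kc_lf h _ (TwY_gne hq) (vyp q.2) q.1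
  inj := by
    intro l v l' v' hv hv' he
    have h1 := vy_norm hv
    have h2 := vy_norm hv'
    obtain ⟨e1, e2, m, e3⟩ := Kc_inj h (gV_norm TwY_R.1 TwY_R.2 (TwY_un hv))
      (gV_norm TwY_R.1 TwY_R.2 (TwY_un hv')) (by linarith) (by linarith) he
    exact ⟨TwY_inj hv hv' e1 e2, m, e3⟩

theorem gam_tubes {κ : ι → ℝ × ℂ × ℝ → P} (hκ : LinkT J κ) : TubesC J (fun i => gam (κ i)) (1 / 4) where
  thick i := gam_thick (hκ.thick i)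
  disj := by
    intro i i' hi l v l' v' hv hv' he
    have h1 := vy_norm hv
    have h2 := vy_norm hv'
    exact hi (hκ.disj i i' _ _ _ _ _ _ (by linarith) (by linarith) he)

theorem gam_eq {κ : ℝ × ℂ × ℝ → P} {z : S4} (h0 : c1 z ≠ 0) (h1 : ‖c1 z‖ < 1 / 4) (u : ℝ) :
    gam κ (u, ‖c1 z‖ • (pS2 (c2 z) (ht z)).1) = Kc κ (eQ z) (vQ z) u := by
  have hr : 0 < ‖c1 z‖ := norm_pos_iff.2 h0
  have hz := RSG.S4_sq z
  set r := ‖c1 z‖ with hrd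
  have hs : 0 < 1 - r ^ 2 := by nlinarith
  set s := Real.sqrt (1 - r ^ 2) with hsd
  have hs0 : 0 < s := Real.sqrt_pos.2 hs
  have hs2 : s ^ 2 = 1 - r ^ 2 := Real.sq_sqrt hs.le
  have hvec : ‖(WithLp.toLp 2 ![(c2 z).re, (c2 z).im, ht z] : E3)‖ = s := by
    have e : ‖(WithLp.toLp 2 ![(c2 z).re, (c2 z).im, ht z] : E3)‖ ^ 2 = s ^ 2 := by
      rw [RSG.SphB_norm, Fin.sum_univ_three, hs2]
      show (c2 z).re ^ 2 + (c2 z).im ^ 2 + ht z ^ 2 = 1 - r ^ 2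
      rw [RSG.SphB_cx']
      linarith
    exact (pow_left_inj₀ (norm_nonneg _) hs0.le two_ne_zero).1 e
  have hne : (WithLp.toLp 2 ![(c2 z).re, (c2 z).im, ht z] : E3) ≠ 0 := by
    rw [← norm_ne_zero_iff, hvec]
    exact hs0.ne'
  have hw : (pS2 (c2 z) (ht z)).1 = s⁻¹ • (WithLp.toLp 2 ![(c2 z).re, (c2 z).im, ht z] : E3) := by
    unfold pS2
    rw [RSG.toSph_coe _ hne, hvec]
  have hwn : ‖(pS2 (c2 z) (ht z)).1‖ = 1 := norm_eq_of_mem_sphere _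
  set y : E3 := r • (pS2 (c2 z) (ht z)).1 with hyd
  have hyn : ‖y‖ = r := by
    rw [hyd, norm_smul, hwn, mul_one, Real.norm_eq_abs, abs_of_pos hr]
  have y0 : y 0 = r * (s⁻¹ * (c2 z).re) := by rw [hyd, hw]; rfl
  have y1 : y 1 = r * (s⁻¹ * (c2 z).im) := by rw [hyd, hw]; rfl
  have y2 : y 2 = r * (s⁻¹ * ht z) := by rw [hyd, hw]; rfl
  have e1 : zyp y = zz z := by
    unfold zyp zz
    rw [hyn, ← hsd, y2, ← hrd]
    apply Complex.ext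
    · rfl
    · show 2 * s * (r * (s⁻¹ * ht z)) = 2 * r * ht z
      field_simp
  have e2 : vyp y = vQ z := by
    unfold vyp vQ
    rw [hyn, ← hsd, y0, y1, ← hrd]
    apply Complex.ext
    · rw [Complex.re_ofReal_mul, Complex.re_ofReal_mul]
      show 2 * s * (r * (s⁻¹ * (c2 z).re)) = 2 * r * (c2 z).re
      field_simp
    · rw [Complex.im_ofReal_mul, Complex.im_ofReal_mul]
      show 2 * s * (r * (s⁻¹ * (c2 z).im)) = 2 * r * (c2 z).im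
      field_simp
  have hy4 : ‖y‖ < 1 / 4 := by rw [hyn]; exact h1
  have e3 : Rm ‖vQ z‖ = Rm 0 := by
    apply Rm_small
    have := vy_norm hy4
    rw [e2] at this
    have h5 := norm_nonneg (vQ z)
    nlinarith
  unfold gam eQ
  show Kc κ (gV (Rm 0) (zyp y / ‖zyp y‖)) (vyp y) u = Kc κ (gV (Rm ‖vQ z‖) (zz z / ‖zz z‖)) (vQ z) u
  rw [e1, e2, e3]

end

end Pool.Agent.LKT
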