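import Pool.Agent.LKT.TwU
import Pool.Agent.LKT.TwK

/-!
# LKT/TwZ: coordinates on the twin   (difficulty 3)

`q = (l, v, u)`, `‖v‖ < 1`, not (`v = 0` and `ex l = -1`).  `z1 = zQ q = x + i y = √(1-‖v‖²) gU (Rm ‖v‖) (ex l)`, `‖z1‖² = 1 - ‖v‖²`.
* `zQ_re`: `-1 < x`: if `v ≠ 0` then `‖z1‖ < 1`; if `v = 0` then `z1 = gU (Rm 0) (ex l)` is a unit vector, not `-1` (`gV_gU`, `gV_neg`), so `re > -1`.
* `ZQ_c`: the three arguments `(a, b, h)` of `pS4` satisfy `‖a‖² + ‖b‖² + h² = 1`: `(1+x)/2 + (‖v‖² + y²)/(2(1+x)) = (1+x)/2 + (1-x²)/(2(1+x)) = 1` (`RSG.pS4_c`).  So `c1`, `c2`, `ht` are `a`, `b`, `h`; `2‖c1‖ = √(2(1+x))`.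
* `vQ_ZQ`: `2‖c1‖ c2 = v`.  `zz_ZQ`: `zz (ZQ q) = (2 (1+x)/2 - 1) + i 2‖c1‖ ht = x + i y = zQ q`.  `eQ_ZQ`: `zQ q / ‖zQ q‖ = gU (Rm ‖v‖) (ex l)` (`‖zQ q‖ = R1 ‖v‖ > 0`), `gV_gU`.
* `fh_ZQ`: `RSG.fh_ne_iff`: `2‖c1‖‖c2‖ = ‖v‖ < 1`.
* `eQ_norm`: `fh z ≠ 0`: `‖zz z‖² = 1 - ‖vQ z‖² > 0` (`zz_sq`), `gV_norm`.
* `ZQ_of`: `z` with `c1 z ≠ 0`, `fh z ≠ 0`; `v = vQ z`, `gU (Rm ‖v‖) (eQ z) = zz z/‖zz z‖` (`gU_gV`), `‖zz z‖ = R1 ‖v‖`, so `zQ q = zz z`, `1 + x = 2‖c1‖²`, and `a = ‖c1‖ ex u = c1 z`, `b = v/(2‖c1‖) = c2 z`, `h = ht z`: `RSG.pS4_self`.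
* `ZQ_dom`: `c2 z = 0`, `c1 z ≠ 0` (so `vQ z = 0`): `eQ z ≠ -1`: otherwise `zz z/‖zz z‖ = gU .. (-1) = -1`, `ht z = 0`, `2‖c1‖² < 1`, against `‖c1‖² + ht² = 1`.
* `ZQ_ld`: `RSG.ld_two` with `f = ZQ`, `g z = (lf l (eQ z), vQ z, lf u (c1 z))`.  Smoothness of `f` near `q`: `RSG.pS4_smooth`, `Rm_smooth`, `R1_smooth`, `gU_smooth`, `RSG.ex_smooth`, `ContDiffAt.sqrt`
  (`1 + x > 0`; the domain is open: `{‖v‖ < 1}` minus the closed set `v = 0, ex l = -1`).  Smoothness of `g` near `ZQ q`: `RSG.c1_smooth`, `RSG.c2_smooth`, `RSG.ht_smooth`, `‖c1‖` smooth where `c1 ≠ 0`,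
  `zz z ≠ 0`, `gV_smooth`, `lf_smooth`, `lf_near`.  `g (f q') = q'` near `q`: `vQ_ZQ`, `eQ_ZQ`, `lf_ex`, `lf_mul`.  `f (g z') = z'` near `ZQ q`: `ZQ_of`, `ex_lf`.
-/

open scoped Manifold ContDiff Topology
open Set Filter
open Complex (I)
open Pool.Agent.RSG (E3 E4 S2 S3 S4 ex cj c1 c2 ht fh pS2 pS3 pS4 hz ho)

namespace Pool.Agent.LKT

/-- the domain of `ZQ` -/
def DZ (q : ℝ × ℂ × ℝ) : Prop := ‖q.2.1‖ < 1 ∧ (q.2.1 ≠ 0 ∨ ex q.1 ≠ -1)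

theorem zQ_sq {q : ℝ × ℂ × ℝ} (h : ‖q.2.1‖ < 1) : ‖zQ q‖ ^ 2 = 1 - ‖q.2.1‖ ^ 2 := by
  have hm := Rm_bd (norm_nonneg q.2.1) h
  have h1 := gU_norm hm.1 hm.2 (RSG.ex_norm q.1)
  have hn := norm_nonneg q.2.1
  unfold zQ
  rw [norm_mul, h1, mul_one, Complex.norm_real, Real.norm_eq_abs, sq_abs]
  unfold R1
  rw [Real.sq_sqrt]
  nlinarith

theorem TwZ_xy {q : ℝ × ℂ × ℝ} (h : ‖q.2.1‖ < 1) :
    (zQ q).re ^ 2 + (zQ q).im ^ 2 = 1 - ‖q.2.1‖ ^ 2 := by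
  rw [← zQ_sq h, RSG.SphB_cx']

theorem zQ_re {q : ℝ × ℂ × ℝ} (h : DZ q) : -1 < (zQ q).re := by
  by_contra hc
  have hc' : (zQ q).re ≤ -1 := not_lt.1 hc
  have h2 := TwZ_xy h.1
  have h3 : ‖q.2.1‖ ^ 2 = 0 := by nlinarith [sq_nonneg (zQ q).im, sq_nonneg ‖q.2.1‖]
  have h4 : q.2.1 = 0 := by
    have := pow_eq_zero_iff (two_ne_zero) |>.1 h3
    exact norm_eq_zero.1 this
  rw [h3] at h2
  have h5 : (zQ q).im ^ 2 = 0 := by nlinarith [sq_nonneg (zQ q).im]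
  have h6 : (zQ q).im = 0 := pow_eq_zero_iff (two_ne_zero) |>.1 h5
  have h7 : (zQ q).re = -1 := by nlinarith
  have h8 : zQ q = -1 := Complex.ext (by simp [h7]) (by simp [h6])
  have hm := Rm_bd (norm_nonneg q.2.1) h.1
  have h9 : R1 ‖q.2.1‖ = 1 := by unfold R1; rw [h3]; simp
  have h10 : gU (Rm ‖q.2.1‖) (ex q.1) = -1 := by
    rw [← h8]; unfold zQ; rw [h9]; simp
  have h11 := gV_gU hm.1 hm.2 (RSG.ex_norm q.1)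
  rw [h10, gV_neg hm.1] at h11
  rcases h.2 with h12 | h12
  · exact h12 h4
  · exact h12 h11.symm

theorem TwZ_cc {q : ℝ × ℂ × ℝ} (h : DZ q) :
    c1 (ZQ q) = (Real.sqrt ((1 + (zQ q).re) / 2) : ℝ) * ex q.2.2 ∧
    c2 (ZQ q) = ((1 / Real.sqrt (2 * (1 + (zQ q).re)) : ℝ) : ℂ) * q.2.1 ∧
    ht (ZQ q) = (zQ q).im / Real.sqrt (2 * (1 + (zQ q).re)) := by
  have hx := zQ_re h
  have h2 := TwZ_xy h.1
  unfold ZQ
  apply RSG.pS4_c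
  have hp : 0 < 1 + (zQ q).re := by linarith
  rw [norm_mul, norm_mul, RSG.ex_norm, mul_one, Complex.norm_real, Complex.norm_real, Real.norm_eq_abs,
    Real.norm_eq_abs, sq_abs, mul_pow, sq_abs, div_pow, div_pow, Real.sq_sqrt (by positivity),
    Real.sq_sqrt (by positivity)]
  field_simp
  nlinarith

theorem TwZ_nc {q : ℝ × ℂ × ℝ} (h : DZ q) : ‖c1 (ZQ q)‖ = Real.sqrt ((1 + (zQ q).re) / 2) := by
  rw [(TwZ_cc h).1, norm_mul, RSG.ex_norm, mul_one, Complex.norm_real, Real.norm_eq_abs,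
    abs_of_nonneg (Real.sqrt_nonneg _)]

theorem TwZ_two {q : ℝ × ℂ × ℝ} (h : DZ q) :
    2 * ‖c1 (ZQ q)‖ = Real.sqrt (2 * (1 + (zQ q).re)) := by
  have hx := zQ_re h
  rw [TwZ_nc h]
  have e : (2 * (1 + (zQ q).re)) = 2 ^ 2 * ((1 + (zQ q).re) / 2) := by ring
  rw [e, Real.sqrt_mul (by norm_num), Real.sqrt_sq (by norm_num)]

theorem TwZ_pos {q : ℝ × ℂ × ℝ} (h : DZ q) : 0 < Real.sqrt (2 * (1 + (zQ q).re)) := by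
  have hx := zQ_re h
  apply Real.sqrt_pos.2
  linarith

theorem ZQ_c1 {q : ℝ × ℂ × ℝ} (h : DZ q) : c1 (ZQ q) ≠ 0 ∧ c1 (ZQ q) = (‖c1 (ZQ q)‖ : ℂ) * ex q.2.2 := by
  refine ⟨?_, ?_⟩
  · have h1 := TwZ_pos h
    rw [← TwZ_two h] at h1
    intro h0
    rw [h0] at h1
    simp at h1
  · rw [TwZ_nc h]
    exact (TwZ_cc h).1

theorem vQ_ZQ {q : ℝ × ℂ × ℝ} (h : DZ q) : vQ (ZQ q) = q.2.1 := by
  have h1 := TwZ_pos h
  unfold vQ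
  rw [TwZ_two h, (TwZ_cc h).2.1, ← mul_assoc, ← Complex.ofReal_mul, mul_one_div, div_self h1.ne',
    Complex.ofReal_one, one_mul]

theorem TwZ_zz {q : ℝ × ℂ × ℝ} (h : DZ q) : zz (ZQ q) = zQ q := by
  have h1 := TwZ_pos h
  have hx := zQ_re h
  unfold zz
  rw [TwZ_two h, TwZ_nc h, (TwZ_cc h).2.2, Real.sq_sqrt (by linarith)]
  apply Complex.ext
  · show 2 * ((1 + (zQ q).re) / 2) - 1 = (zQ q).re
    ring
  · show Real.sqrt (2 * (1 + (zQ q).re)) * ((zQ q).im / Real.sqrt (2 * (1 + (zQ q).re))) = (zQ q).im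
    field_simp

theorem TwZ_dir {r : ℝ} {u : ℂ} (hr : 0 < r) (hu : ‖u‖ = 1) :
    (r : ℂ) * u / (‖(r : ℂ) * u‖ : ℂ) = u := by
  have h1 : ‖(r : ℂ) * u‖ = r := by
    rw [norm_mul, hu, mul_one, Complex.norm_real, Real.norm_eq_abs, abs_of_pos hr]
  have h2 : (r : ℂ) ≠ 0 := by exact_mod_cast hr.ne'
  rw [h1]
  field_simp

theorem eQ_ZQ {q : ℝ × ℂ × ℝ} (h : DZ q) : eQ (ZQ q) = ex q.1 := by
  have hm := Rm_bd (norm_nonneg q.2.1) h.1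
  unfold eQ
  rw [vQ_ZQ h, TwZ_zz h]
  have h1 : zQ q / ‖zQ q‖ = gU (Rm ‖q.2.1‖) (ex q.1) := by
    unfold zQ
    exact TwZ_dir (R1_pos (norm_nonneg _) h.1) (gU_norm hm.1 hm.2 (RSG.ex_norm q.1))
  rw [h1]
  exact gV_gU hm.1 hm.2 (RSG.ex_norm q.1)

theorem vQ_norm (z : S4) : ‖vQ z‖ = 2 * ‖c1 z‖ * ‖c2 z‖ := by
  unfold vQ
  rw [norm_mul, Complex.norm_real, Real.norm_eq_abs, abs_of_nonneg (by positivity)]

theorem vQ_lt {z : S4} (h : fh z ≠ 0) : ‖vQ z‖ < 1 := by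
  rw [vQ_norm]
  exact (RSG.fh_ne_iff z).1 h

theorem fh_ZQ {q : ℝ × ℂ × ℝ} (h : DZ q) : fh (ZQ q) ≠ 0 := by
  rw [RSG.fh_ne_iff, ← vQ_norm, vQ_ZQ h]
  exact h.1

theorem TwZ_zq (z : S4) : ‖zz z‖ ^ 2 = 1 - ‖vQ z‖ ^ 2 := by
  rw [vQ_norm]
  exact zz_sq z

theorem TwZ_zne {z : S4} (h : fh z ≠ 0) : zz z ≠ 0 := by
  intro h0
  have h1 := TwZ_zq z
  have h2 := vQ_lt h
  have h3 := norm_nonneg (vQ z)
  rw [h0] at h1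
  simp at h1
  nlinarith

theorem TwZ_un {z : S4} (h : fh z ≠ 0) : ‖zz z / ‖zz z‖‖ = 1 := by
  have h1 : ‖zz z‖ ≠ 0 := norm_ne_zero_iff.2 (TwZ_zne h)
  rw [norm_div, Complex.norm_real, norm_norm, div_self h1]

theorem eQ_norm {z : S4} (h : fh z ≠ 0) : ‖eQ z‖ = 1 := by
  have hm := Rm_bd (norm_nonneg (vQ z)) (vQ_lt h)
  exact gV_norm hm.1 hm.2 (TwZ_un h)

theorem TwZ_gu {z : S4} (h : fh z ≠ 0) : gU (Rm ‖vQ z‖) (eQ z) = zz z / ‖zz z‖ := by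
  have hm := Rm_bd (norm_nonneg (vQ z)) (vQ_lt h)
  exact gU_gV hm.1 hm.2 (TwZ_un h)

theorem ZQ_of {z : S4} (h : fh z ≠ 0) (h1 : c1 z ≠ 0) {l u : ℝ} (hl : eQ z = ex l)
    (hu : c1 z = (‖c1 z‖ : ℂ) * ex u) : ZQ (l, vQ z, u) = z := by
  have hn : 0 < ‖c1 z‖ := norm_pos_iff.2 h1
  have hz := TwZ_zne h
  have e1 : zQ (l, vQ z, u) = zz z := by
    unfold zQ
    show ((R1 ‖vQ z‖ : ℝ) : ℂ) * gU (Rm ‖vQ z‖) (ex l) = zz z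
    rw [← hl, TwZ_gu h]
    have e2 : R1 ‖vQ z‖ = ‖zz z‖ := by
      unfold R1
      rw [← TwZ_zq, Real.sqrt_sq (norm_nonneg _)]
    have hz' : ((‖zz z‖ : ℝ) : ℂ) ≠ 0 := by exact_mod_cast norm_ne_zero_iff.2 hz
    rw [e2]
    field_simp
  have e3 : Real.sqrt ((1 + (zz z).re) / 2) = ‖c1 z‖ := by
    have : (1 + (zz z).re) / 2 = ‖c1 z‖ ^ 2 := by
      show (1 + (2 * ‖c1 z‖ ^ 2 - 1)) / 2 = ‖c1 z‖ ^ 2
      ring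
    rw [this, Real.sqrt_sq hn.le]
  have e4 : Real.sqrt (2 * (1 + (zz z).re)) = 2 * ‖c1 z‖ := by
    have : 2 * (1 + (zz z).re) = (2 * ‖c1 z‖) ^ 2 := by
      show 2 * (1 + (2 * ‖c1 z‖ ^ 2 - 1)) = (2 * ‖c1 z‖) ^ 2
      ring
    rw [this, Real.sqrt_sq (by positivity)]
  unfold ZQ
  rw [e1]
  show pS4 ((Real.sqrt ((1 + (zz z).re) / 2) : ℝ) * ex u)
    ((1 / Real.sqrt (2 * (1 + (zz z).re)) : ℝ) * vQ z) ((zz z).im / Real.sqrt (2 * (1 + (zz z).re))) = z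
  rw [e3, e4, ← hu]
  have e5 : ((1 / (2 * ‖c1 z‖) : ℝ) : ℂ) * vQ z = c2 z := by
    unfold vQ
    rw [← mul_assoc, ← Complex.ofReal_mul, one_div, inv_mul_cancel₀ (by positivity),
      Complex.ofReal_one, one_mul]
  have e6 : (zz z).im / (2 * ‖c1 z‖) = ht z := by
    show (2 * ‖c1 z‖ * ht z) / (2 * ‖c1 z‖) = ht z
    field_simp
  rw [e5, e6]
  exact RSG.pS4_self z

theorem ZQ_dom {z : S4} (h : fh z ≠ 0) (h1 : c1 z ≠ 0) {l : ℝ} (hl : eQ z = ex l) (u : ℝ) : DZ (l, vQ z, u) := by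
  refine ⟨vQ_lt h, ?_⟩
  by_contra hc
  push Not at hc
  obtain ⟨h2, h3⟩ := hc
  have hn : 0 < ‖c1 z‖ := norm_pos_iff.2 h1
  have hm := Rm_bd (norm_nonneg (vQ z)) (vQ_lt h)
  have h2' : vQ z = 0 := h2
  have h3' : ex l = -1 := h3
  have h4 := TwZ_gu h
  rw [hl, h3', gU_neg hm.1] at h4
  have h5 := TwZ_zq z
  rw [h2', norm_zero] at h5
  have h6 : ‖zz z‖ = 1 := by
    have := norm_nonneg (zz z)
    nlinarith
  rw [h6] at h4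
  have h7 := congrArg Complex.re h4
  simp only [Complex.ofReal_one, div_one, Complex.neg_re, Complex.one_re] at h7
  have h8 : (zz z).re = 2 * ‖c1 z‖ ^ 2 - 1 := rfl
  nlinarith

/-! smoothness -/

theorem TwZ_open : IsOpen {q : ℝ × ℂ × ℝ | DZ q} := by
  have h1 : IsOpen {q : ℝ × ℂ × ℝ | ‖q.2.1‖ < 1} :=
    isOpen_lt (by fun_prop) continuous_const
  have h2 : IsOpen {q : ℝ × ℂ × ℝ | q.2.1 ≠ 0} :=
    isOpen_ne_fun (by fun_prop) continuous_const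
  have h3 : IsOpen {q : ℝ × ℂ × ℝ | ex q.1 ≠ -1} :=
    isOpen_ne_fun (RSG.ex_smooth.continuous.comp continuous_fst) continuous_const
  exact h1.inter (h2.union h3)

theorem TwZ_zQs {q : ℝ × ℂ × ℝ} (h : DZ q) : ContDiffAt ℝ ∞ zQ q := by
  have hm := Rm_bd (norm_nonneg q.2.1) h.1
  have hv : ContDiffAt ℝ ∞ (fun q : ℝ × ℂ × ℝ => q.2.1) q := by fun_prop
  have h1 : ContDiffAt ℝ ∞ (fun q : ℝ × ℂ × ℝ => R1 ‖q.2.1‖) q :=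
    ContDiffAt.comp q (g := fun v : ℂ => R1 ‖v‖) (R1_smooth h.1) hv
  have h2 : ContDiffAt ℝ ∞ (fun q : ℝ × ℂ × ℝ => Rm ‖q.2.1‖) q :=
    ContDiffAt.comp q (g := fun v : ℂ => Rm ‖v‖) (Rm_smooth h.1) hv
  have h3 : ContDiffAt ℝ ∞ (fun q : ℝ × ℂ × ℝ => ex q.1) q :=
    (RSG.ex_smooth.contDiffAt).comp q contDiffAt_fst
  have h4 : ContDiffAt ℝ ∞ (fun q : ℝ × ℂ × ℝ => gU (Rm ‖q.2.1‖) (ex q.1)) q :=
    ContDiffAt.comp q (g := fun q : ℝ × ℂ => gU q.1 q.2) (f := fun q : ℝ × ℂ × ℝ => (Rm ‖q.2.1‖, ex q.1))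
      (gU_smooth hm.1 hm.2 (RSG.ex_norm q.1)) (h2.prodMk h3)
  have h5 : ContDiffAt ℝ ∞ (fun q : ℝ × ℂ × ℝ => ((R1 ‖q.2.1‖ : ℝ) : ℂ)) q :=
    (Complex.ofRealCLM.contDiff.contDiffAt).comp q h1
  exact h5.mul h4

theorem TwZ_ZQs {q : ℝ × ℂ × ℝ} (h : DZ q) : ContMDiffAt 𝓘(ℝ, ℝ × ℂ × ℝ) (𝓡 4) ∞ ZQ q := by
  have hx := zQ_re h
  have hz := TwZ_zQs h
  have hre : ContDiffAt ℝ ∞ (fun q => (zQ q).re) q := (Complex.reCLM.contDiff.contDiffAt).comp q hz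
  have him : ContDiffAt ℝ ∞ (fun q => (zQ q).im) q := (Complex.imCLM.contDiff.contDiffAt).comp q hz
  have h1 : ContDiffAt ℝ ∞ (fun q => Real.sqrt ((1 + (zQ q).re) / 2)) q := by
    apply ContDiffAt.sqrt
    · exact (contDiffAt_const.add hre).div_const 2
    · have : 0 < (1 + (zQ q).re) / 2 := by linarith
      exact this.ne'
  have h2 : ContDiffAt ℝ ∞ (fun q => Real.sqrt (2 * (1 + (zQ q).re))) q := by
    apply ContDiffAt.sqrt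
    · exact contDiffAt_const.mul (contDiffAt_const.add hre)
    · have : 0 < 2 * (1 + (zQ q).re) := by linarith
      exact this.ne'
  have hne := (TwZ_pos h).ne'
  have h3 : ContDiffAt ℝ ∞ (fun q => 1 / Real.sqrt (2 * (1 + (zQ q).re))) q :=
    contDiffAt_const.div h2 hne
  have h4 : ContDiffAt ℝ ∞ (fun q => (zQ q).im / Real.sqrt (2 * (1 + (zQ q).re))) q := him.div h2 hne
  have hex : ContDiffAt ℝ ∞ (fun q : ℝ × ℂ × ℝ => ex q.2.2) q :=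
    (RSG.ex_smooth.contDiffAt).comp q (by fun_prop)
  have ha : ContDiffAt ℝ ∞ (fun q : ℝ × ℂ × ℝ => ((Real.sqrt ((1 + (zQ q).re) / 2) : ℝ) : ℂ) * ex q.2.2) q :=
    ((Complex.ofRealCLM.contDiff.contDiffAt).comp q h1).mul hex
  have hb : ContDiffAt ℝ ∞ (fun q : ℝ × ℂ × ℝ => ((1 / Real.sqrt (2 * (1 + (zQ q).re)) : ℝ) : ℂ) * q.2.1) q :=
    ((Complex.ofRealCLM.contDiff.contDiffAt).comp q h3).mul (by fun_prop)
  refine RSG.pS4_smooth ha.contMDiffAt hb.contMDiffAt h4.contMDiffAt ?_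
  have h5 : 0 < ‖((Real.sqrt ((1 + (zQ q).re) / 2) : ℝ) : ℂ) * ex q.2.2‖ := by
    rw [norm_mul, RSG.ex_norm, mul_one, Complex.norm_real, Real.norm_eq_abs]
    apply abs_pos.2
    apply ne_of_gt
    apply Real.sqrt_pos.2
    linarith
  positivity

theorem TwZ_n1 {z : S4} (h1 : c1 z ≠ 0) : ContMDiffAt (𝓡 4) 𝓘(ℝ, ℝ) ∞ (fun z : S4 => ‖c1 z‖) z :=
  ((contDiffAt_norm ℝ h1).contMDiffAt).comp z (RSG.c1_smooth z)

theorem TwZ_vs {z : S4} (h1 : c1 z ≠ 0) : ContMDiffAt (𝓡 4) 𝓘(ℝ, ℂ) ∞ vQ z := by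
  have h2 : ContDiff ℝ ∞ (fun p : ℝ × ℂ => ((2 * p.1 : ℝ) : ℂ) * p.2) :=
    (Complex.ofRealCLM.contDiff.comp (contDiff_const.mul contDiff_fst)).mul contDiff_snd
  exact (h2.contMDiff _).comp z ((TwZ_n1 h1).prodMk_space (RSG.c2_smooth z))

theorem TwZ_zs {z : S4} (h1 : c1 z ≠ 0) : ContMDiffAt (𝓡 4) 𝓘(ℝ, ℂ) ∞ zz z := by
  have h2 : ContDiff ℝ ∞ (fun p : ℝ × ℝ => (⟨2 * p.1 ^ 2 - 1, 2 * p.1 * p.2⟩ : ℂ)) := by
    have e : (fun p : ℝ × ℝ => (⟨2 * p.1 ^ 2 - 1, 2 * p.1 * p.2⟩ : ℂ)) =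
        fun p : ℝ × ℝ => ((2 * p.1 ^ 2 - 1 : ℝ) : ℂ) + ((2 * p.1 * p.2 : ℝ) : ℂ) * I := by
      funext p
      exact Complex.mk_eq_add_mul_I _ _
    rw [e]
    have h3 : ContDiff ℝ ∞ (fun p : ℝ × ℝ => 2 * p.1 ^ 2 - 1) := by fun_prop
    have h4 : ContDiff ℝ ∞ (fun p : ℝ × ℝ => 2 * p.1 * p.2) := by fun_prop
    exact (Complex.ofRealCLM.contDiff.comp h3).add
      ((Complex.ofRealCLM.contDiff.comp h4).mul contDiff_const)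
  exact (h2.contMDiff _).comp z ((TwZ_n1 h1).prodMk_space (RSG.ht_smooth z))

theorem TwZ_es {z : S4} (h : fh z ≠ 0) (h1 : c1 z ≠ 0) : ContMDiffAt (𝓡 4) 𝓘(ℝ, ℂ) ∞ eQ z := by
  have hm := Rm_bd (norm_nonneg (vQ z)) (vQ_lt h)
  have h2 : ContMDiffAt (𝓡 4) 𝓘(ℝ, ℝ) ∞ (fun z : S4 => Rm ‖vQ z‖) z :=
    ContMDiffAt.comp z (g := fun v : ℂ => Rm ‖v‖) ((Rm_smooth (vQ_lt h)).contMDiffAt) (TwZ_vs h1)
  have hz := TwZ_zne h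
  have h3 : ContDiffAt ℝ ∞ (fun w : ℂ => w / ‖w‖) (zz z) := by
    have h4 : ContDiffAt ℝ ∞ (fun w : ℂ => ((‖w‖⁻¹ : ℝ) : ℂ) * w) (zz z) :=
      ((Complex.ofRealCLM.contDiff.contDiffAt).comp (zz z)
        ((contDiffAt_norm ℝ hz).inv (norm_ne_zero_iff.2 hz))).mul contDiffAt_id
    have e : (fun w : ℂ => w / ‖w‖) = fun w : ℂ => ((‖w‖⁻¹ : ℝ) : ℂ) * w := by
      funext w
      rw [Complex.ofReal_inv, div_eq_mul_inv, mul_comm]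
    rw [e]
    exact h4
  have h5 : ContMDiffAt (𝓡 4) 𝓘(ℝ, ℂ) ∞ (fun z : S4 => zz z / ‖zz z‖) z :=
    ContMDiffAt.comp z (g := fun w : ℂ => w / ‖w‖) h3.contMDiffAt (TwZ_zs h1)
  exact ContMDiffAt.comp z (g := fun q : ℝ × ℂ => gV q.1 q.2) (f := fun z : S4 => (Rm ‖vQ z‖, zz z / ‖zz z‖))
    ((gV_smooth hm.1 hm.2 (TwZ_un h)).contMDiffAt) (h2.prodMk_space h5)

theorem ZQ_ld {q : ℝ × ℂ × ℝ} (h : DZ q) : IsLocalDiffeomorphAt 𝓘(ℝ, ℝ × ℂ × ℝ) (𝓡 4) ∞ ZQ q := by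
  have hD : ∀ᶠ y in 𝓝 q, DZ y := TwZ_open.mem_nhds h
  have hc1 : ContinuousAt c1 (ZQ q) := RSG.c1_smooth.continuous.continuousAt
  have hfh : ContinuousAt fh (ZQ q) := RSG.fh_smooth.continuous.continuousAt
  have ha : ∀ᶠ z in 𝓝 (ZQ q), fh z ≠ 0 := hfh.eventually_ne (fh_ZQ h)
  have hb : ∀ᶠ z in 𝓝 (ZQ q), c1 z ≠ 0 := hc1.eventually_ne (ZQ_c1 h).1
  have heq := TwZ_es (fh_ZQ h) (ZQ_c1 h).1
  refine RSG.ld_two (g := fun z => (lf q.1 (eQ z), vQ z, lf q.2.2 (c1 z))) ?_ ?_ ?_ ?_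
  · filter_upwards [hD] with y hy using TwZ_ZQs hy
  · have hs1 : ∀ᶠ z in 𝓝 (ZQ q), eQ z * ex (-q.1) ∈ Complex.slitPlane := by
      apply heq.continuousAt.eventually (p := fun e => e * ex (-q.1) ∈ Complex.slitPlane)
      have h3 : eQ (ZQ q) ≠ 0 := by rw [eQ_ZQ h]; exact RSG.ex_ne _
      apply lf_near h3
      rw [eQ_ZQ h, RSG.ex_norm]
      simp
    have hs2 : ∀ᶠ z in 𝓝 (ZQ q), c1 z * ex (-q.2.2) ∈ Complex.slitPlane := by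
      apply hc1.eventually (p := fun e => e * ex (-q.2.2) ∈ Complex.slitPlane)
      exact lf_near (ZQ_c1 h).1 (ZQ_c1 h).2
    filter_upwards [ha, hb, hs1, hs2] with z h1 h2 h3 h4
    have k1 : ContMDiffAt (𝓡 4) 𝓘(ℝ, ℝ) ∞ (fun z => lf q.1 (eQ z)) z :=
      ContMDiffAt.comp z (g := lf q.1) ((lf_smooth h3).contMDiffAt) (TwZ_es h1 h2)
    have k2 : ContMDiffAt (𝓡 4) 𝓘(ℝ, ℝ) ∞ (fun z => lf q.2.2 (c1 z)) z :=
      ContMDiffAt.comp z (g := lf q.2.2) ((lf_smooth h4).contMDiffAt) (RSG.c1_smooth z)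
    exact k1.prodMk_space ((TwZ_vs h2).prodMk_space k2)
  · have hl : ∀ᶠ y : ℝ × ℂ × ℝ in 𝓝 q, |y.1 - q.1| < 1 / 2 := by
      have : ContinuousAt (fun y : ℝ × ℂ × ℝ => |y.1 - q.1|) q := by fun_prop
      apply this.eventually_lt_const
      simp
    have hu : ∀ᶠ y : ℝ × ℂ × ℝ in 𝓝 q, |y.2.2 - q.2.2| < 1 / 2 := by
      have : ContinuousAt (fun y : ℝ × ℂ × ℝ => |y.2.2 - q.2.2|) q := by fun_prop
      apply this.eventually_lt_const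
      simp
    filter_upwards [hD, hl, hu] with y hy h1 h2
    have e1 : lf q.2.2 (c1 (ZQ y)) = y.2.2 := by
      rw [(ZQ_c1 hy).2, lf_mul (norm_pos_iff.2 (ZQ_c1 hy).1), lf_ex h2]
    show (lf q.1 (eQ (ZQ y)), vQ (ZQ y), lf q.2.2 (c1 (ZQ y))) = y
    rw [eQ_ZQ hy, vQ_ZQ hy, e1, lf_ex h1]
  · filter_upwards [ha, hb] with z h1 h2
    apply ZQ_of h1 h2
    · have h3 : eQ z ≠ 0 := by
        have := eQ_norm h1
        intro h0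
        rw [h0] at this
        simp at this
      rw [ex_lf h3, eQ_norm h1]
      simp
    · have h3 : ((‖c1 z‖ : ℝ) : ℂ) ≠ 0 := by exact_mod_cast norm_ne_zero_iff.2 h2
      rw [ex_lf h2]
      field_simp

end Pool.Agent.LKT
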