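import Pool.Agent.LKT.TwH
import Pool.Agent.LKT.TwZ
import Pool.Agent.LKT.TwY
import Pool.Agent.LKT.TwD

/-!
# LKT/TwS (C5): a twin with one sphere meridian equal to the meridian of the torus is a circle surgery

PROOF (helper44).  Notation: `a = |c1 z|`, `ρ = 2|c1||c2|`, `|fh z|² + ρ² = 1`; `GG`, `GI` of Defs.
(1) ANALYSIS.  On `Ω = {w | |w.im| < 1, 0 < √(1-w.im²) + w.re}` (contains the open unit disc and the points `|w| = 1`, `re w > 0`) `GG` is smooth,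
    `|GG w|² = |w|²` (put `F² = 1 - S²`: `(S+E-1)² + 2F²(S+E)/(1+S) = E² + 1 - S²`), `GG (fh z) = zz z` for `c1 z ≠ 0` (`a² = (S+E)/2`, `S = √(1-F²) = 1-ht²`, `ht = F/√(1+S)`).
    `GI` is smooth on `{z | -1 < re z, |z| ≤ 1}` (near it: `im z² < 4 (1 + re z)`), `|GI z| = |z|`, `GI (GG w) = w`, `GG (GI z) = z` on the open unit disc.
    So for `0 < R < 1` the maps `gU R`, `gV R` are inverse bijections of the unit circle, smooth in `(R, e)`; `gU R (-1) = -1`.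
    STEREOGRAPHIC: `z ↦ (zz z, 2 |c1| c2, arg c1)` is a diffeomorphism of `{c1 ≠ 0}` onto `(S3 - (-1,0)) × S1` (`|zz|² + |2|c1|c2|² = 1`); inverse `(x + iy, z2, u) ↦ c1 = √((1+x)/2) ex u, c2 = z2/√(2(1+x)), ht = y/√(2(1+x))`.
(2) RADIAL FUNCTION `μ = μr` (Defs): smooth in `r²`, `0 < μr r < 1` for `0 ≤ r < 1`, `μr r = r` for `r ≥ 3/4`, `μr r = 5/8` for `r ≤ 1/2`.  Put `Rm r = √(1 - μr r²)`, `R1 r = √(1 - r²)`.
(3) THE THICK CIRCLE (radius 1/4): `γ i (u, y) = κ i (l, v, u)`, `v = 2√(1-|y|²) (y₀ + i y₁)` (so `|v| ≤ 2|y| < 1/2`), `ex l = gV (Rm |v|) (zy / |zy|)` with `zy = 2|y|² - 1 + 2i√(1-|y|²) y₂` (`|zy|² = 1-|v|²`,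
    `re zy < 0`) and `Rm |v| = √(1 - 25/64)` constant; choose `l = 1/2 + arg (- gV ..)/2π` (continuous: `gV R (zy/|zy|)` is never `1`..., it is near `-1`: `re < 0`).  Smooth, injective, local diffeomorphism: inverse
    `y` from `(l, v)`: `zy = √(1-|v|²) gU (Rm |v|) (ex l)`, `y₂ = im zy / √(2(1 - re zy))`, `y₀ + i y₁ = v / √(2 (1 - re zy))` (`|y|² = (1 + re zy)/2`, `1 - |y|² = (1 - re zy)/2`).
(4) THE MAP A: `D.A p = S.A p` outside the tubes `‖v‖ < 1`, `D.A (κ i (l, v, u)) = S.A (κ i (l', v, u))` for `0 < |v| < 1`, `ex l' = gV (Rm |v|) (gU (R1 |v|) (ex l))`; for `|v| ≥ 3/4` `l' = l`.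
    It is `S.A ∘ h`, `h` a bijective local diffeomorphism from `P - tori` onto `P - tori` (inverse `ex l = gV (R1 |v|) (gU (Rm |v|) (ex l'))`).
(5) THE MAP Q: `D.Q i z = S.A (κ i (l', 2|c1| c2, arg c1/2π))` with `ex l' = gV (Rm ρ) (zz z / |zz z|)` if `c1 z ≠ 0`, `D.Q i z = S.Q i (c1 z, (c2, ht)/|(c2, ht)|)` if `|c1 z| < 1/4`.  These agree for `0 < |c1| < 1/4`:
    `S.Q i (r ex u, w) = S.A (γ i (u, r w))`, `y = r w`, and `zy = zz z`, `v = 2√(1-r²) r w_c = 2|c1| c2`.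
    Glue: `c1, c2 ≠ 0`: `zz z = GG (fh z)`, `|fh z| = R1 ρ`, so `ex l' = gV (Rm ρ) (gU (R1 ρ) (ex l))` with `ex l = fh z/|fh z|`: it is `D.A (κ i (l, ρ ex m, u))`.
    `Q` is a local diffeomorphism on `{c1 ≠ 0, fh ≠ 0}`: composition of the stereographic diffeomorphism, `(z1, z2, u) ↦ (l', z2, u)` (inverse `z1 = √(1-|z2|²) gU (Rm |z2|) (ex l')`) and `S.A ∘ κ i`.
    Its image on `{c1 ≠ 0}` is `S.A (tube i - γ i core)`: for `v ≠ 0` everything, for `v = 0` everything but `l' = 1/2`.  Injectivity: the same; `c1 = 0`: `S.Q_inj`, `S.disj`.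
(6) disj, cover: a point of X is `S.A p` with `p` off the circles or `S.Q i (0, w)`; `p` off the tori: `p = h p'`; `p = κ i (l', 0, u)`, `l' ≠ 1/2`: `= Q i z` with `c2 z = 0`.
-/

open scoped Manifold ContDiff Topology
open Set Filter
open Complex (I)
open Pool.Agent.RSG (E3 E4 S2 S3 S4 ex cj c1 c2 ht fh pS2 pS3 pS4 hz ho)
open Pool.Agent.RBM (ThickT OnT)
open Pool.Agent.RBH (Tube)
open Pool.Agent.LKF (LinkT OnF TubF TwinF)

namespace Pool.Agent.LKT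

variable {E : Type*} [NormedAddCommGroup E] [NormedSpace ℝ E] {H : Type*} [TopologicalSpace H]
  {J : ModelWithCorners ℝ E H}
  {P : Type*} [TopologicalSpace P] [ChartedSpace H P] {ι : Type*}

/-- the thick circles -/
noncomputable def TwS_g (κ : ι → ℝ × ℂ × ℝ → P) (i : ι) : ℝ × E3 → P := gam (κ i)

theorem TwS_offA {κ : ι → ℝ × ℂ × ℝ → P} (hκ : LinkT J κ) {p : P} (hp : ¬ OnF κ p) : OffC (TwS_g κ) p := by
  intro i l he
  apply hp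
  refine ⟨i, 1 / 2, l, ?_⟩
  rw [he]
  exact gam_zero (hκ.thick i) l

theorem TwS_offQ {κ : ι → ℝ × ℂ × ℝ → P} (hκ : LinkT J κ) {z : S4} (hz : fh z ≠ 0) (h1 : c1 z ≠ 0) (i : ι) (u : ℝ) :
    OffC (TwS_g κ) (Kc (κ i) (eQ z) (vQ z) u) := by
  intro i' l he
  have h2 : TwS_g κ i' (l, 0) = κ i' (1 / 2, 0, l) := gam_zero (hκ.thick i') l
  rw [h2] at he
  have hi : i = i' := hκ.disj _ _ _ _ _ _ _ _ (vQ_lt hz) (by rw [norm_zero]; exact one_pos) he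
  subst hi
  rw [← Kc_ex (hκ.thick i)] at he
  obtain ⟨e1, e2, -⟩ := Kc_inj (hκ.thick i) (eQ_norm hz) (RSG.ex_norm _) (vQ_lt hz)
    (by rw [norm_zero]; exact one_pos) he
  rcases (ZQ_dom hz h1 e1 u).2 with h3 | h3
  · exact h3 e2
  · exact h3 RSG.ex_half

open Classical in
/-- the map of the twin -/
noncomputable def TwS_Q {κ : ι → ℝ × ℂ × ℝ → P} {X : Type*} [TopologicalSpace X] [ChartedSpace E4 X]
    (S : SurgJ J (TwS_g κ) (1 / 4) X) (i : ι) (z : S4) : X :=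
  if c1 z = 0 then S.Q i (0, pS2 (c2 z) (ht z)) else S.A (Kc (κ i) (eQ z) (vQ z) (an (c1 z)))

section
variable {κ : ι → ℝ × ℂ × ℝ → P} {X : Type*} [TopologicalSpace X] [ChartedSpace E4 X]

theorem TwS_Q0 (S : SurgJ J (TwS_g κ) (1 / 4) X) (i : ι) {z : S4} (h : c1 z = 0) :
    TwS_Q S i z = S.Q i (0, pS2 (c2 z) (ht z)) := by
  unfold TwS_Q
  rw [if_pos h]

theorem TwS_Q1 (S : SurgJ J (TwS_g κ) (1 / 4) X) (i : ι) {z : S4} (h : c1 z ≠ 0) :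
    TwS_Q S i z = S.A (Kc (κ i) (eQ z) (vQ z) (an (c1 z))) := by
  unfold TwS_Q
  rw [if_neg h]

theorem TwS_Qn (S : SurgJ J (TwS_g κ) (1 / 4) X) (i : ι) {z : S4} (h : ‖c1 z‖ < 1 / 4) :
    TwS_Q S i z = S.Q i (c1 z, pS2 (c2 z) (ht z)) := by
  by_cases h0 : c1 z = 0
  · rw [TwS_Q0 S i h0, h0]
  · have hr : 0 < ‖c1 z‖ := norm_pos_iff.2 h0
    have h2 := S.glue i (an (c1 z)) ‖c1 z‖ (pS2 (c2 z) (ht z)) hr h
    have hr' : ((‖c1 z‖ : ℝ) : ℂ) ≠ 0 := by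
      rw [Ne, Complex.ofReal_eq_zero, norm_eq_zero]
      exact h0
    have h3 : ((‖c1 z‖ : ℝ) : ℂ) * ex (an (c1 z)) = c1 z := by
      rw [ex_an h0, mul_div_cancel₀ _ hr']
    rw [h3] at h2
    rw [h2, TwS_Q1 S i h0]
    exact congrArg S.A (gam_eq h0 h (an (c1 z))).symm

theorem TwS_ZQ (hκ : LinkT J κ) (S : SurgJ J (TwS_g κ) (1 / 4) X) (i : ι) {q : ℝ × ℂ × ℝ} (h : DZ q) :
    TwS_Q S i (ZQ q) = S.A (κ i q) := by
  obtain ⟨h0, h1⟩ := ZQ_c1 h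
  rw [TwS_Q1 S i h0, eQ_ZQ h, vQ_ZQ h, Kc_u (hκ.thick i) _ _ h0 h1, Kc_ex (hκ.thick i)]

theorem TwS_DZ {q : ℝ × ℂ × ℝ} (h : DZ q) : ∀ᶠ q' in 𝓝 q, DZ q' := by
  have hex : Continuous ex := RSG.ex_smooth.continuous
  have o1 : IsOpen {q' : ℝ × ℂ × ℝ | ‖q'.2.1‖ < 1} := isOpen_lt (by fun_prop) continuous_const
  have o2 : IsOpen {q' : ℝ × ℂ × ℝ | q'.2.1 ≠ 0} := isOpen_ne_fun (by fun_prop) continuous_const
  have o3 : IsOpen {q' : ℝ × ℂ × ℝ | ex q'.1 ≠ -1} :=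
    isOpen_ne_fun (hex.comp continuous_fst) continuous_const
  exact (o1.inter (o2.union o3)).mem_nhds h

theorem TwS_pt {z : S4} (hz : fh z ≠ 0) (h1 : c1 z ≠ 0) : ZQ (an (eQ z), vQ z, an (c1 z)) = z ∧
    DZ (an (eQ z), vQ z, an (c1 z)) := by
  have e1 : eQ z = ex (an (eQ z)) := (ex_an1 (eQ_norm hz)).symm
  refine ⟨ZQ_of hz h1 e1 ?_, ZQ_dom hz h1 e1 _⟩
  rw [ex_an h1]
  have hr : (‖c1 z‖ : ℂ) ≠ 0 := by
    rw [Ne, Complex.ofReal_eq_zero, norm_eq_zero]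
    exact h1
  field_simp

theorem TwS_Q_loc (hκ : LinkT J κ) (S : SurgJ J (TwS_g κ) (1 / 4) X) (i : ι) {z : S4} (hz : fh z ≠ 0) :
    IsLocalDiffeomorphAt (𝓡 4) (𝓡 4) ∞ (TwS_Q S i) z := by
  by_cases h1 : c1 z = 0
  · have h2 : ‖c1 z‖ < 1 := by rw [h1, norm_zero]; exact one_pos
    have h3 := dQ_ld h2
    have h4 := S.Q_loc i (c1 z) (pS2 (c2 z) (ht z)) (by rw [h1, norm_zero]; norm_num)
    have h5 : IsLocalDiffeomorphAt (𝓡 4) (𝓡 4) ∞ (S.Q i ∘ fun z : S4 => (c1 z, pS2 (c2 z) (ht z))) z :=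
      IsLocalDiffeomorphAt.comp (hf := h3) (hg := h4) ..
    refine CSG.ld_congr h5 ?_
    have hc : ContinuousAt (fun z : S4 => ‖c1 z‖) z := (RSG.c1_smooth.continuous.norm).continuousAt
    have h6 : ‖c1 z‖ < 1 / 4 := by rw [h1, norm_zero]; norm_num
    filter_upwards [hc.eventually (Iio_mem_nhds h6)] with z' hz'
    exact TwS_Qn S i hz'
  · obtain ⟨e1, e2⟩ := TwS_pt hz h1
    set q := (an (eQ z), vQ z, an (c1 z)) with hq
    have h2 : IsLocalDiffeomorphAt 𝓘(ℝ, ℝ × ℂ × ℝ) J ∞ (κ i) q := (hκ.thick i).loc _ _ _ (vQ_lt hz)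
    have h3 : IsLocalDiffeomorphAt J (𝓡 4) ∞ S.A (κ i q) := S.A_loc _ (TwS_offQ hκ hz h1 i _)
    have h4 : IsLocalDiffeomorphAt 𝓘(ℝ, ℝ × ℂ × ℝ) (𝓡 4) ∞ (S.A ∘ κ i) q :=
      IsLocalDiffeomorphAt.comp (hf := h2) (hg := h3) ..
    rw [← e1]
    refine CSG.ld_of_comp_left (f := ZQ) (g := TwS_Q S i) (x := q) ?_ (ZQ_ld e2)
    refine CSG.ld_congr h4 ?_
    filter_upwards [TwS_DZ e2] with q' hq'
    exact TwS_ZQ hκ S i hq'

theorem TwS_Q_inj (hκ : LinkT J κ) (S : SurgJ J (TwS_g κ) (1 / 4) X) {i i' : ι} {z z' : S4} (hz : fh z ≠ 0)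
    (hz' : fh z' ≠ 0) (he : TwS_Q S i z = TwS_Q S i' z') : i = i' ∧ z = z' := by
  by_cases h1 : c1 z = 0
  · by_cases h1' : c1 z' = 0
    · rw [TwS_Q0 S i h1, TwS_Q0 S i' h1'] at he
      obtain ⟨e1, e2⟩ := S.Q_inj _ _ _ _ he
      refine ⟨e1, dQ_inj ?_ ?_ (by rw [h1, h1']) e2⟩
      · rw [h1, norm_zero]; exact one_pos
      · rw [h1', norm_zero]; exact one_pos
    · rw [TwS_Q0 S i h1, TwS_Q1 S i' h1'] at he
      exact absurd he (S.disj _ _ _ (TwS_offQ hκ hz' h1' i' _))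
  · by_cases h1' : c1 z' = 0
    · rw [TwS_Q1 S i h1, TwS_Q0 S i' h1'] at he
      exact absurd he.symm (S.disj _ _ _ (TwS_offQ hκ hz h1 i _))
    · rw [TwS_Q1 S i h1, TwS_Q1 S i' h1'] at he
      have he2 := S.A_inj _ _ (TwS_offQ hκ hz h1 i _) (TwS_offQ hκ hz' h1' i' _) he
      have hi : i = i' := hκ.disj _ _ _ _ _ _ _ _ (vQ_lt hz) (vQ_lt hz') he2
      subst hi
      obtain ⟨e1, e2, m, e3⟩ := Kc_inj (hκ.thick i) (eQ_norm hz) (eQ_norm hz') (vQ_lt hz) (vQ_lt hz') he2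
      refine ⟨rfl, ?_⟩
      obtain ⟨g1, -⟩ := TwS_pt hz h1
      obtain ⟨g1', -⟩ := TwS_pt hz' h1'
      have k1 : eQ z = ex (an (eQ z)) := (ex_an1 (eQ_norm hz)).symm
      have hr : (‖c1 z‖ : ℂ) ≠ 0 := by
        rw [Ne, Complex.ofReal_eq_zero, norm_eq_zero]
        exact h1
      have k2 : c1 z = (‖c1 z‖ : ℂ) * ex (an (c1 z) + m) := by
        rw [RSG.ex_add_int, ex_an h1]
        field_simp
      have k3 := ZQ_of hz h1 k1 k2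
      rw [← g1', ← e1, ← e2, e3, k3]

theorem TwS_eq {z : S4} {l : ℝ} (hl : fh z = (‖fh z‖ : ℂ) * ex l) : eQ z = Hc ‖vQ z‖ (ex l) := by
  have h1 := RSG.fh_sq z
  have h2 : R1 ‖vQ z‖ = ‖fh z‖ := by
    unfold R1
    rw [vQ_norm]
    rw [show 1 - (2 * ‖c1 z‖ * ‖c2 z‖) ^ 2 = ‖fh z‖ ^ 2 by linarith, Real.sqrt_sq (norm_nonneg _)]
  have h3 : ‖zz z‖ = ‖fh z‖ := by
    have h4 := zz_sq z
    rw [← Real.sqrt_sq (norm_nonneg (zz z)), h4, ← Real.sqrt_sq (norm_nonneg (fh z))]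
    congr 1
    linarith
  unfold eQ Hc gU
  rw [h2, ← hl, GG_fh, h3]

theorem TwS_glue (hκ : LinkT J κ) (S : SurgJ J (TwS_g κ) (1 / 4) X) (i : ι) {z : S4} {l m u : ℝ} (hz : fh z ≠ 0)
    (h1 : c1 z ≠ 0) (hu : c1 z = (‖c1 z‖ : ℂ) * ex u) (hm : c2 z = (‖c2 z‖ : ℂ) * ex m)
    (hl : fh z = (‖fh z‖ : ℂ) * ex l) :
    TwS_Q S i z = S.A (hh κ (κ i (l, (2 * ‖c1 z‖ * ‖c2 z‖ : ℝ) * ex m, u))) := by
  have hv : ((2 * ‖c1 z‖ * ‖c2 z‖ : ℝ) : ℂ) * ex m = vQ z := by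
    unfold vQ
    conv_rhs => rw [hm]
    push_cast
    ring
  rw [hv, hh_tube hκ i l u (vQ_lt hz), ← TwS_eq hl, TwS_Q1 S i h1, Kc_u (hκ.thick i) _ _ h1 hu]

end

/-- the theorem with the explicit thick circles `gam (κ i)` -/
theorem twm_gam [T2Space P] [Finite ι] {κ : ι → ℝ × ℂ × ℝ → P} (hκ : LinkT J κ) :
    TubesC J (TwS_g κ) (1 / 4) ∧
      (∀ (i : ι) (u : ℝ) (y : E3), ‖y‖ < 1 / 4 → ∃ (l : ℝ) (v : ℂ), ‖v‖ ≤ 1 / 2 ∧ TwS_g κ i (u, y) = κ i (l, v, u)) ∧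
      (∀ (i : ι) (u : ℝ), TwS_g κ i (u, 0) = κ i (1 / 2, 0, u)) ∧
      ∀ (X : Type) [TopologicalSpace X] [ChartedSpace E4 X] (S : SurgJ J (TwS_g κ) (1 / 4) X),
        ∃ D : TwMF J κ X, ∀ p, (∀ (i : ι) (l : ℝ) (v : ℂ) (u : ℝ), ‖v‖ < 3 / 4 → p ≠ κ i (l, v, u)) → D.A p = S.A p := by
  refine ⟨gam_tubes hκ, fun i u y hy => gam_in (κ i) u hy, fun i u => gam_zero (hκ.thick i) u, ?_⟩
  intro X _ _ S
  refine ⟨{ A := fun p => S.A (hh κ p), Q := TwS_Q S, A_loc := ?_, A_inj := ?_, Q_loc := ?_, Q_inj := ?_,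
            glue := ?_, disj := ?_, cover := ?_ }, ?_⟩
  · intro p hp
    have h1 := hh_loc hκ hp
    have h2 := S.A_loc _ (TwS_offA hκ (hh_not hκ hp))
    exact IsLocalDiffeomorphAt.comp (hf := h1) (hg := h2) ..
  · intro p p' hp hp' he
    exact hh_inj hκ hp hp' (S.A_inj _ _ (TwS_offA hκ (hh_not hκ hp)) (TwS_offA hκ (hh_not hκ hp')) he)
  · intro i z hz
    exact TwS_Q_loc hκ S i hz
  · intro i z i' z' hz hz' he
    exact TwS_Q_inj hκ S hz hz' he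
  · intro i z l m u hz h1 _ hu hm hl
    exact TwS_glue hκ S i hz h1 hu hm hl
  · intro i z p hz hc hp he
    by_cases h1 : c1 z = 0
    · rw [TwS_Q0 S i h1] at he
      exact S.disj _ _ _ (TwS_offA hκ (hh_not hκ hp)) he
    · have h2 : c2 z = 0 := by
        rcases hc with h | h
        · exact absurd h h1
        · exact h
      rw [TwS_Q1 S i h1] at he
      have h3 := S.A_inj _ _ (TwS_offQ hκ hz h1 i _) (TwS_offA hκ (hh_not hκ hp)) he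
      apply hh_not hκ hp
      rw [← h3]
      refine ⟨i, an (eQ z), an (c1 z), ?_⟩
      have h4 : vQ z = 0 := by
        unfold vQ
        rw [h2, mul_zero]
      unfold Kc
      rw [h4]
  · intro q
    rcases S.cover q with ⟨p, hp, rfl⟩ | ⟨i, v, rfl⟩
    · by_cases ht : OnF κ p
      · obtain ⟨i, l, u, rfl⟩ := ht
        have hd : DZ (l, 0, u) := by
          refine ⟨by simp, Or.inr ?_⟩
          intro hl
          apply hp i u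
          have h2 : TwS_g κ i (u, 0) = κ i (1 / 2, 0, u) := gam_zero (hκ.thick i) u
          rw [h2, ← Kc_ex (hκ.thick i) (1 / 2), ← Kc_ex (hκ.thick i) l, RSG.ex_half]
          rw [hl]
        right
        exact ⟨i, ZQ (l, 0, u), fh_ZQ hd, (TwS_ZQ hκ S i hd).symm⟩
      · obtain ⟨p', hp', rfl⟩ := hh_surj hκ ht
        exact Or.inl ⟨p', hp', rfl⟩
    · right
      obtain ⟨z, h1, h2⟩ := dQ_surj v
      refine ⟨i, z, ?_, ?_⟩
      · rw [RSG.fh_ne_iff, h1, norm_zero]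
        norm_num
      · rw [TwS_Q0 S i h1, h2]
  · intro p hp
    show S.A (hh κ p) = S.A p
    rw [hh_far hκ hp]

theorem twm_of_surg [T2Space P] [Finite ι] {κ : ι → ℝ × ℂ × ℝ → P} (hκ : LinkT J κ) :
    ∃ γ : ι → ℝ × E3 → P, TubesC J γ (1 / 4) ∧
      (∀ (i : ι) (u : ℝ) (y : E3), ‖y‖ < 1 / 4 → ∃ (l : ℝ) (v : ℂ), ‖v‖ ≤ 1 / 2 ∧ γ i (u, y) = κ i (l, v, u)) ∧
      (∀ (i : ι) (u : ℝ), γ i (u, 0) = κ i (1 / 2, 0, u)) ∧
      ∀ (X : Type) [TopologicalSpace X] [ChartedSpace E4 X] (S : SurgJ J γ (1 / 4) X),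
        ∃ D : TwMF J κ X, ∀ p, (∀ (i : ι) (l : ℝ) (v : ℂ) (u : ℝ), ‖v‖ < 3 / 4 → p ≠ κ i (l, v, u)) → D.A p = S.A p := by
  exact ⟨TwS_g κ, twm_gam hκ⟩

end Pool.Agent.LKT
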