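import Pool.Agent.LKT.TwG

/-!
# LKT/TwU: circle diffeomorphisms   (difficulty 2)

* `gU R e = GG (R e) / R`, `gV R e = GI (R e) / R`, `0 < R < 1`, `|e| = 1`: `|R e| = R < 1`, use `GG_norm`, `GI_norm`, `GI_GG`, `GG_GI`, `GG_real`, `GI_real` (`R * (-1) = ((-R : ℝ) : ℂ)`).
* smoothness: `(R, e) ↦ R e` is smooth, `GG_smooth`, division by `R ≠ 0`.
* `μr r = 5/8 + (r - 5/8) stp (1/4) (9/16) (r²)`: between `5/8` and `r` (`CSG.stp_nonneg`, `CSG.stp_le_one`); `CSG.stp_zero`, `CSG.stp_one`.  `μ_smooth`: at `v ≠ 0` `‖v‖` is smooth (`contDiffAt_norm ℝ`);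
  near `v = 0` `‖v‖² ≤ 1/4` and `μr ‖v‖ = 5/8` is constant.
* `Rm ‖v‖ = √(1 - μr ‖v‖²)`, positive argument.  `R1 ‖v‖ = √(1 - ‖v‖²)`, `‖v‖²` is smooth (`contDiff_norm_sq ℝ`).
* `Hc_big`: `μr r = r`, so `Rm r = R1 r`, `gV_gU`.
-/

open scoped Manifold ContDiff Topology
open Set Filter
open Complex (I)
open Pool.Agent.RSG (E3 E4 S2 S3 S4 ex cj c1 c2 ht fh pS2 pS3 pS4 hz ho)

namespace Pool.Agent.LKT

theorem TwU_nm {R : ℝ} {e : ℂ} (h0 : 0 < R) (he : ‖e‖ = 1) : ‖(R : ℂ) * e‖ = R := by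
  rw [norm_mul, he, mul_one, Complex.norm_real, Real.norm_of_nonneg h0.le]

theorem gU_norm {R : ℝ} {e : ℂ} (h0 : 0 < R) (h1 : R < 1) (he : ‖e‖ = 1) : ‖gU R e‖ = 1 := by
  have h2 := TwU_nm h0 he
  rw [gU, norm_div, GG_norm (by rw [h2]; exact h1), h2, Complex.norm_real,
    Real.norm_of_nonneg h0.le, div_self h0.ne']

theorem gV_norm {R : ℝ} {e : ℂ} (h0 : 0 < R) (h1 : R < 1) (he : ‖e‖ = 1) : ‖gV R e‖ = 1 := by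
  have h2 := TwU_nm h0 he
  rw [gV, norm_div, GI_norm (by rw [h2]; exact h1), h2, Complex.norm_real,
    Real.norm_of_nonneg h0.le, div_self h0.ne']

theorem gV_gU {R : ℝ} {e : ℂ} (h0 : 0 < R) (h1 : R < 1) (he : ‖e‖ = 1) : gV R (gU R e) = e := by
  have h2 := TwU_nm h0 he
  have h3 : (R : ℂ) ≠ 0 := Complex.ofReal_ne_zero.2 h0.ne'
  rw [gV, gU, mul_div_cancel₀ _ h3, GI_GG (by rw [h2]; exact h1), mul_div_cancel_left₀ _ h3]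

theorem gU_gV {R : ℝ} {e : ℂ} (h0 : 0 < R) (h1 : R < 1) (he : ‖e‖ = 1) : gU R (gV R e) = e := by
  have h2 := TwU_nm h0 he
  have h3 : (R : ℂ) ≠ 0 := Complex.ofReal_ne_zero.2 h0.ne'
  rw [gV, gU, mul_div_cancel₀ _ h3, GG_GI (by rw [h2]; exact h1), mul_div_cancel_left₀ _ h3]

theorem gU_neg {R : ℝ} (h0 : 0 < R) : gU R (-1) = -1 := by
  have h3 : (R : ℂ) ≠ 0 := Complex.ofReal_ne_zero.2 h0.ne'
  have h4 : (R : ℂ) * (-1) = ((-R : ℝ) : ℂ) := by push_cast; ring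
  rw [gU, h4, GG_real, div_eq_iff h3]
  push_cast
  ring

theorem gV_neg {R : ℝ} (h0 : 0 < R) : gV R (-1) = -1 := by
  have h3 : (R : ℂ) ≠ 0 := Complex.ofReal_ne_zero.2 h0.ne'
  have h4 : (R : ℂ) * (-1) = ((-R : ℝ) : ℂ) := by push_cast; ring
  rw [gV, h4, GI_real, div_eq_iff h3]
  push_cast
  ring

theorem TwU_re {E : Type*} [NormedAddCommGroup E] [NormedSpace ℝ E] {f : E → ℝ} {x : E}
    (hf : ContDiffAt ℝ ∞ f x) : ContDiffAt ℝ ∞ (fun z => ((f z : ℝ) : ℂ)) x := by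
  have h2 : ContDiff ℝ ∞ (fun t : ℝ => (t : ℂ)) := Complex.ofRealCLM.contDiff
  exact h2.contDiffAt.comp x hf

theorem gU_smooth {q : ℝ × ℂ} (h0 : 0 < q.1) (h1 : q.1 < 1) (he : ‖q.2‖ = 1) :
    ContDiffAt ℝ ∞ (fun q : ℝ × ℂ => gU q.1 q.2) q := by
  have h2 := TwU_nm h0 he
  have h3 : (q.1 : ℂ) ≠ 0 := Complex.ofReal_ne_zero.2 h0.ne'
  have h4 : ContDiffAt ℝ ∞ (fun q : ℝ × ℂ => ((q.1 : ℝ) : ℂ)) q := TwU_re contDiffAt_fst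
  have h5 : ContDiffAt ℝ ∞ (fun q : ℝ × ℂ => ((q.1 : ℝ) : ℂ) * q.2) q := h4.mul contDiffAt_snd
  have h6 : ContDiffAt ℝ ∞ (fun q : ℝ × ℂ => GG (((q.1 : ℝ) : ℂ) * q.2)) q :=
    (GG_smooth (by rw [h2]; exact h1)).comp q h5
  have h7 := h6.mul (h4.inv h3)
  have h8 : (fun q : ℝ × ℂ => gU q.1 q.2) =
      fun q : ℝ × ℂ => GG (((q.1 : ℝ) : ℂ) * q.2) * ((q.1 : ℝ) : ℂ)⁻¹ := by
    funext q
    rw [gU, div_eq_mul_inv]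
  rw [h8]
  exact h7

theorem gV_smooth {q : ℝ × ℂ} (h0 : 0 < q.1) (h1 : q.1 < 1) (he : ‖q.2‖ = 1) :
    ContDiffAt ℝ ∞ (fun q : ℝ × ℂ => gV q.1 q.2) q := by
  have h2 := TwU_nm h0 he
  have h3 : (q.1 : ℂ) ≠ 0 := Complex.ofReal_ne_zero.2 h0.ne'
  have h4 : ContDiffAt ℝ ∞ (fun q : ℝ × ℂ => ((q.1 : ℝ) : ℂ)) q := TwU_re contDiffAt_fst
  have h5 : ContDiffAt ℝ ∞ (fun q : ℝ × ℂ => ((q.1 : ℝ) : ℂ) * q.2) q := h4.mul contDiffAt_snd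
  have h6 : ContDiffAt ℝ ∞ (fun q : ℝ × ℂ => GI (((q.1 : ℝ) : ℂ) * q.2)) q :=
    (GI_smooth (by rw [h2]; exact h1)).comp q h5
  have h7 := h6.mul (h4.inv h3)
  have h8 : (fun q : ℝ × ℂ => gV q.1 q.2) =
      fun q : ℝ × ℂ => GI (((q.1 : ℝ) : ℂ) * q.2) * ((q.1 : ℝ) : ℂ)⁻¹ := by
    funext q
    rw [gV, div_eq_mul_inv]
  rw [h8]
  exact h7

theorem μ_small {r : ℝ} (h : r ^ 2 ≤ 1 / 4) : μr r = 5 / 8 := by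
  rw [μr, CSG.stp_zero (by norm_num) h, mul_zero, add_zero]

theorem μ_big {r : ℝ} (h : 3 / 4 ≤ r) : μr r = r := by
  rw [μr, CSG.stp_one (by norm_num) (by nlinarith), mul_one]
  ring

theorem μ_bd {r : ℝ} (h0 : 0 ≤ r) (h1 : r < 1) : 0 < μr r ∧ μr r < 1 := by
  rcases le_or_gt (r ^ 2) (1 / 4) with h | h
  · rw [μ_small h]
    norm_num
  · have h2 : 1 / 2 < r := by nlinarith
    have h3 := CSG.stp_nonneg (1 / 4) (9 / 16) (r ^ 2)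
    have h4 := CSG.stp_le_one (1 / 4) (9 / 16) (r ^ 2)
    rw [μr]
    generalize CSG.stp (1 / 4) (9 / 16) (r ^ 2) = s at *
    constructor
    · nlinarith
    · nlinarith

theorem μ_smooth (v : ℂ) : ContDiffAt ℝ ∞ (fun v : ℂ => μr ‖v‖) v := by
  by_cases hv : v = 0
  · subst hv
    have h1 : (fun v : ℂ => μr ‖v‖) =ᶠ[𝓝 0] fun _ => 5 / 8 := by
      filter_upwards [Metric.ball_mem_nhds (0 : ℂ) (by norm_num : (0 : ℝ) < 1 / 2)] with w hw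
      rw [mem_ball_zero_iff] at hw
      exact μ_small (by nlinarith [norm_nonneg w])
    exact contDiffAt_const.congr_of_eventuallyEq h1
  · have h1 : ContDiffAt ℝ ∞ (fun v : ℂ => ‖v‖) v := contDiffAt_norm ℝ hv
    have h2 : ContDiffAt ℝ ∞ (fun v : ℂ => CSG.stp (1 / 4) (9 / 16) (‖v‖ ^ 2)) v :=
      (CSG.stp_smooth _ _).contDiffAt.comp v (h1.pow 2)
    exact contDiffAt_const.add ((h1.sub contDiffAt_const).mul h2)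

theorem TwU_sq {m : ℝ} (h0 : 0 ≤ m) (h1 : m < 1) : 0 < 1 - m ^ 2 := by nlinarith

theorem TwU_sq1 {m : ℝ} (h0 : 0 < m) (h1 : m < 1) :
    0 < Real.sqrt (1 - m ^ 2) ∧ Real.sqrt (1 - m ^ 2) < 1 := by
  refine ⟨Real.sqrt_pos.2 (TwU_sq h0.le h1), ?_⟩
  rw [Real.sqrt_lt' one_pos]
  nlinarith

theorem Rm_bd {r : ℝ} (h0 : 0 ≤ r) (h1 : r < 1) : 0 < Rm r ∧ Rm r < 1 :=
  TwU_sq1 (μ_bd h0 h1).1 (μ_bd h0 h1).2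

theorem Rm_small {r : ℝ} (h : r ^ 2 ≤ 1 / 4) : Rm r = Rm 0 := by
  rw [Rm, Rm, μ_small h, μ_small (by norm_num)]

theorem Rm_smooth {v : ℂ} (h : ‖v‖ < 1) : ContDiffAt ℝ ∞ (fun v : ℂ => Rm ‖v‖) v := by
  have h1 := μ_bd (norm_nonneg v) h
  exact ContDiffAt.sqrt (contDiffAt_const.sub ((μ_smooth v).pow 2)) (TwU_sq h1.1.le h1.2).ne'

theorem R1_bd {r : ℝ} (h0 : 0 < r) (h1 : r < 1) : 0 < R1 r ∧ R1 r < 1 := TwU_sq1 h0 h1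

theorem R1_pos {r : ℝ} (h0 : 0 ≤ r) (h1 : r < 1) : 0 < R1 r := Real.sqrt_pos.2 (TwU_sq h0 h1)

theorem R1_smooth {v : ℂ} (h : ‖v‖ < 1) : ContDiffAt ℝ ∞ (fun v : ℂ => R1 ‖v‖) v := by
  have h1 : ContDiffAt ℝ ∞ (fun v : ℂ => ‖v‖ ^ 2) v := (contDiff_norm_sq ℝ).contDiffAt
  exact ContDiffAt.sqrt (contDiffAt_const.sub h1) (TwU_sq (norm_nonneg v) h).ne'

theorem Hc_norm {r : ℝ} {e : ℂ} (h0 : 0 < r) (h1 : r < 1) (he : ‖e‖ = 1) : ‖Hc r e‖ = 1 :=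
  gV_norm (Rm_bd h0.le h1).1 (Rm_bd h0.le h1).2 (gU_norm (R1_bd h0 h1).1 (R1_bd h0 h1).2 he)

theorem Hi_norm {r : ℝ} {e : ℂ} (h0 : 0 < r) (h1 : r < 1) (he : ‖e‖ = 1) : ‖Hi r e‖ = 1 :=
  gV_norm (R1_bd h0 h1).1 (R1_bd h0 h1).2 (gU_norm (Rm_bd h0.le h1).1 (Rm_bd h0.le h1).2 he)

theorem Hi_Hc {r : ℝ} {e : ℂ} (h0 : 0 < r) (h1 : r < 1) (he : ‖e‖ = 1) : Hi r (Hc r e) = e := by
  have a := R1_bd h0 h1
  have b := Rm_bd h0.le h1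
  rw [Hi, Hc, gU_gV b.1 b.2 (gU_norm a.1 a.2 he), gV_gU a.1 a.2 he]

theorem Hc_Hi {r : ℝ} {e : ℂ} (h0 : 0 < r) (h1 : r < 1) (he : ‖e‖ = 1) : Hc r (Hi r e) = e := by
  have a := R1_bd h0 h1
  have b := Rm_bd h0.le h1
  rw [Hi, Hc, gU_gV a.1 a.2 (gU_norm b.1 b.2 he), gV_gU b.1 b.2 he]

theorem Hc_big {r : ℝ} {e : ℂ} (h0 : 3 / 4 ≤ r) (h1 : r < 1) (he : ‖e‖ = 1) : Hc r e = e := by
  have a := R1_bd (by linarith) h1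
  have h2 : Rm r = R1 r := by rw [Rm, R1, μ_big h0]
  rw [Hc, h2, gV_gU a.1 a.2 he]

theorem TwU_fst {f : ℂ → ℝ} {q : ℂ × ℂ} (h : ContDiffAt ℝ ∞ f q.1) :
    ContDiffAt ℝ ∞ (fun q : ℂ × ℂ => f q.1) q := h.comp q contDiffAt_fst

theorem TwU_comp {g : ℝ → ℂ → ℂ} {a : ℂ × ℂ → ℝ} {b : ℂ × ℂ → ℂ} {x : ℂ × ℂ}
    (hg : ContDiffAt ℝ ∞ (fun q : ℝ × ℂ => g q.1 q.2) (a x, b x)) (ha : ContDiffAt ℝ ∞ a x)
    (hb : ContDiffAt ℝ ∞ b x) : ContDiffAt ℝ ∞ (fun z => g (a z) (b z)) x :=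
  ContDiffAt.comp (g := fun q : ℝ × ℂ => g q.1 q.2) (f := fun z => (a z, b z)) x hg
    (ha.prodMk hb)

/-- smoothness of `(v, e) ↦ Hc ‖v‖ e`, `Hi ‖v‖ e` -/
theorem Hc_smooth {q : ℂ × ℂ} (h0 : q.1 ≠ 0) (h1 : ‖q.1‖ < 1) (he : ‖q.2‖ = 1) :
    ContDiffAt ℝ ∞ (fun q : ℂ × ℂ => Hc ‖q.1‖ q.2) q := by
  have h0' : 0 < ‖q.1‖ := norm_pos_iff.2 h0
  have a := R1_bd h0' h1
  have b := Rm_bd h0'.le h1
  have hm : ContDiffAt ℝ ∞ (fun q : ℂ × ℂ => Rm ‖q.1‖) q := TwU_fst (Rm_smooth h1)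
  have h1' : ContDiffAt ℝ ∞ (fun q : ℂ × ℂ => R1 ‖q.1‖) q := TwU_fst (R1_smooth h1)
  have h2 : ContDiffAt ℝ ∞ (fun q : ℂ × ℂ => gU (R1 ‖q.1‖) q.2) q :=
    TwU_comp (g := gU) (a := fun q : ℂ × ℂ => R1 ‖q.1‖) (b := fun q : ℂ × ℂ => q.2)
      (gU_smooth a.1 a.2 he) h1' contDiffAt_snd
  have h3 : ContDiffAt ℝ ∞ (fun q : ℂ × ℂ => gV (Rm ‖q.1‖) (gU (R1 ‖q.1‖) q.2)) q :=
    TwU_comp (g := gV) (a := fun q : ℂ × ℂ => Rm ‖q.1‖)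
      (b := fun q : ℂ × ℂ => gU (R1 ‖q.1‖) q.2)
      (gV_smooth b.1 b.2 (gU_norm a.1 a.2 he)) hm h2
  exact h3

theorem Hi_smooth {q : ℂ × ℂ} (h0 : q.1 ≠ 0) (h1 : ‖q.1‖ < 1) (he : ‖q.2‖ = 1) :
    ContDiffAt ℝ ∞ (fun q : ℂ × ℂ => Hi ‖q.1‖ q.2) q := by
  have h0' : 0 < ‖q.1‖ := norm_pos_iff.2 h0
  have a := R1_bd h0' h1
  have b := Rm_bd h0'.le h1
  have hm : ContDiffAt ℝ ∞ (fun q : ℂ × ℂ => Rm ‖q.1‖) q := TwU_fst (Rm_smooth h1)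
  have h1' : ContDiffAt ℝ ∞ (fun q : ℂ × ℂ => R1 ‖q.1‖) q := TwU_fst (R1_smooth h1)
  have h2 : ContDiffAt ℝ ∞ (fun q : ℂ × ℂ => gU (Rm ‖q.1‖) q.2) q :=
    TwU_comp (g := gU) (a := fun q : ℂ × ℂ => Rm ‖q.1‖) (b := fun q : ℂ × ℂ => q.2)
      (gU_smooth b.1 b.2 he) hm contDiffAt_snd
  have h3 : ContDiffAt ℝ ∞ (fun q : ℂ × ℂ => gV (R1 ‖q.1‖) (gU (Rm ‖q.1‖) q.2)) q :=
    TwU_comp (g := gV) (a := fun q : ℂ × ℂ => R1 ‖q.1‖)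
      (b := fun q : ℂ × ℂ => gU (Rm ‖q.1‖) q.2)
      (gV_smooth a.1 a.2 (gU_norm b.1 b.2 he)) h1' h2
  exact h3

end Pool.Agent.LKT
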